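import Mathlib
import Pool.Agent.H47R4.Err

/-! Localised coloured Maynard-Tao: tents. -/

namespace Pool.Agent.H47R4

open Finset Filter Topology
open Pool.Agent.H410R2 hiding GP GP_prof GP_cut_some GP_cut_none GP_lip gg_pos gg_le_one gg_anti ee_bound ee_nonneg gg_lip LB_gg LB_ee Sums exists_sums yx wx wxi Br sum_GP_none sum_GP_some sum_GP_some_ee sum_GP_some_one sum_GPr_none sum_GPr_some S1_final QI_final S2_final w_abs_le wmax gg ee I1 I2 IE
open Pool.Agent.H361R2.GM
open Pool.Agent.H362R2.CM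

variable {k : ℕ}

/-- truncated logarithm -/
noncomputable def pl (a : ℕ) (y : ℝ) (m : ℕ) : ℝ :=
  if (m : ℝ) ≤ a * y then Real.log (a * y / (m : ℝ)) else 0

/-- the prime sum at length `y`, weights of level `x` -/
noncomputable def FF (Q : SPar) (a b : Fin k → ℕ) (D v : ℕ) (ρ x : ℝ) (i : Fin k) (y : ℝ) : ℝ :=
  ∑ n ∈ (Icc 1 ⌊y⌋₊).filter
          (fun n => n ≡ v [MOD (WW D)] ∧ ((a i * n + b i : ℕ) : ℝ) ≤ a i * y),
        ArithmeticFunction.vonMangoldt (a i * n + b i) *
          Real.log (a i * y / ((a i * n + b i : ℕ) : ℝ)) *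
            (wI a b (Pr D x) i (yP Q k (Pr D x) (Lr ρ x)) n) ^ 2

theorem FF_eq (Q : SPar) (a b : Fin k → ℕ) (ha : ∀ i, 1 ≤ a i) (D v : ℕ) (ρ x : ℝ) (i : Fin k)
    (y z : ℝ) (hy : 0 < y) (hyz : y ≤ z) :
    FF Q a b D v ρ x i y = ∑ n ∈ (Icc 1 ⌊z⌋₊).filter
          (fun n => n ≡ v [MOD (WW D)] ∧ ((a i * n + b i : ℕ) : ℝ) ≤ a i * z),
        ArithmeticFunction.vonMangoldt (a i * n + b i) * pl (a i) y (a i * n + b i) *
            (wI a b (Pr D x) i (yP Q k (Pr D x) (Lr ρ x)) n) ^ 2 := by
  unfold FF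
  have hai : (0 : ℝ) < a i := by exact_mod_cast ha i
  have hsub : (Icc 1 ⌊y⌋₊).filter
          (fun n => n ≡ v [MOD (WW D)] ∧ ((a i * n + b i : ℕ) : ℝ) ≤ a i * y) ⊆
      (Icc 1 ⌊z⌋₊).filter
          (fun n => n ≡ v [MOD (WW D)] ∧ ((a i * n + b i : ℕ) : ℝ) ≤ a i * z) := by
    intro n hn
    rw [Finset.mem_filter, Finset.mem_Icc] at hn ⊢
    refine ⟨⟨hn.1.1, hn.1.2.trans (Nat.floor_le_floor hyz)⟩, hn.2.1, hn.2.2.trans ?_⟩
    gcongr
  rw [← Finset.sum_subset hsub]
  · refine Finset.sum_congr rfl fun n hn => ?_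
    rw [Finset.mem_filter] at hn
    unfold pl
    rw [if_pos hn.2.2]
  · intro n hn hn'
    have : ¬ ((a i * n + b i : ℕ) : ℝ) ≤ a i * y := by
      intro h
      apply hn'
      rw [Finset.mem_filter, Finset.mem_Icc] at hn ⊢
      refine ⟨⟨hn.1.1, ?_⟩, hn.2.1, h⟩
      apply Nat.le_floor
      push_cast at h
      have h1 : (a i : ℝ) * n ≤ a i * y := by
        have : (0 : ℝ) ≤ b i := Nat.cast_nonneg _
        linarith
      exact le_of_mul_le_mul_left h1 hai
    unfold pl
    rw [if_neg this]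
    ring

/-- the tent is bounded -/
theorem tent_le (a : ℕ) (ha : 1 ≤ a) (x : ℝ) (hx : 0 < x) (m : ℕ) (hm : 1 ≤ m)
    (hmy : (m : ℝ) ≤ a * (9 / 25 * x)) :
    pl a (9 / 25 * x) m - 2 * pl a (303 / 1000 * x) m + pl a (10201 / 40000 * x) m ≤
      if a * (10201 / 40000 * x) < (m : ℝ) then 189 / 1000 else 0 := by
  have ha0 : (0 : ℝ) < a := by exact_mod_cast ha
  have hm0 : (0 : ℝ) < m := by exact_mod_cast hm
  have hax : 0 < (a : ℝ) * x := by positivity
  have hl : Real.log (120 / 101 : ℝ) ≤ 189 / 1000 := by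
    have := Real.log_le_sub_one_of_pos (show (0 : ℝ) < 120 / 101 by norm_num)
    linarith
  have e2 : pl a (9 / 25 * x) m = Real.log (a * x / m) + Real.log (9 / 25) := by
    unfold pl
    rw [if_pos hmy, ← Real.log_mul (by positivity) (by norm_num)]
    congr 1
    ring
  by_cases h1 : (m : ℝ) ≤ a * (303 / 1000 * x)
  · have e1 : pl a (303 / 1000 * x) m = Real.log (a * x / m) + Real.log (303 / 1000) := by
      unfold pl
      rw [if_pos h1, ← Real.log_mul (by positivity) (by norm_num)]
      congr 1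
      ring
    by_cases h0 : (m : ℝ) ≤ a * (10201 / 40000 * x)
    · have e0 : pl a (10201 / 40000 * x) m = Real.log (a * x / m) + Real.log (10201 / 40000) := by
        unfold pl
        rw [if_pos h0, ← Real.log_mul (by positivity) (by norm_num)]
        congr 1
        ring
      rw [if_neg (not_lt.2 h0), e0, e1, e2]
      have h3 : Real.log (9 / 25) + Real.log (10201 / 40000) = 2 * Real.log (303 / 1000) := by
        rw [← Real.log_mul (by norm_num) (by norm_num), ← Nat.cast_ofNat (R := ℝ) (n := 2),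
          ← Real.log_pow]
        norm_num
      linarith
    · have e0 : pl a (10201 / 40000 * x) m = 0 := by
        unfold pl
        rw [if_neg h0]
      rw [if_pos (not_le.1 h0), e0, e1, e2]
      have h4 : Real.log (a * x / m) ≤ Real.log (40000 / 10201) := by
        apply Real.log_le_log (by positivity)
        rw [div_le_div_iff₀ hm0 (by norm_num)]
        have := not_le.1 h0
        linarith
      have h5 : Real.log (a * x / m) + Real.log (9 / 25) -
          2 * (Real.log (a * x / m) + Real.log (303 / 1000)) + 0 =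
          Real.log (9 / 25) - 2 * Real.log (303 / 1000) - Real.log (a * x / m) := by ring
      rw [h5]
      have h6 : Real.log (10201 / 40000) ≤ Real.log (m / (a * x)) := by
        apply Real.log_le_log (by norm_num)
        rw [div_le_div_iff₀ (by norm_num) hax]
        have := not_le.1 h0
        linarith
      have h7 : Real.log (m / (a * x)) = - Real.log (a * x / m) := by
        rw [← Real.log_inv, inv_div]
      -- `log (m / (a x)) ≤ log (303 / 1000)`
      have h8 : Real.log (m / (a * x)) ≤ Real.log (303 / 1000) := by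
        apply Real.log_le_log (by positivity)
        rw [div_le_div_iff₀ hax (by norm_num)]
        linarith
      have h9 : Real.log (9 / 25) - Real.log (303 / 1000) = Real.log (120 / 101) := by
        rw [← Real.log_div (by norm_num) (by norm_num)]
        norm_num
      linarith
  · have e1 : pl a (303 / 1000 * x) m = 0 := by
      unfold pl
      rw [if_neg h1]
    have h0 : ¬ (m : ℝ) ≤ a * (10201 / 40000 * x) := by
      intro h
      apply h1
      refine h.trans ?_
      nlinarith
    have e0 : pl a (10201 / 40000 * x) m = 0 := by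
      unfold pl
      rw [if_neg h0]
    rw [if_pos (not_le.1 h0), e0, e1, e2]
    have h4 : Real.log (a * x / m) ≤ Real.log (1000 / 303) := by
      apply Real.log_le_log (by positivity)
      rw [div_le_div_iff₀ hm0 (by norm_num)]
      have := not_le.1 h1
      linarith
    have h9 : Real.log (1000 / 303) + Real.log (9 / 25) = Real.log (120 / 101) := by
      rw [← Real.log_mul (by norm_num) (by norm_num)]
      norm_num
    linarith

theorem tent_toPrimes (Q : SPar) (hPB : ProdBound) (hOB : OmegaBound) {a b : Fin k → ℕ} {D v : ℕ}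
    (hc : Ctx a b D v) (ρ : ℝ) (hρ : 0 < ρ) (hρ1 : ρ ≤ 1 / 16) :
    ∃ C : ℝ, 0 ≤ C ∧ ∀ᶠ x : ℝ in atTop, ∀ i : Fin k,
      FF Q a b D v ρ x i (9 / 25 * x) - 2 * FF Q a b D v ρ x i (303 / 1000 * x) +
        FF Q a b D v ρ x i (10201 / 40000 * x) ≤
      (Real.log x + C) * (189 / 1000) * ∑ n ∈ (Icc 1 ⌊x⌋₊).filter
          (fun n => n ≡ v [MOD (WW D)] ∧ x / 4 < n ∧ (n : ℝ) ≤ 9 / 25 * x ∧
            (a i * n + b i).Prime),
            (wP Q a b (Pr D x) (Lr ρ x) n) ^ 2 + x ^ (3 / 4 : ℝ) := by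
  refine ⟨∑ i, Real.log (a i), Finset.sum_nonneg fun i _ => Real.log_natCast_nonneg _, ?_⟩
  have herr : ∀ᶠ x : ℝ in atTop, ∀ i : Fin k, Real.log (a i * x) * x ^ (1 / 10 : ℝ) *
      (2 * √(a i * x) * Real.log (a i * x) + (Real.log 4 + 4) * Real.exp (Real.log x / 4)) ≤
        x ^ (3 / 4 : ℝ) := by
    rw [Filter.eventually_all]
    intro i
    exact Pt.err_small (a i) (hc.ha i)
  have hbx : ∀ᶠ x : ℝ in atTop, ∀ i : Fin k, 1000 * (b i : ℝ) ≤ x := by
    rw [Filter.eventually_all]
    intro i
    exact eventually_ge_atTop _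
  filter_upwards [herr, ptw Q hPB hOB hc ρ hρ hρ1 (1 / 10) (by norm_num), hbx,
    eventually_gt_atTop (Real.exp 1)] with x herr hFA hbx hxe i
  have hx : 1 < x := lt_trans (by
    have := Real.add_one_le_exp (1 : ℝ)
    linarith) hxe
  have hx0 : 0 < x := by linarith
  have hai : (1 : ℝ) ≤ a i := by exact_mod_cast hc.ha i
  have hai0 : (0 : ℝ) < a i := by linarith
  have hlx : 0 < Real.log x := Real.log_pos hx
  have hlx1 : 1 ≤ Real.log x := (Real.le_log_iff_exp_le hx0).2 hxe.le
  have hxax : x ≤ (a i : ℝ) * x := by nlinarith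
  have hax : 1 ≤ (a i : ℝ) * x := by nlinarith
  have hlax1 : 1 ≤ Real.log (a i * x) := hlx1.trans (Real.log_le_log hx0 hxax)
  have hlax : 0 ≤ Real.log (a i * x) := by linarith
  have hC : Real.log (a i) ≤ ∑ i, Real.log (a i) :=
    Finset.single_le_sum (f := fun i => Real.log (a i))
      (fun i _ => Real.log_natCast_nonneg (a i)) (Finset.mem_univ i)
  set C := ∑ i, Real.log (a i) with hCdef
  have hC0 : 0 ≤ C := le_trans (Real.log_natCast_nonneg _) hC
  set y2 : ℝ := 9 / 25 * x with hy2
  set S := (Icc 1 ⌊y2⌋₊).filter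
          (fun n => n ≡ v [MOD (WW D)] ∧ ((a i * n + b i : ℕ) : ℝ) ≤ a i * y2) with hS
  rw [FF_eq Q a b hc.ha D v ρ x i (9 / 25 * x) y2 (by positivity) le_rfl,
    FF_eq Q a b hc.ha D v ρ x i (303 / 1000 * x) y2 (by positivity) (by rw [hy2]; nlinarith),
    FF_eq Q a b hc.ha D v ρ x i (10201 / 40000 * x) y2 (by positivity) (by rw [hy2]; nlinarith)]
  rw [← hS, Finset.mul_sum, ← Finset.sum_sub_distrib, ← Finset.sum_add_distrib]
  have hSm : ∀ n ∈ S, 1 ≤ n ∧ (n : ℝ) ≤ y2 ∧ n ≡ v [MOD (WW D)] ∧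
      ((a i * n + b i : ℕ) : ℝ) ≤ a i * y2 := by
    intro n hn
    rw [hS, Finset.mem_filter, Finset.mem_Icc] at hn
    exact ⟨hn.1.1, (Nat.cast_le.2 hn.1.2).trans (Nat.floor_le (by positivity)), hn.2.1, hn.2.2⟩
  set g : ℕ → ℝ := fun n => if ¬ (a i * n + b i).Prime ∨ ((a i * n + b i : ℕ) : ℝ) ≤
      Real.exp (Real.log x / 4) then ArithmeticFunction.vonMangoldt (a i * n + b i) else 0 with hg
  have hg0 : ∀ n, 0 ≤ g n := by
    intro m
    simp only [hg]
    split_ifs
    · exact ArithmeticFunction.vonMangoldt_nonneg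
    · exact le_rfl
  have key : ∀ n ∈ S, ArithmeticFunction.vonMangoldt (a i * n + b i) * pl (a i) (9 / 25 * x) (a i * n + b i) *
          (wI a b (Pr D x) i (yP Q k (Pr D x) (Lr ρ x)) n) ^ 2 -
        2 * (ArithmeticFunction.vonMangoldt (a i * n + b i) * pl (a i) (303 / 1000 * x) (a i * n + b i) *
          (wI a b (Pr D x) i (yP Q k (Pr D x) (Lr ρ x)) n) ^ 2) +
        ArithmeticFunction.vonMangoldt (a i * n + b i) * pl (a i) (10201 / 40000 * x) (a i * n + b i) *
          (wI a b (Pr D x) i (yP Q k (Pr D x) (Lr ρ x)) n) ^ 2 ≤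
      (if x / 4 < n ∧ (a i * n + b i).Prime then (Real.log x + C) * (189 / 1000) *
        (wP Q a b (Pr D x) (Lr ρ x) n) ^ 2
        else 0) + Real.log (a i * x) * x ^ (1 / 10 : ℝ) * g n := by
    intro n hn
    obtain ⟨hn1, hny, -, hnay⟩ := hSm n hn
    have hyx : y2 ≤ x := by rw [hy2]; linarith
    have hnx : (n : ℝ) ≤ x := hny.trans hyx
    have hnax : ((a i * n + b i : ℕ) : ℝ) ≤ a i * x := hnay.trans (by gcongr)
    have hn0 : (0 : ℝ) < n := by exact_mod_cast hn1
    have hm1' : 1 ≤ a i * n + b i := by have := hc.hb i; omega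
    have hm1 : (1 : ℝ) ≤ ((a i * n + b i : ℕ) : ℝ) := by exact_mod_cast hm1'
    have hm0 : (0 : ℝ) < ((a i * n + b i : ℕ) : ℝ) := by linarith
    have hV0 : 0 ≤ ArithmeticFunction.vonMangoldt (a i * n + b i) :=
      ArithmeticFunction.vonMangoldt_nonneg
    have hw := (hFA n hn1 hnx).2 i
    have htent := tent_le (a i) (hc.ha i) x hx0 (a i * n + b i) hm1' hnay
    set T := pl (a i) (9 / 25 * x) (a i * n + b i) - 2 * pl (a i) (303 / 1000 * x) (a i * n + b i) +
      pl (a i) (10201 / 40000 * x) (a i * n + b i) with hT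
    have hleft : ArithmeticFunction.vonMangoldt (a i * n + b i) * pl (a i) (9 / 25 * x) (a i * n + b i) *
          (wI a b (Pr D x) i (yP Q k (Pr D x) (Lr ρ x)) n) ^ 2 -
        2 * (ArithmeticFunction.vonMangoldt (a i * n + b i) * pl (a i) (303 / 1000 * x) (a i * n + b i) *
          (wI a b (Pr D x) i (yP Q k (Pr D x) (Lr ρ x)) n) ^ 2) +
        ArithmeticFunction.vonMangoldt (a i * n + b i) * pl (a i) (10201 / 40000 * x) (a i * n + b i) *
          (wI a b (Pr D x) i (yP Q k (Pr D x) (Lr ρ x)) n) ^ 2 =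
        ArithmeticFunction.vonMangoldt (a i * n + b i) * T *
          (wI a b (Pr D x) i (yP Q k (Pr D x) (Lr ρ x)) n) ^ 2 := by
      rw [hT]; ring
    rw [hleft]
    have hVw : 0 ≤ ArithmeticFunction.vonMangoldt (a i * n + b i) *
        (wI a b (Pr D x) i (yP Q k (Pr D x) (Lr ρ x)) n) ^ 2 := by positivity
    by_cases hcase : ¬ (a i * n + b i).Prime ∨ ((a i * n + b i : ℕ) : ℝ) ≤ Real.exp (Real.log x / 4)
    · have h1 : 0 ≤ (if x / 4 < n ∧ (a i * n + b i).Prime then (Real.log x + C) * (189 / 1000) *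
          (wP Q a b (Pr D x) (Lr ρ x) n) ^ 2 else 0) := by
        split_ifs
        · positivity
        · exact le_rfl
      have hT1 : T ≤ Real.log (a i * x) := by
        refine htent.trans ?_
        split_ifs
        · linarith
        · exact hlax
      have h2 : ArithmeticFunction.vonMangoldt (a i * n + b i) * T *
          (wI a b (Pr D x) i (yP Q k (Pr D x) (Lr ρ x)) n) ^ 2 ≤
          Real.log (a i * x) * x ^ (1 / 10 : ℝ) * g n := by
        simp only [hg]
        rw [if_pos hcase]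
        calc ArithmeticFunction.vonMangoldt (a i * n + b i) * T *
              (wI a b (Pr D x) i (yP Q k (Pr D x) (Lr ρ x)) n) ^ 2
            = T * (ArithmeticFunction.vonMangoldt (a i * n + b i) *
              (wI a b (Pr D x) i (yP Q k (Pr D x) (Lr ρ x)) n) ^ 2) := by ring
          _ ≤ Real.log (a i * x) * (ArithmeticFunction.vonMangoldt (a i * n + b i) *
              (wI a b (Pr D x) i (yP Q k (Pr D x) (Lr ρ x)) n) ^ 2) :=
              mul_le_mul_of_nonneg_right hT1 hVw
          _ ≤ Real.log (a i * x) * (ArithmeticFunction.vonMangoldt (a i * n + b i) *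
              x ^ (1 / 10 : ℝ)) := by gcongr
          _ = _ := by ring
      linarith
    · push Not at hcase
      obtain ⟨hpr, hbig⟩ := hcase
      have hgn : g n = 0 := by
        simp only [hg]
        rw [if_neg]
        push Not
        exact ⟨hpr, hbig⟩
      rw [hgn, mul_zero, add_zero]
      have hww : wI a b (Pr D x) i (yP Q k (Pr D x) (Lr ρ x)) n = wP Q a b (Pr D x) (Lr ρ x) n := by
        apply wI_eq_wP
        intro t ht
        have h1 := (Pr_prime D x t.1 t.2).1
        have h2 := Pr_le D x t.1 t.2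
        have h3 : prP (Pr D x) t = a i * n + b i := (Nat.prime_dvd_prime_iff_eq h1 hpr).1 ht
        have h4 : ((prP (Pr D x) t : ℕ) : ℝ) = ((a i * n + b i : ℕ) : ℝ) := by rw [h3]
        have h5 : ((prP (Pr D x) t : ℕ) : ℝ) ≤ Real.exp (Real.log x / 4) := h2
        linarith
      by_cases hwin : a i * (10201 / 40000 * x) < ((a i * n + b i : ℕ) : ℝ)
      · rw [if_pos hwin] at htent
        have hn4 : x / 4 < n := by
          have h1 := hbx i
          have h2 : (b i : ℝ) ≤ a i * b i := by
            have : (0 : ℝ) ≤ b i := Nat.cast_nonneg _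
            nlinarith
          push_cast at hwin
          have h3 : (a i : ℝ) * (10201 / 40000 * x) < a i * (n + b i) := by linarith
          have h4 := lt_of_mul_lt_mul_left h3 hai0.le
          linarith
        rw [if_pos ⟨hn4, hpr⟩, hww, ArithmeticFunction.vonMangoldt_apply_prime hpr]
        have h1 : Real.log ((a i * n + b i : ℕ) : ℝ) ≤ Real.log x + C := by
          calc Real.log ((a i * n + b i : ℕ) : ℝ) ≤ Real.log (a i * x) :=
                Real.log_le_log hm0 hnax
            _ = Real.log (a i) + Real.log x := Real.log_mul hai0.ne' hx0.ne'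
            _ ≤ _ := by linarith
        have h3 : 0 ≤ Real.log ((a i * n + b i : ℕ) : ℝ) := Real.log_nonneg hm1
        calc Real.log ((a i * n + b i : ℕ) : ℝ) * T * (wP Q a b (Pr D x) (Lr ρ x) n) ^ 2
            ≤ Real.log ((a i * n + b i : ℕ) : ℝ) * (189 / 1000) *
              (wP Q a b (Pr D x) (Lr ρ x) n) ^ 2 := by gcongr
          _ ≤ _ := by gcongr
      · rw [if_neg hwin] at htent
        have h1 : 0 ≤ (if x / 4 < n ∧ (a i * n + b i).Prime then (Real.log x + C) * (189 / 1000) *
            (wP Q a b (Pr D x) (Lr ρ x) n) ^ 2 else 0) := by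
          split_ifs
          · positivity
          · exact le_rfl
        refine le_trans ?_ h1
        calc ArithmeticFunction.vonMangoldt (a i * n + b i) * T *
              (wI a b (Pr D x) i (yP Q k (Pr D x) (Lr ρ x)) n) ^ 2
            = T * (ArithmeticFunction.vonMangoldt (a i * n + b i) *
              (wI a b (Pr D x) i (yP Q k (Pr D x) (Lr ρ x)) n) ^ 2) := by ring
          _ ≤ 0 := mul_nonpos_of_nonpos_of_nonneg htent hVw
  refine (Finset.sum_le_sum key).trans ?_
  rw [Finset.sum_add_distrib, ← Finset.mul_sum]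
  apply add_le_add
  · rw [← Finset.sum_filter, ← Finset.mul_sum]
    apply mul_le_mul_of_nonneg_left _ (by positivity)
    apply Finset.sum_le_sum_of_subset_of_nonneg
    · intro n hn
      rw [Finset.mem_filter, hS, Finset.mem_filter, Finset.mem_Icc] at hn
      rw [Finset.mem_filter, Finset.mem_Icc]
      obtain ⟨⟨⟨h1, h2⟩, h3, h4⟩, h5, h6⟩ := hn
      have h7 : (n : ℝ) ≤ y2 := (Nat.cast_le.2 h2).trans (Nat.floor_le (by positivity))
      refine ⟨⟨h1, Nat.le_floor (h7.trans (by rw [hy2]; linarith))⟩, h3, h5, h7, h6⟩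
    · intro n _ _
      positivity
  · refine le_trans ?_ (herr i)
    apply mul_le_mul_of_nonneg_left _ (by positivity)
    exact bad_lambda (a i) (b i) (hc.ha i) (hc.hb i) S x (Real.exp (Real.log x / 4)) hx.le
      (Real.exp_pos _).le (fun n hn => by
        refine (hSm n hn).2.2.2.trans ?_
        rw [hy2]
        nlinarith)

end Pool.Agent.H47R4
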