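import Mathlib
import Pool.Agent.H47R4.Tent

/-! Localised coloured Maynard-Tao: single forms. -/

namespace Pool.Agent.H47R4

open Finset Filter Topology
open Pool.Agent.H410R2 hiding GP GP_prof GP_cut_some GP_cut_none GP_lip gg_pos gg_le_one gg_anti ee_bound ee_nonneg gg_lip LB_gg LB_ee Sums exists_sums yx wx wxi Br sum_GP_none sum_GP_some sum_GP_some_ee sum_GP_some_one sum_GPr_none sum_GPr_some S1_final QI_final S2_final w_abs_le wmax gg ee I1 I2 IE
open Pool.Agent.H361R2.GM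
open Pool.Agent.H362R2.CM

variable {k : ℕ}

/-- two-sided asymptotics of the prime sum at length `c x` -/
theorem FF_approx (Q : SPar) (hT2 : S2Approx) (hBV : BVAP)
    (hPB : ProdBound) (hOB : OmegaBound) {a b : Fin k → ℕ} {D v : ℕ} (hc : Ctx a b D v) (ρ : ℝ)
    (hρ : 0 < ρ) (hρ1 : ρ ≤ 1 / 16) (c : ℝ) (hc0 : 0 < c) (hc1 : c ≤ 1) :
    ∀ᶠ x : ℝ in atTop, ∀ i : Fin k,
      |FF Q a b D v ρ x i (c * x) - psiLog1 (a i * (c * x)) / (a i * Nat.totient (WW D)) *
        QI (some i) (prP (Pr D x)) (cw (prP (Pr D x)) (yP Q k (Pr D x) (Lr ρ x)))| ≤ x := by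
  have hErr : ∀ᶠ x : ℝ in atTop, ∀ i : Fin k, ∀ r : ℕ → ℕ,
      ((∏ t : IP (Pr D x), (1 + ((k + 1 : ℕ) : ℝ) / ((prP (Pr D x) t : ℝ) - 1)) *
        ((prP (Pr D x) t : ℝ) / ((prP (Pr D x) t : ℝ) - 1))) ^ 2 *
      ∑ q ∈ (Icc 1 ⌊(Real.exp ((1 / 4 - ρ / 2) * Real.log x)) ^ 2⌋₊).filter
        (fun q => Squarefree q ∧ (r q).Coprime (a i * WW D * q)),
        (3 * ((k + 1 : ℕ) : ℝ)) ^ q.primeFactors.card *
          (|psiLogAP (a i * (c * x)) (a i * WW D * q) (r q) -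
            psiLog1 (a i * (c * x)) / (Nat.totient (a i * WW D * q) : ℝ)| +
            ((a i : ℝ) + b i) ^ 2 * (Real.log (a i * (c * x)) + 1))) ≤ x := by
    rw [Filter.eventually_all]
    intro i
    exact errC_le hBV hPB hOB ρ hρ hρ1 _ (by push_cast; linarith [(Nat.cast_nonneg k : (0 : ℝ) ≤ k)])
      D (a i) (b i) (WW D) (hc.ha i) hc.hW c hc0 hc1
  filter_upwards [hErr, eventually_gt_atTop (1 : ℝ),
    (tendsto_id.const_mul_atTop hc0).eventually_ge_atTop (1 : ℝ)] with x hErr hx hcx i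
  have hx0 : 0 < x := by linarith
  have hlx : 0 < Real.log x := Real.log_pos hx
  have hL : 0 < Lr ρ x := by unfold Lr; positivity
  set P := Pr D x with hPd
  have hP : ∀ p ∈ P, p.Prime ∧ D < p := Pr_prime D x
  set L := Lr ρ x with hLd
  have hprof := GP_prof Q k L (L / 48) hL (by positivity)
  obtain ⟨r, hr⟩ := S2_use hT2 hc i P hP (yP Q k P L) 1 one_pos (fun σ => by
      unfold yP
      rw [abs_of_nonneg (yw_nonneg _ _ _ hprof _ _)]
      exact yw_le_one _ _ _ hprof _ _)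
    ((1 / 4 - ρ / 2) * Real.log x) (mul_nonneg (by linarith) hlx.le) (fun σ hσ => by
      refine (yw_supp (prP P) none (GP Q k L (L / 48)) L (L / 48)
        (fun s hs hs' => GP_cut_none Q k _ _ s hs hs') σ hσ).trans ?_
      rw [hLd]
      unfold Lr
      nlinarith) (c * x) hcx
  have hE := hErr i r
  rw [one_pow, one_mul] at hr
  exact hr.trans hE

theorem single_tent (Q : SPar) (hT2 : S2Approx) (hT3 : S2Model) (hBV : BVAP) (hPNT : PNTLog)
    (hPB : ProdBound) (hOB : OmegaBound) {a b : Fin k → ℕ} {D v : ℕ} (hc : Ctx a b D v) (ρ : ℝ)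
    (hρ : 0 < ρ) (hρ1 : ρ ≤ 1 / 16) (ε : ℝ) (hε : 0 < ε) (hε1 : ε < 1 / 3) (hI1 : ε < Q.I1)
    (hI2 : ε < Q.I2) (hBr : 0 < Br Q k ε)
    (hκ : ∀ x, ∏ t : IP (Pr D x), (1 + ((k + 1 : ℕ) : ℝ) / ((prP (Pr D x) t : ℝ) - 1) ^ 2) ≤ 1 + ε)
    (hovl : ∀ x, ((k + 1 : ℕ) : ℝ) ^ 2 * ∑ t : IP (Pr D x), (hb (k + 1) (prP (Pr D x) t)) ^ 2 ≤ ε)
    (hS : ∀ᶠ x : ℝ in atTop, Sums Q D ε (k + 1) (Lr ρ x) (Lr ρ x / 48) (Pr D x)) :
    ∀ᶠ x : ℝ in atTop, ∀ i : Fin k, Q1 k D x (Lr ρ x) * (1 / 25 * (ρ * βc Q k ε)) ≤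
      ∑ n ∈ (Icc 1 ⌊x⌋₊).filter
        (fun n => n ≡ v [MOD (WW D)] ∧ x / 4 < n ∧ (n : ℝ) ≤ 9 / 25 * x ∧
            (a i * n + b i).Prime),
          (wP Q a b (Pr D x) (Lr ρ x) n) ^ 2 := by
  have h1ε : 0 < 1 - ε := by linarith
  have hI1ε : 0 < Q.I1 - ε := by linarith
  have hp2 := psiC_both hPNT a hc.ha (1 / 1000) (by norm_num) (9 / 25) (by norm_num)
  have hp1 := psiC_both hPNT a hc.ha (1 / 1000) (by norm_num) (303 / 1000) (by norm_num)
  have hp0 := psiC_both hPNT a hc.ha (1 / 1000) (by norm_num) (10201 / 40000) (by norm_num)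
  have hF2 := FF_approx Q hT2 hBV hPB hOB hc ρ hρ hρ1 (9 / 25) (by norm_num) (by norm_num)
  have hF1 := FF_approx Q hT2 hBV hPB hOB hc ρ hρ hρ1 (303 / 1000) (by norm_num) (by norm_num)
  have hF0 := FF_approx Q hT2 hBV hPB hOB hc ρ hρ hρ1 (10201 / 40000) (by norm_num) (by norm_num)
  obtain ⟨C, hC0, htp⟩ := tent_toPrimes Q hPB hOB hc ρ hρ hρ1
  set β0 : ℝ := (1 - ε) ^ 2 * (Q.I1 - ε) ^ 2 * Br Q k ε with hβ0
  have hβ0p : 0 < β0 := by positivity
  filter_upwards [hp2, hp1, hp0, hF2, hF1, hF0, hS, htp,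
    Q1_large ρ hρ k D hc.hW hc.BDpos (100000 / (ρ * β0)),
    Real.tendsto_log_atTop.eventually_ge_atTop (100 * C + 1), eventually_gt_atTop (1 : ℝ)]
    with x hp2 hp1 hp0 hF2 hF1 hF0 hS htp hQ1 hlC hx i
  have hx0 : 0 < x := by linarith
  have hlx : 0 < Real.log x := Real.log_pos hx
  have hL : 0 < Lr ρ x := by unfold Lr; positivity
  set P := Pr D x with hPd
  have hP : ∀ p ∈ P, p.Prime ∧ D < p := Pr_prime D x
  have hWpos : (0 : ℝ) < WW D := by exact_mod_cast hc.hW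
  have hB := hc.BDpos
  have hai : (0 : ℝ) < a i := by exact_mod_cast hc.ha i
  set L := Lr ρ x with hLd
  have hQI := QI_P_lower Q hT3 hc ε hε hε1 hI1 hI2 hBr L hL P hP (hκ x) (hovl x) hS i
  have hQIn : 0 ≤ (1 - ε) ^ 2 * (BD D * L * (Q.I1 - ε)) ^ 2 *
      (BD D * (L / 48) * (BD D * L) ^ (k - 1) * Br Q k ε) := by positivity
  have hk : (BD D * L) ^ k = (BD D * L) ^ (k - 1) * (BD D * L) := by
    rw [← pow_succ]
    congr 1
    have := i.2
    omega
  set qI := QI (some i) (prP P) (cw (prP P) (yP Q k P L)) with hqI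
  have hqI0 : 0 ≤ qI := hQIn.trans hQI
  have hF2 := (abs_le.1 (hF2 i)).1
  have hF1 := (abs_le.1 (hF1 i)).2
  have hF0 := (abs_le.1 (hF0 i)).1
  have hp2 := (hp2 i).1
  have hp1 := (hp1 i).2
  have hp0 := (hp0 i).1
  set V : ℝ := x / (WW D * BD D) * qI with hV
  have hVlow : L * Q1 k D x L * β0 ≤ V := by
    calc L * Q1 k D x L * β0
        = (x / (WW D * BD D)) * ((1 - ε) ^ 2 * (BD D * L * (Q.I1 - ε)) ^ 2 *
          (BD D * (L / 48) * (BD D * L) ^ (k - 1) * Br Q k ε)) := by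
          unfold Q1
          rw [hk, hβ0]
          field_simp
      _ ≤ _ := by
          rw [hV]
          gcongr
  have hφ : (Nat.totient (WW D) : ℝ) = WW D * BD D := hc.tot
  have hgen : ∀ c s : ℝ, psiLog1 (a i * (c * x)) = s * (a i * (c * x)) →
      psiLog1 (a i * (c * x)) / (a i * Nat.totient (WW D)) * qI = s * c * V := by
    intro c s hs
    rw [hs, hφ, hV]
    field_simp
  have hpos : 0 < (WW D : ℝ) * BD D := by positivity
  have d2 : (1 - 1 / 1000) * (9 / 25) * V ≤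
      psiLog1 (a i * (9 / 25 * x)) / (a i * Nat.totient (WW D)) * qI := by
    have h1 : (1 - 1 / 1000) * (9 / 25) * V =
        ((1 - 1 / 1000) * (a i * (9 / 25 * x))) / (a i * Nat.totient (WW D)) * qI := by
      rw [hφ, hV]
      field_simp
    rw [h1, hφ]
    gcongr
  have d1 : psiLog1 (a i * (303 / 1000 * x)) / (a i * Nat.totient (WW D)) * qI ≤
      (1 + 1 / 1000) * (303 / 1000) * V := by
    have h1 : (1 + 1 / 1000) * (303 / 1000) * V =
        ((1 + 1 / 1000) * (a i * (303 / 1000 * x))) / (a i * Nat.totient (WW D)) * qI := by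
      rw [hφ, hV]
      field_simp
    rw [h1, hφ]
    gcongr
  have d0 : (1 - 1 / 1000) * (10201 / 40000) * V ≤
      psiLog1 (a i * (10201 / 40000 * x)) / (a i * Nat.totient (WW D)) * qI := by
    have h1 : (1 - 1 / 1000) * (10201 / 40000) * V =
        ((1 - 1 / 1000) * (a i * (10201 / 40000 * x))) / (a i * Nat.totient (WW D)) * qI := by
      rw [hφ, hV]
      field_simp
    rw [h1, hφ]
    gcongr
  have hV0 : 0 ≤ V := by rw [hV]; positivity
  have htp' := htp i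
  set S := ∑ n ∈ (Icc 1 ⌊x⌋₊).filter
        (fun n => n ≡ v [MOD (WW D)] ∧ x / 4 < n ∧ (n : ℝ) ≤ 9 / 25 * x ∧
            (a i * n + b i).Prime),
          (wP Q a b P L n) ^ 2 with hSd
  have hy : x ^ (3 / 4 : ℝ) ≤ x := by
    calc x ^ (3 / 4 : ℝ) ≤ x ^ (1 : ℝ) := Real.rpow_le_rpow_of_exponent_le hx.le (by norm_num)
      _ = x := Real.rpow_one x
  have hkey : 78 / 10000 * V - 5 * x ≤ (Real.log x + C) * (189 / 1000) * S := by
    have h1 : (1 - 1 / 1000) * (9 / 25) * V - 2 * ((1 + 1 / 1000) * (303 / 1000) * V) +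
      (1 - 1 / 1000) * (10201 / 40000) * V - 4 * x ≤
      FF Q a b D v ρ x i (9 / 25 * x) - 2 * FF Q a b D v ρ x i (303 / 1000 * x) +
        FF Q a b D v ρ x i (10201 / 40000 * x) := by linarith
    have h2 : (78 / 10000 : ℝ) * V ≤ (1 - 1 / 1000) * (9 / 25) * V -
      2 * ((1 + 1 / 1000) * (303 / 1000) * V) + (1 - 1 / 1000) * (10201 / 40000) * V := by
      have h3 : (1 - 1 / 1000) * (9 / 25) * V -
        2 * ((1 + 1 / 1000) * (303 / 1000) * V) + (1 - 1 / 1000) * (10201 / 40000) * V =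
        ((1 - 1 / 1000) * (9 / 25) - 2 * ((1 + 1 / 1000) * (303 / 1000)) +
          (1 - 1 / 1000) * (10201 / 40000)) * V := by ring
      rw [h3]
      apply mul_le_mul_of_nonneg_right _ hV0
      norm_num
    linarith
  have hQ1' : 100000 * x ≤ Q1 k D x L * (ρ * β0) := by
    have h4 : 0 < ρ * β0 := by positivity
    have := mul_le_mul_of_nonneg_right hQ1 h4.le
    calc 100000 * x = 100000 / (ρ * β0) * x * (ρ * β0) := by field_simp
      _ ≤ _ := this
  set W := Q1 k D x L * (ρ * β0) with hWd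
  have hW0 : 0 ≤ W := by
    have : 0 ≤ 100000 * x := by positivity
    linarith
  have e3 : L * Q1 k D x L * β0 = Real.log x * W := by
    rw [hWd, hLd]
    unfold Lr
    ring
  have hβle : Q1 k D x L * (1 / 25 * (ρ * βc Q k ε)) ≤ 1 / 25 * W := by
    have e2 : Q1 k D x L * (1 / 25 * (ρ * βc Q k ε)) = (1 - ε) ^ 2 * (1 / 25 * W) := by
      rw [hWd]
      unfold βc
      rw [hβ0]
      ring
    rw [e2]
    apply mul_le_of_le_one_left (by positivity)
    have : 1 - ε ≤ 1 := by linarith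
    nlinarith
  have hfin : (Real.log x + C) * (189 / 1000) * (1 / 25 * W) ≤
      (Real.log x + C) * (189 / 1000) * S := by
    refine le_trans ?_ hkey
    rw [e3] at hVlow
    have h5 : 5 * x ≤ 5 / 100000 * W := by linarith
    have h6 : W ≤ Real.log x * W := by
      have : 1 ≤ Real.log x := by linarith
      nlinarith
    have h7 : 100 * (C * W) ≤ Real.log x * W := by
      have : 100 * C ≤ Real.log x := by linarith
      nlinarith
    nlinarith
  have hfin2 : 1 / 25 * W ≤ S := le_of_mul_le_mul_left hfin (by positivity)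
  linarith

end Pool.Agent.H47R4
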