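import Mathlib
import Pool.Agent.H47R4.Single
import Pool.Agent.H362R2.CM.Main

/-! Localised coloured Maynard-Tao: the core theorem. -/

namespace Pool.Agent.H47R4

open Finset Filter Topology
open Pool.Agent.H410R2 hiding GP GP_prof GP_cut_some GP_cut_none GP_lip gg_pos gg_le_one gg_anti ee_bound ee_nonneg gg_lip LB_gg LB_ee Sums exists_sums yx wx wxi Br sum_GP_none sum_GP_some sum_GP_some_ee sum_GP_some_one sum_GPr_none sum_GPr_some S1_final QI_final S2_final w_abs_le wmax gg ee I1 I2 IE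
open Pool.Agent.H361R2.GM
open Pool.Agent.H362R2.CM

theorem local_core_of (hT1 : S1Upper) (hT2 : S2Approx) (hT3 : S2Model) (hBV : BVAP)
    (hPNT : PNTLog)
    (hPB : ProdBound) (hOB : OmegaBound) (hOD : OneDim) (hTail : TailBound) (hAri : AriSetup)
    (T M : ℕ) (hTM : 2500 * M < T) :
    ∃ K : ℕ, 2 ≤ K ∧ ∀ (a b : Fin (T * K) → ℕ) (cl : Fin (T * K) → Fin T),
      (∀ g, (univ.filter (fun i => cl i = g)).card = K) → (∀ i, 1 ≤ a i) → (∀ i, 1 ≤ b i) →
      (∀ i j, i ≠ j → a i * b j ≠ a j * b i) →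
      (∀ p : ℕ, p.Prime → ∃ n : ℕ, ¬ p ∣ n ∧ ∀ i, ¬ p ∣ a i * n + b i) →
      ∀ᶠ x : ℝ in atTop, ∃ n : ℕ, x / 4 < n ∧ (n : ℝ) ≤ 9 / 25 * x ∧
        M + 1 ≤ (univ.filter (fun g : Fin T => ∃ i, cl i = g ∧ (a i * n + b i).Prime)).card := by
  classical
  obtain ⟨K, Q, ρ, ε, hK, hρ, hρ1, hε, hε1, hI1, hI2, hBr, hnum⟩ := num_all T (625 * M) (by omega)
  refine ⟨K, hK, ?_⟩
  set k := T * K with hk
  intro a b cl hcl ha hb hnp hadm
  have hT0 : 0 < T := by omega
  have hI2p : 0 < Q.I2 := hε.trans hI2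
  have hI1p : 0 < Q.I1 := hε.trans hI1
  have h1ε : 0 < 1 - ε := by linarith
  have hI1ε : 0 < Q.I1 - ε := by linarith
  have h14 : 0 < 1 / 4 - 2 * ρ := by linarith
  have hKp : (0 : ℝ) < K := by exact_mod_cast (by omega : 0 < K)
  have hAc : 0 < Ac Q k ε := by unfold Ac; positivity
  have hβc : 0 < βc Q k ε := by unfold βc; positivity
  have hγc : 0 < γc Q k ρ ε := by unfold γc; positivity
  -- choice of `D`
  obtain ⟨D2, hctx⟩ := exists_ctx hAri a b ha hb hnp hadm
  obtain ⟨D3, hκ⟩ := κ1_of hTail k ε hε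
  obtain ⟨D4, hov⟩ := ovl_of hTail k ε hε
  obtain ⟨D5, hκ3⟩ := κ3_of hTail k ε hε
  obtain ⟨D6, hsum⟩ := sums_all Q hOD (k + 1) ε hε ρ hρ hρ1
  set D := D2 + D3 + D4 + D5 + D6 with hD
  obtain ⟨v, hc⟩ := hctx D (by omega)
  have hκ := hκ D (by omega)
  have hov := hov D (by omega)
  have hκ3 := hκ3 D (by omega)
  have hsum := hsum D (by omega)
  have hsingle := single_tent Q hT2 hT3 hBV hPNT hPB hOB hc ρ hρ hρ1 ε hε hε1 hI1 hI2 hBr hκ hov
    (hsum.mono fun x hx => hx.1)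
  have hpair := pair_bound Q hT2 hBV hPNT hPB hOB hc ρ hρ hρ1 ε hε hε1 hI1p hI2p hκ3
    (hsum.mono fun x hx => hx.2)
  set A0 : ℝ := (1 / 3 + ε) * (Q.I2 + ε) ^ k with hA0
  have hA0p : 0 < A0 := by positivity
  filter_upwards [hsingle, hpair, hsum, E1_le hPB ρ hρ hρ1 k D,
    Q1_large ρ hρ k D hc.hW hc.BDpos (1 / (ε * A0)), eventually_gt_atTop (1 : ℝ)]
    with x hsingle hpair hsum hE1 hQa hx
  by_contra hcon
  push Not at hcon
  have hx0 : 0 < x := by linarith
  have hlx : 0 < Real.log x := Real.log_pos hx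
  have hL : 0 < Lr ρ x := by unfold Lr; positivity
  set L := Lr ρ x with hLd
  set P := Pr D x with hPd
  have hP : ∀ p ∈ P, p.Prime ∧ D < p := Pr_prime D x
  set Z := Q1 k D x L with hZ
  have hZA0 : x ≤ Z * (ε * A0) := by
    have h4 : 0 < ε * A0 := by positivity
    have := mul_le_mul_of_nonneg_right hQa h4.le
    calc x = 1 / (ε * A0) * x * (ε * A0) := by field_simp
      _ ≤ _ := this
  have hZ0 : 0 < Z := by
    have h4 : 0 < ε * A0 := by positivity
    by_contra h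
    have h5 : Z * (ε * A0) ≤ 0 := mul_nonpos_of_nonpos_of_nonneg (not_lt.1 h) h4.le
    linarith
  set N := (Icc 1 ⌊x⌋₊).filter (fun n => n ≡ v [MOD (WW D)]) with hN
  set N' := N.filter (fun n : ℕ => x / 4 < (n : ℝ) ∧ (n : ℝ) ≤ 9 / 25 * x) with hN'
  set w : ℕ → ℝ := fun n => (wP Q a b P L n) ^ 2 with hw
  set u : ℕ → ℝ := fun n => Real.log (x / n) * (wP Q a b P L n) ^ 2 with hu
  have hNm : ∀ n ∈ Icc 1 ⌊x⌋₊, 1 ≤ n ∧ (n : ℝ) ≤ x := by
    intro n hn
    rw [Finset.mem_Icc] at hn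
    exact ⟨hn.1, (Nat.cast_le.2 hn.2).trans (Nat.floor_le hx0.le)⟩
  have hu0 : ∀ n ∈ N, 0 ≤ u n := by
    intro n hn
    obtain ⟨h1, h2⟩ := hNm n (Finset.mem_filter.1 hn).1
    have hn0 : (0 : ℝ) < n := by exact_mod_cast h1
    apply mul_nonneg _ (sq_nonneg _)
    apply Real.log_nonneg
    rw [le_div_iff₀ hn0]
    linarith
  have hw0 : ∀ n, 0 ≤ w n := fun n => sq_nonneg _
  have hwu : ∀ n ∈ N', w n ≤ u n := by
    intro n hn
    rw [hN', Finset.mem_filter] at hn
    obtain ⟨h1, h2⟩ := hNm n (Finset.mem_filter.1 hn.1).1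
    have hn0 : (0 : ℝ) < n := by exact_mod_cast h1
    have h3 : 1 ≤ Real.log (x / n) := by
      rw [Real.le_log_iff_exp_le (by positivity), le_div_iff₀ hn0]
      have h4 : Real.exp 1 ≤ 25 / 9 := by
        have := Real.exp_one_lt_d9
        linarith
      calc Real.exp 1 * n ≤ 25 / 9 * n := by gcongr
        _ ≤ 25 / 9 * (9 / 25 * x) := by gcongr; exact hn.2.2
        _ = x := by ring
    simp only [hw, hu]
    exact le_mul_of_one_le_left (sq_nonneg _) h3
  have hsubN : N' ⊆ N := Finset.filter_subset _ _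
  -- total mass
  have hS1 : ∑ n ∈ N', w n ≤ Z * Ac Q k ε := by
    have h1 := S1_P Q hT1 hc ε hε hI2p x hx L hL P hP hsum.1
    have h2 : x ^ (1 / 2 : ℝ) ≤ x := by
      calc x ^ (1 / 2 : ℝ) ≤ x ^ (1 : ℝ) := Real.rpow_le_rpow_of_exponent_le hx.le (by norm_num)
        _ = x := Real.rpow_one x
    calc ∑ n ∈ N', w n ≤ ∑ n ∈ N', u n := Finset.sum_le_sum hwu
      _ ≤ ∑ n ∈ N, u n := Finset.sum_le_sum_of_subset_of_nonneg hsubN fun n hn _ => hu0 n hn
      _ ≤ Z * A0 + (Real.log x + 1) * (Real.exp (L / 48 + L) *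
          ∏ t : IP P, (1 + 3 * ((k + 1 : ℕ) : ℝ) / (prP P t : ℝ))) ^ 2 := h1
      _ ≤ Z * A0 + Z * (ε * A0) := by linarith
      _ = Z * Ac Q k ε := by unfold Ac; rw [hA0]; ring
  -- classes
  have hclass : ∀ g : Fin T, (K * (Z * (1 / 25 * (ρ * βc Q k ε)))) ^ 2 ≤
      (∑ n ∈ N', if ∃ i ∈ univ.filter (fun i => cl i = g), (a i * n + b i).Prime then w n else 0) *
      (K * (Z * (1 / 25 * (ρ * βc Q k ε))) + (K : ℝ) ^ 2 * (Z * γc Q k ρ ε)) := by
    intro g
    have h1 := cs_class N' w (fun n _ => hw0 n) (univ.filter (fun i => cl i = g))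
      (fun i n => (a i * n + b i).Prime) (Z * (1 / 25 * (ρ * βc Q k ε))) (Z * γc Q k ρ ε)
      (by positivity)
      (by positivity) (by
        intro i _
        refine (hsingle i).trans (le_of_eq ?_)
        rw [hN', hN, ← Finset.sum_filter, Finset.filter_filter, Finset.filter_filter]
        apply Finset.sum_congr _ fun _ _ => rfl
        apply Finset.filter_congr
        intro n _
        tauto) (by
        intro i _ j _ hij
        refine le_trans ?_ (hpair i j hij)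
        rw [← Finset.sum_filter]
        calc ∑ n ∈ N'.filter (fun n => (a i * n + b i).Prime ∧ (a j * n + b j).Prime), w n
            ≤ ∑ n ∈ N'.filter (fun n => (a i * n + b i).Prime ∧ (a j * n + b j).Prime), u n :=
              Finset.sum_le_sum fun n hn => hwu n (Finset.mem_filter.1 hn).1
          _ ≤ ∑ n ∈ N.filter (fun n => (a i * n + b i).Prime ∧ (a j * n + b j).Prime), u n := by
              apply Finset.sum_le_sum_of_subset_of_nonneg
              · exact Finset.filter_subset_filter _ hsubN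
              · intro n hn _
                exact hu0 n (Finset.mem_filter.1 hn).1
          _ = _ := by rw [hN, Finset.filter_filter]) (by rw [hcl g]; omega)
    rw [hcl g] at h1
    exact h1
  have hcount : ∑ g : Fin T, (∑ n ∈ N', if ∃ i ∈ univ.filter (fun i => cl i = g),
      (a i * n + b i).Prime then w n else 0) ≤ M * ∑ n ∈ N', w n := by
    rw [Finset.sum_comm, Finset.mul_sum]
    apply Finset.sum_le_sum
    intro n hn
    have e1 : (∑ g : Fin T, if ∃ i ∈ univ.filter (fun i => cl i = g), (a i * n + b i).Prime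
        then w n else 0) =
        ((univ.filter (fun g : Fin T => ∃ i, cl i = g ∧ (a i * n + b i).Prime)).card : ℝ) * w n := by
      rw [← Finset.sum_filter, Finset.sum_const, nsmul_eq_mul]
      congr 3
      ext g
      simp
    rw [e1]
    apply mul_le_mul_of_nonneg_right _ (hw0 n)
    rw [hN', Finset.mem_filter] at hn
    have := hcon n hn.2.1 hn.2.2
    exact_mod_cast (by omega : (univ.filter (fun g : Fin T => ∃ i, cl i = g ∧
      (a i * n + b i).Prime)).card ≤ M)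
  -- combine
  set q : Fin T → ℝ := fun g =>
    ∑ n ∈ N', if ∃ i ∈ univ.filter (fun i => cl i = g), (a i * n + b i).Prime then w n else 0 with hq
  set α : ℝ := K * (ρ * βc Q k ε) with hα
  set G : ℝ := (K : ℝ) ^ 2 * γc Q k ρ ε with hG
  have hαp : 0 < α := by positivity
  have hGp : 0 < G := by positivity
  have hclass' : ∀ g : Fin T, Z * (1 / 625 * α ^ 2) ≤ q g * (α + G) := by
    intro g
    have h1 := hclass g
    have e1 : (K * (Z * (1 / 25 * (ρ * βc Q k ε)))) ^ 2 = Z * (Z * (1 / 625 * α ^ 2)) := by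
      rw [hα]; ring
    have e2 : (K * (Z * (1 / 25 * (ρ * βc Q k ε))) + (K : ℝ) ^ 2 * (Z * γc Q k ρ ε)) =
        Z * (1 / 25 * α + G) := by
      rw [hα, hG]; ring
    rw [e1, e2] at h1
    have hq0 : 0 ≤ q g := by
      simp only [hq]
      apply Finset.sum_nonneg
      intro n _
      split_ifs
      · exact hw0 n
      · exact le_rfl
    have h2 : Z * (Z * (1 / 625 * α ^ 2)) ≤ Z * (q g * (1 / 25 * α + G)) := by
      refine h1.trans (le_of_eq ?_)
      simp only [hq]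
      ring
    refine (le_of_mul_le_mul_left h2 hZ0).trans ?_
    apply mul_le_mul_of_nonneg_left _ hq0
    linarith
  have hsumq : T * (Z * (1 / 625 * α ^ 2)) ≤ (∑ g, q g) * (α + G) := by
    rw [Finset.sum_mul]
    have h1 := Finset.card_nsmul_le_sum (univ : Finset (Fin T)) (fun g => q g * (α + G))
      (Z * (1 / 625 * α ^ 2)) (fun g _ => hclass' g)
    rw [Finset.card_univ, Fintype.card_fin, nsmul_eq_mul] at h1
    exact h1
  have hq2 : ∑ g, q g ≤ M * (Z * Ac Q k ε) :=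
    hcount.trans (mul_le_mul_of_nonneg_left hS1 (Nat.cast_nonneg _))
  have hfin : T * (Z * (1 / 625 * α ^ 2)) ≤ M * (Z * Ac Q k ε) * (α + G) :=
    hsumq.trans (mul_le_mul_of_nonneg_right hq2 (by positivity))
  have hfin2 : Z * (T * α ^ 2) ≤ Z * (625 * M * Ac Q k ε * (α + G)) := by
    calc Z * (T * α ^ 2) = 625 * (T * (Z * (1 / 625 * α ^ 2))) := by ring
      _ ≤ 625 * (M * (Z * Ac Q k ε) * (α + G)) := by linarith
      _ = _ := by ring
  have hfin3 := le_of_mul_le_mul_left hfin2 hZ0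
  have h5 : 0 ≤ (625 * M * ε + ε) * (Ac Q k ε * (α + G)) := by positivity
  push_cast at hnum
  have h6 : (625 * (M : ℝ) * (1 + ε) + ε) * Ac Q k ε * (α + G) =
      625 * M * Ac Q k ε * (α + G) + (625 * M * ε + ε) * (Ac Q k ε * (α + G)) := by ring
  rw [h6] at hnum
  linarith

theorem local_core (T M : ℕ) (hTM : 2500 * M < T) :
    ∃ K : ℕ, 2 ≤ K ∧ ∀ (a b : Fin (T * K) → ℕ) (cl : Fin (T * K) → Fin T),
      (∀ g, (univ.filter (fun i => cl i = g)).card = K) → (∀ i, 1 ≤ a i) → (∀ i, 1 ≤ b i) →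
      (∀ i j, i ≠ j → a i * b j ≠ a j * b i) →
      (∀ p : ℕ, p.Prime → ∃ n : ℕ, ¬ p ∣ n ∧ ∀ i, ¬ p ∣ a i * n + b i) →
      ∀ᶠ x : ℝ in atTop, ∃ n : ℕ, x / 4 < n ∧ (n : ℝ) ≤ 9 / 25 * x ∧
        M + 1 ≤ (univ.filter (fun g : Fin T => ∃ i, cl i = g ∧ (a i * n + b i).Prime)).card :=
  local_core_of Pool.Agent.H361R2.s1Upper Pool.Agent.H732R2.s2Approx Pool.Agent.H361R2.s2Model bvap
    Pool.Agent.H732R2.pntLog Pool.Agent.H361R2.prodBound Pool.Agent.H361R2.omegaBound
    Pool.Agent.H399R2.oneDim Pool.Agent.H361R2.tailBound Pool.Agent.H398R2.ariSetup T M hTM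

end Pool.Agent.H47R4
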