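import Mathlib

/-! Sets of integers `B` with `(B i - B j) ∣ B i` and prescribed approximate shape. -/

namespace Pool.Agent.H47R4

open Finset

theorem shape (E : ℤ) (hE : 2 ≤ E) (s : Finset ℕ) : ∃ (C M : ℤ) (δ : ℕ → ℤ), 1 ≤ C ∧ 1 ≤ M ∧
    (∀ r ∈ s, 0 ≤ δ r ∧ E * δ r ≤ C) ∧
    ∀ r ∈ s, ∀ r' ∈ s, r ≠ r' →
      ((C * r + M + δ r) - (C * r' + M + δ r')) ∣ (C * r + M + δ r) := by
  classical
  induction s using Finset.induction_on with
  | empty => exact ⟨1, 1, fun _ => 0, le_rfl, le_rfl, by simp, by simp⟩
  | insert r₀ s hr₀ ih =>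
    obtain ⟨C, M, δ, hC, hM, hδ, hdiv⟩ := ih
    set a : ℕ → ℤ := fun r => C * r + M + δ r with ha
    have hdist : ∀ r ∈ s, ∀ r' ∈ s, r ≠ r' → a r - a r' ≠ 0 := by
      intro r hr r' hr' hne h0
      obtain ⟨h1, h2⟩ := hδ r hr
      obtain ⟨h3, h4⟩ := hδ r' hr'
      have h5 : C * ((r : ℤ) - r') = δ r' - δ r := by
        simp only [ha] at h0
        linarith
      rcases lt_or_gt_of_ne (show (r : ℤ) ≠ r' by exact_mod_cast hne) with h | h
      · have : (r : ℤ) - r' ≤ -1 := by omega
        nlinarith
      · have : 1 ≤ (r : ℤ) - r' := by omega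
        nlinarith
    set L : ℤ := ∏ x ∈ s.offDiag, (a x.1 - a x.2) with hL
    have hL0 : L ≠ 0 := by
      rw [hL, Finset.prod_ne_zero_iff]
      intro x hx
      rw [Finset.mem_offDiag] at hx
      exact hdist x.1 hx.1 x.2 hx.2.1 hx.2.2
    have hLd : ∀ r ∈ s, ∀ r' ∈ s, r ≠ r' → (a r - a r') ∣ L := by
      intro r hr r' hr' hne
      exact Finset.dvd_prod_of_mem (fun x : ℕ × ℕ => a x.1 - a x.2)
        (Finset.mem_offDiag.2 ⟨hr, hr', hne⟩ : (r, r') ∈ s.offDiag)
    set P : ℤ := L ^ 2 with hP
    have hP1 : 1 ≤ P := by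
      have : 0 < L ^ 2 := by positivity
      omega
    have hPd : ∀ r ∈ s, ∀ r' ∈ s, r ≠ r' → (a r - a r') ∣ P := by
      intro r hr r' hr' hne
      rw [hP, sq]
      exact dvd_mul_of_dvd_left (hLd r hr r' hr' hne) L
    set c : ℤ := P * E with hc
    have hc2 : 2 ≤ c := by nlinarith
    have hcE : E ≤ c := by nlinarith
    set w : ℤ := C * r₀ + M with hw
    set D : ℤ := ∏ r ∈ s, (c * (w - a r) + 1) with hD
    have hcop1 : ∀ r ∈ s, IsCoprime (c * P) (c * (w - a r) + 1) := by
      intro r _
      have h1 : IsCoprime c (c * (w - a r) + 1) := ⟨-(w - a r), 1, by ring⟩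
      have h2 : IsCoprime P (c * (w - a r) + 1) :=
        IsCoprime.of_isCoprime_of_dvd_left h1 ⟨E, rfl⟩
      exact h1.mul_left h2
    have hcop : IsCoprime (c * P) D := IsCoprime.prod_right hcop1
    have hD0 : D ≠ 0 := by
      rw [hD, Finset.prod_ne_zero_iff]
      intro r _ h0
      have : c ∣ 1 := ⟨-(w - a r), by linarith⟩
      have := Int.le_of_dvd one_pos this
      omega
    obtain ⟨u, v, huv⟩ := hcop
    set t0 : ℤ := -u * (c * w + 1) with ht0
    set t : ℤ := t0 + |t0| * D ^ 2 with ht
    have htn : 0 ≤ t := by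
      have h1 : 1 ≤ D ^ 2 := by
        have : 0 < D ^ 2 := by positivity
        omega
      have h2 : |t0| ≤ |t0| * D ^ 2 := le_mul_of_one_le_right (abs_nonneg _) h1
      have h3 := neg_abs_le t0
      rw [ht]
      linarith
    have htD : D ∣ c * P * t + (c * w + 1) := by
      refine ⟨v * (c * w + 1) + c * P * |t0| * D, ?_⟩
      have h1 : c * P * t0 = -(u * (c * P)) * (c * w + 1) := by rw [ht0]; ring
      have h2 : u * (c * P) = 1 - v * D := by linarith
      calc c * P * t + (c * w + 1) = c * P * t0 + c * P * |t0| * D ^ 2 + (c * w + 1) := by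
            rw [ht]; ring
        _ = -(1 - v * D) * (c * w + 1) + c * P * |t0| * D ^ 2 + (c * w + 1) := by rw [h1, h2]
        _ = _ := by ring
    set M1 : ℤ := c * P * t with hM1
    have hM1n : 0 ≤ M1 := by positivity
    refine ⟨c * C, c * M + M1, fun r => if r = r₀ then 1 else c * δ r, by nlinarith, by nlinarith,
      ?_, ?_⟩
    · intro r hr
      rw [Finset.mem_insert] at hr
      by_cases h : r = r₀
      · simp only [h, if_true]
        refine ⟨by norm_num, ?_⟩
        nlinarith
      · simp only [h, if_false]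
        obtain ⟨h1, h2⟩ := hδ r (hr.resolve_left h)
        refine ⟨by positivity, ?_⟩
        have := mul_le_mul_of_nonneg_left h2 (by linarith : 0 ≤ c)
        linarith
    · have hold : ∀ r ∈ s, c * C * r + (c * M + M1) + (if r = r₀ then 1 else c * δ r) =
          c * a r + M1 := by
        intro r hr
        have : r ≠ r₀ := fun h => hr₀ (h ▸ hr)
        rw [if_neg this]
        simp only [ha]
        ring
      have hnew : c * C * r₀ + (c * M + M1) + (if r₀ = r₀ then 1 else c * δ r₀) =
          c * w + 1 + M1 := by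
        rw [if_pos rfl, hw]
        ring
      have hnd : ∀ r ∈ s, (c * (w - a r) + 1) ∣ (c * w + 1 + M1) := by
        intro r hr
        have h1 : (c * (w - a r) + 1) ∣ D :=
          Finset.dvd_prod_of_mem (fun r => c * (w - a r) + 1) hr
        have h2 : c * w + 1 + M1 = c * P * t + (c * w + 1) := by rw [hM1]; ring
        rw [h2]
        exact h1.trans htD
      intro r hr r' hr' hne
      rw [Finset.mem_insert] at hr hr'
      rcases hr with rfl | hr
      · rcases hr' with rfl | hr'
        · exact absurd rfl hne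
        · rw [hnew, hold r' hr']
          have h1 : c * w + 1 + M1 - (c * a r' + M1) = c * (w - a r') + 1 := by ring
          rw [h1]
          exact hnd r' hr'
      · rcases hr' with rfl | hr'
        · rw [hnew, hold r hr]
          have h1 : c * a r + M1 - (c * w + 1 + M1) = -(c * (w - a r) + 1) := by ring
          rw [h1, neg_dvd]
          have h2 : c * a r + M1 = (c * w + 1 + M1) - (c * (w - a r) + 1) := by ring
          rw [h2]
          exact dvd_sub (hnd r hr) dvd_rfl
        · rw [hold r hr, hold r' hr']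
          have h1 : c * a r + M1 - (c * a r' + M1) = c * (a r - a r') := by ring
          rw [h1]
          have h2 : c * (a r - a r') ∣ c * a r := mul_dvd_mul_left c (hdiv r hr r' hr' hne)
          have h3 : c * (a r - a r') ∣ M1 := by
            have h4 : M1 = c * (P * t) := by rw [hM1]; ring
            rw [h4]
            exact mul_dvd_mul_left c (dvd_mul_of_dvd_left (hPd r hr r' hr' hne) t)
          exact dvd_add h2 h3

end Pool.Agent.H47R4
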