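import Mathlib
import Pool.Agent.H47R4.LCore
import Pool.Agent.H47R4.Shape

/-! Two consecutive integers with large prime factors at a location controlled by the classes. -/

namespace Pool.Agent.H47R4

open Finset Filter Topology Nat

/-- the statement of the localised Maynard-Tao theorem with two classes hit -/
def LMT (T K : ℕ) : Prop := ∀ (a b : Fin (T * K) → ℕ) (cl : Fin (T * K) → Fin T),
      (∀ g, (univ.filter (fun i => cl i = g)).card = K) → (∀ i, 1 ≤ a i) → (∀ i, 1 ≤ b i) →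
      (∀ i j, i ≠ j → a i * b j ≠ a j * b i) →
      (∀ p : ℕ, p.Prime → ∃ n : ℕ, ¬ p ∣ n ∧ ∀ i, ¬ p ∣ a i * n + b i) →
      ∀ᶠ x : ℝ in atTop, ∃ n : ℕ, x / 4 < n ∧ (n : ℝ) ≤ 9 / 25 * x ∧
        1 + 1 ≤ (univ.filter (fun g : Fin T => ∃ i, cl i = g ∧ (a i * n + b i).Prime)).card

/-- positions of the classes: binary expansion with digits of size `E 0 < E 1 < ...` -/
def PB (E : ℕ → ℕ) : ℕ → ℕ → ℕ
  | 0, _ => 0
  | J + 1, g => PB E J (g % 2 ^ J) + (if 2 ^ J ≤ g then E J else 0)

theorem PB_le (E : ℕ → ℕ) (h : ∀ s, 15 * E s ≤ E (s + 1)) (J g : ℕ) : 14 * PB E J g ≤ E J := by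
  induction J generalizing g with
  | zero => simp [PB]
  | succ J ih =>
    have h1 := ih (g % 2 ^ J)
    have h2 := h J
    unfold PB
    split_ifs <;> omega

theorem PB_diff (E : ℕ → ℕ) (h : ∀ s, 15 * E s ≤ E (s + 1)) (J g g' : ℕ) (hg : g < g')
    (hg' : g' < 2 ^ J) : ∃ i, i < J ∧ 14 * PB E J g + 13 * E i ≤ 14 * PB E J g' ∧
      14 * PB E J g' ≤ 14 * PB E J g + 15 * E i := by
  induction J generalizing g g' with
  | zero => simp at hg'; omega
  | succ J ih =>
    have hpow : 2 ^ (J + 1) = 2 * 2 ^ J := by ring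
    by_cases h1 : 2 ^ J ≤ g
    · have h2 : 2 ^ J ≤ g' := by omega
      have e1 : g % 2 ^ J = g - 2 ^ J := by
        rw [Nat.mod_eq_sub_mod h1, Nat.mod_eq_of_lt (by omega)]
      have e2 : g' % 2 ^ J = g' - 2 ^ J := by
        rw [Nat.mod_eq_sub_mod h2, Nat.mod_eq_of_lt (by omega)]
      obtain ⟨i, hi, h3, h4⟩ := ih (g - 2 ^ J) (g' - 2 ^ J) (by omega) (by omega)
      refine ⟨i, by omega, ?_⟩
      unfold PB
      rw [if_pos h1, if_pos h2, e1, e2]
      omega
    · by_cases h2 : 2 ^ J ≤ g'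
      · refine ⟨J, by omega, ?_⟩
        have h3 := PB_le E h J (g % 2 ^ J)
        have h4 := PB_le E h J (g' % 2 ^ J)
        unfold PB
        rw [if_neg h1, if_pos h2]
        omega
      · obtain ⟨i, hi, h3, h4⟩ := ih g g' hg (by omega)
        refine ⟨i, by omega, ?_⟩
        unfold PB
        rw [if_neg h1, if_neg h2, Nat.mod_eq_of_lt (by omega), Nat.mod_eq_of_lt (by omega)]
        omega

/-- admissibility of the forms `a i * n + 1` when all small primes divide the `a i` -/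
theorem adm_forms {k : ℕ} (a : Fin k → ℕ) (ha : ∀ i, (k + 1)! ∣ a i) :
    ∀ p : ℕ, p.Prime → ∃ n : ℕ, ¬ p ∣ n ∧ ∀ i, ¬ p ∣ a i * n + 1 := by
  intro p hp
  by_cases hpk : p ≤ k + 1
  · refine ⟨1, ?_, fun i hi => ?_⟩
    · intro h
      exact hp.one_lt.ne' (Nat.dvd_one.1 h)
    · have h1 : p ∣ a i := (Nat.dvd_factorial hp.pos hpk).trans (ha i)
      rw [mul_one, Nat.dvd_add_right h1] at hi
      exact hp.one_lt.ne' (Nat.dvd_one.1 hi)
  · push Not at hpk
    by_contra hcon
    push Not at hcon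
    have h1 : ∀ n ∈ Icc 1 (k + 1), ∃ i : Fin k, p ∣ a i * n + 1 := by
      intro n hn
      rw [Finset.mem_Icc] at hn
      exact hcon n (fun h => by
        have := Nat.le_of_dvd (by omega) h
        omega)
    have hne : Nonempty (Fin k) := ⟨(h1 1 (by rw [Finset.mem_Icc]; omega)).choose⟩
    choose! f hf using h1
    have h2 : (univ : Finset (Fin k)).card < (Icc 1 (k + 1)).card := by
      rw [Finset.card_univ, Fintype.card_fin, Nat.card_Icc]
      omega
    obtain ⟨n, hn, n', hn', hne, hff⟩ := Finset.exists_ne_map_eq_of_card_lt_of_maps_to h2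
      (f := f) (fun n _ => Finset.mem_coe.2 (Finset.mem_univ _))
    have h3 := hf n hn
    have h4 := hf n' hn'
    rw [← hff] at h4
    rw [Finset.mem_Icc] at hn hn'
    -- `p` divides `a (f n) * (n - n')`
    have key : ∀ n n' : ℕ, 1 ≤ n → n ≤ k + 1 → n < n' → n' ≤ k + 1 → ∀ i : Fin k,
        p ∣ a i * n + 1 → p ∣ a i * n' + 1 → False := by
      intro n n' hn1 hn2 hlt hn3 i h5 h6
      have h7 : p ∣ a i * (n' - n) := by
        have h8 : a i * n' + 1 = (a i * n + 1) + a i * (n' - n) := by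
          obtain ⟨d, rfl⟩ := Nat.exists_eq_add_of_lt hlt
          have : n + d + 1 - n = d + 1 := by omega
          rw [this]
          ring
        rw [h8] at h6
        exact (Nat.dvd_add_right h5).1 h6
      rcases (hp.dvd_mul).1 h7 with h8 | h8
      · have h9 : p ∣ a i * n := dvd_mul_of_dvd_left h8 n
        have := (Nat.dvd_add_right h9).1 h5
        exact hp.one_lt.ne' (Nat.dvd_one.1 this)
      · have := Nat.le_of_dvd (by omega) h8
        omega
    rcases lt_or_gt_of_ne hne with h | h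
    · exact key n n' hn.1 hn.2 h hn'.2 _ h3 h4
    · exact key n' n hn'.1 hn'.2 h hn.2 _ h4 h3

theorem loc_ineq (A t Bi G n C R D x y : ℝ) (hA : 1 ≤ A) (hBi : 0 ≤ Bi) (hBx : 100 * Bi ≤ x)
    (hn : 0 ≤ n) (hx : 0 ≤ x) (hC : 0 < C) (hR : 0 < R) (hD : 0 ≤ D) (hloc : G * n = A * t + Bi)
    (ht1 : x / 4 ≤ t) (ht2 : t ≤ 9 / 25 * x) (hG1 : 92 * (C * (R * D)) ≤ 100 * G)
    (hG2 : 100 * G ≤ 109 * (C * (R * D))) (hxy : A * x = C * R * y) :
    100 * y ≤ 436 * D * n ∧ 1000 * (D * n) ≤ 403 * y := by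
  have hCR : 0 < C * R := by positivity
  constructor
  · have h6 : A * (x / 4) ≤ G * n := by
      rw [hloc]
      have : A * (x / 4) ≤ A * t := by gcongr
      linarith
    have h7 : 100 * G * n ≤ 109 * (C * (R * D)) * n := mul_le_mul_of_nonneg_right hG2 hn
    have h8 : 25 * (C * R * y) ≤ 109 * (C * (R * D)) * n := by
      rw [← hxy]
      linarith
    have h9 : C * R * (100 * y) ≤ C * R * (436 * D * n) := by
      linarith
    exact le_of_mul_le_mul_left h9 hCR
  · have h6 : G * n ≤ A * (37 / 100 * x) := by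
      rw [hloc]
      have h7 : A * t ≤ A * (9 / 25 * x) := by gcongr
      have h8 : Bi ≤ A * (1 / 100 * x) := by
        calc Bi ≤ 1 * (1 / 100 * x) := by linarith
          _ ≤ _ := by gcongr
      linarith
    have h7 : 92 * (C * (R * D)) * n ≤ 100 * G * n := mul_le_mul_of_nonneg_right hG1 hn
    have h8 : 92 * (C * (R * D)) * n ≤ 37 * (C * R * y) := by
      rw [← hxy]
      linarith
    have hy0 : 0 ≤ C * R * y := by rw [← hxy]; positivity
    have h9 : C * R * (1000 * (D * n)) ≤ C * R * (403 * y) := by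
      nlinarith
    exact le_of_mul_le_mul_left h9 hCR

theorem forms_pair (T J K : ℕ) (hT : T = 2 ^ J) (hK : 1 ≤ K) (hcore : LMT T K) (Δ : ℕ → ℕ)
    (h1 : ∀ s, s < J → 1 ≤ Δ s) (h2 : ∀ s, 15 * Δ s ≤ Δ (s + 1)) :
    ∃ m : ℕ, ∀ᶠ y : ℝ in atTop, ∃ s, s < J ∧ ∃ n p q : ℕ, p.Prime ∧ q.Prime ∧ p ∣ n ∧
      q ∣ n + 1 ∧ m * m ! < p ∧ m * m ! < q ∧ 2 * (n + 1) < m * p ∧ 2 * (n + 1) < m * q ∧
      100 * y ≤ 436 * Δ s * n ∧ 1000 * (Δ s * n : ℝ) ≤ 403 * y := by
  classical
  set e : Fin T × Fin K ≃ Fin (T * K) := finProdFinEquiv with he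
  set cl : Fin (T * K) → Fin T := fun i => (e.symm i).1 with hcl
  have hcard : ∀ g, (univ.filter (fun i => cl i = g)).card = K := by
    intro g
    have h1 : (univ.filter (fun i => cl i = g)) = univ.image (fun j : Fin K => e (g, j)) := by
      ext i
      simp only [mem_filter, mem_univ, true_and, mem_image]
      constructor
      · intro h
        refine ⟨(e.symm i).2, ?_⟩
        rw [Equiv.apply_eq_iff_eq_symm_apply]
        exact Prod.ext h.symm rfl
      · rintro ⟨j, rfl⟩
        simp [hcl]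
    rw [h1, Finset.card_image_of_injective _ (by
      intro j j' h
      have := e.injective h
      simpa using this)]
    simp
  set P : ℕ → ℕ := PB Δ J with hP
  set R : ℕ := 1000 * (T * K) with hR
  have hT1 : 1 ≤ T := by rw [hT]; exact Nat.one_le_two_pow
  have hTK : 1 ≤ T * K := Nat.mul_pos hT1 hK
  have hR1 : 1000 ≤ R := by omega
  set r : Fin (T * K) → ℕ := fun i => R * P (cl i) + i.val with hr
  -- differences of positions
  have hPd : ∀ g g' : ℕ, g < g' → g' < T → ∃ i, i < J ∧ 14 * P g + 13 * Δ i ≤ 14 * P g' ∧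
      14 * P g' ≤ 14 * P g + 15 * Δ i := fun g g' hg hg' =>
    PB_diff Δ h2 J g g' hg (by rwa [← hT])
  have hrinj : Function.Injective r := by
    intro i j hij
    simp only [hr] at hij
    have hi := i.2
    have hj := j.2
    have key : ∀ g g' u w : ℕ, g < g' → g' < T → u < T * K → w < T * K →
        R * P g + u ≠ R * P g' + w := by
      intro g g' u w hgg hg' hu hw heq
      obtain ⟨l, hl, h3, h4⟩ := hPd g g' hgg hg'
      have h5 := h1 l hl
      have h6 : P g + 1 ≤ P g' := by omega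
      have h7 : R * (P g + 1) ≤ R * P g' := Nat.mul_le_mul_left R h6
      rw [Nat.mul_add] at h7
      omega
    rcases lt_trichotomy (cl i).val (cl j).val with h | h | h
    · exact absurd hij (key _ _ _ _ h (cl j).2 hi hj)
    · have : cl i = cl j := Fin.ext h
      rw [this] at hij
      exact Fin.ext (by omega)
    · exact absurd hij.symm (key _ _ _ _ h (cl i).2 hj hi)
  obtain ⟨C, M, δ, hC, hM, hδ, hdiv⟩ := shape 1000 (by norm_num) (univ.image r)
  have hmem : ∀ i, r i ∈ univ.image r := fun i => Finset.mem_image_of_mem r (Finset.mem_univ i)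
  set Bz : Fin (T * K) → ℤ := fun i => C * r i + M + δ (r i) with hBz
  have hBz1 : ∀ i, 1 ≤ Bz i := by
    intro i
    have h3 := (hδ _ (hmem i)).1
    have h4 : 0 ≤ C * (r i : ℤ) := by positivity
    simp only [hBz]
    linarith
  set B : Fin (T * K) → ℕ := fun i => (Bz i).toNat with hB
  have hBc : ∀ i, (B i : ℤ) = Bz i := fun i => Int.toNat_of_nonneg (by linarith [hBz1 i])
  have hB1 : ∀ i, 1 ≤ B i := by
    intro i
    have h3 := hBz1 i
    rw [← hBc] at h3
    exact_mod_cast h3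
  -- gaps
  have hgap : ∀ i j : Fin (T * K), (cl i).val < (cl j).val → ∃ s, s < J ∧
      92 * (C * (R * Δ s)) ≤ 100 * (Bz j - Bz i) ∧
      100 * (Bz j - Bz i) ≤ 109 * (C * (R * Δ s)) := by
    intro i j hij
    obtain ⟨s, hs, h3, h4⟩ := hPd _ _ hij (cl j).2
    refine ⟨s, hs, ?_⟩
    have h5 := h1 s hs
    have hi : (i.val : ℤ) < T * K := by exact_mod_cast i.2
    have hj : (j.val : ℤ) < T * K := by exact_mod_cast j.2
    have hi0 : (0 : ℤ) ≤ i.val := by positivity
    have hj0 : (0 : ℤ) ≤ j.val := by positivity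
    obtain ⟨h6, h7⟩ := hδ _ (hmem i)
    obtain ⟨h8, h9⟩ := hδ _ (hmem j)
    have hRz : (R : ℤ) = 1000 * (T * K) := by rw [hR]; push_cast; ring
    have h3' : 14 * (P (cl i) : ℤ) + 13 * Δ s ≤ 14 * P (cl j) := by exact_mod_cast h3
    have h4' : 14 * (P (cl j) : ℤ) ≤ 14 * P (cl i) + 15 * Δ s := by exact_mod_cast h4
    have h5' : (1 : ℤ) ≤ Δ s := by exact_mod_cast h5
    have hR0 : (0 : ℤ) ≤ R := by positivity
    have h10 : (R : ℤ) * (14 * (P (cl i) : ℤ) + 13 * Δ s) ≤ R * (14 * P (cl j)) :=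
      mul_le_mul_of_nonneg_left h3' hR0
    have h11 : (R : ℤ) * (14 * (P (cl j) : ℤ)) ≤ R * (14 * P (cl i) + 15 * Δ s) :=
      mul_le_mul_of_nonneg_left h4' hR0
    have h12 : (R : ℤ) * 1 ≤ R * Δ s := mul_le_mul_of_nonneg_left h5' hR0
    have hrd : (r j : ℤ) - r i = R * P (cl j) - R * P (cl i) + (j.val - i.val) := by
      simp only [hr]
      push_cast
      ring
    set Y : ℤ := R * Δ s with hY
    have h13 : 1000 * ((T : ℤ) * K) ≤ Y := by linarith
    have h14 : (1000 : ℤ) ≤ Y := by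
      have : (1000 : ℤ) ≤ R := by exact_mod_cast hR1
      linarith
    have hl : 12986 * Y ≤ 14000 * ((r j : ℤ) - r i) := by
      rw [hrd]
      nlinarith
    have hu : 14000 * ((r j : ℤ) - r i) ≤ 15014 * Y := by
      rw [hrd]
      nlinarith
    have hdB : Bz j - Bz i = C * ((r j : ℤ) - r i) + (δ (r j) - δ (r i)) := by
      simp only [hBz]
      ring
    have hC0 : 0 ≤ C := by linarith
    have hl' := mul_le_mul_of_nonneg_left hl hC0
    have hu' := mul_le_mul_of_nonneg_left hu hC0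
    have hCY : C * 1000 ≤ C * Y := mul_le_mul_of_nonneg_left h14 hC0
    rw [hdB]
    constructor
    · nlinarith
    · nlinarith
  obtain ⟨a, A, haA, hadvd, hA1⟩ : ∃ (a : Fin (T * K) → ℕ) (A : ℕ), (∀ i, B i * a i = A) ∧
      (∀ i, (T * K + 1)! ∣ a i) ∧ 1 ≤ A := by
    refine ⟨fun i => (T * K + 1)! * ∏ j ∈ univ.erase i, B j, (T * K + 1)! * ∏ j, B j,
      fun i => ?_, fun i => Dvd.intro _ rfl,
      Nat.mul_pos (Nat.factorial_pos _) (Finset.prod_pos fun j _ => hB1 j)⟩
    rw [← Finset.mul_prod_erase univ B (Finset.mem_univ i)]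
    ring
  have ha1 : ∀ i, 1 ≤ a i := by
    intro i
    by_contra h
    have h3 : a i = 0 := by omega
    have := haA i
    rw [h3] at this
    omega
  have hBinj : ∀ i j, i ≠ j → B i ≠ B j := by
    intro i j hij h
    have h3 : Bz i = Bz j := by rw [← hBc, ← hBc, h]
    have h4 := hdiv _ (hmem i) _ (hmem j) (fun h => hij (hrinj h))
    have h5 : (C * (r i : ℤ) + M + δ (r i)) - (C * r j + M + δ (r j)) = 0 := by
      have h6 : C * (r i : ℤ) + M + δ (r i) = Bz i := rfl
      have h7 : C * (r j : ℤ) + M + δ (r j) = Bz j := rfl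
      rw [h6, h7, h3, sub_self]
    rw [h5, zero_dvd_iff] at h4
    have h8 := hBz1 i
    have h9 : Bz i = 0 := h4
    omega
  have hmain := hcore a (fun _ => 1) cl hcard ha1 (fun _ => le_rfl)
    (by
      intro i j hij h
      rw [mul_one, mul_one] at h
      apply hBinj i j hij
      have h3 := haA i
      rw [← haA j, h] at h3
      exact Nat.eq_of_mul_eq_mul_right (ha1 j) h3)
    (adm_forms a hadvd)
  set S : ℕ := ∑ i, B i with hS
  have hBS : ∀ i, B i ≤ S := fun i =>
    Finset.single_le_sum (f := B) (fun _ _ => Nat.zero_le _) (Finset.mem_univ i)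
  set m : ℕ := 4 * S + 4 with hm
  -- from `x` to `y`
  have hCr : (0 : ℝ) < C := by exact_mod_cast (by omega : (0 : ℤ) < C)
  have hRr : (0 : ℝ) < R := by exact_mod_cast (by omega : 0 < R)
  have hAr : (0 : ℝ) < A := by exact_mod_cast hA1
  have htend : Tendsto (fun y : ℝ => (C * R / A : ℝ) * y) atTop atTop :=
    tendsto_id.const_mul_atTop (by positivity)
  obtain ⟨W, hW⟩ : ∃ W : ℕ, m * m ! = W := ⟨_, rfl⟩
  refine ⟨m, ?_⟩
  rw [hW]
  filter_upwards [htend.eventually hmain, htend.eventually (eventually_ge_atTop (100 * (S : ℝ))),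
    htend.eventually (eventually_ge_atTop (4 * (W : ℝ) + 4))] with y hy1 hy2 hy3
  obtain ⟨x, hx⟩ : ∃ x : ℝ, (C * R / A : ℝ) * y = x := ⟨_, rfl⟩
  rw [hx] at hy1 hy2 hy3
  have hxy : A * x = C * R * y := by rw [← hx]; field_simp
  obtain ⟨t, ht1, ht2, ht3⟩ := hy1
  obtain ⟨g1, hg1, g2, hg2, hg12⟩ := Finset.one_lt_card.1 (show 1 < _ from ht3)
  rw [mem_filter] at hg1 hg2
  obtain ⟨-, i1, hi1, hp1⟩ := hg1
  obtain ⟨-, i2, hi2, hp2⟩ := hg2
  -- the pair with ordered classes
  have hfin : ∀ i j : Fin (T * K), (cl i).val < (cl j).val → (a i * t + 1).Prime →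
      (a j * t + 1).Prime → ∃ s, s < J ∧ ∃ n p q : ℕ, p.Prime ∧ q.Prime ∧ p ∣ n ∧
      q ∣ n + 1 ∧ W < p ∧ W < q ∧ 2 * (n + 1) < m * p ∧ 2 * (n + 1) < m * q ∧
      100 * y ≤ 436 * Δ s * n ∧ 1000 * (Δ s * n : ℝ) ≤ 403 * y := by
    intro i j hij hpi hpj
    obtain ⟨s, hs, hg1, hg2⟩ := hgap i j hij
    refine ⟨s, hs, ?_⟩
    have h5 := h1 s hs
    have hYpos : (0 : ℤ) < C * (R * Δ s) := by
      have : (0 : ℤ) < Δ s := by exact_mod_cast h5
      have : (0 : ℤ) < R := by exact_mod_cast (by omega : 0 < R)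
      positivity
    have hgpos : 0 < Bz j - Bz i := by linarith
    have hneij : r j ≠ r i := by
      intro h
      have := hrinj h
      rw [this] at hij
      exact lt_irrefl _ hij
    have hdj : (Bz j - Bz i) ∣ Bz j := hdiv _ (hmem j) _ (hmem i) hneij
    have hdi : (Bz j - Bz i) ∣ Bz i := by
      have h6 : Bz i = Bz j - (Bz j - Bz i) := by ring
      rw [h6]
      exact dvd_sub (by rw [← h6]; exact hdj) (by rw [← h6])
    set g : ℤ := Bz j - Bz i with hg
    obtain ⟨ci, hci⟩ := hdi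
    obtain ⟨cj, hcj⟩ := hdj
    have hcji : cj = ci + 1 := by
      have h6 : g * (cj - ci) = g * 1 := by
        rw [mul_sub, ← hci, ← hcj, hg]
        ring
      have := mul_left_cancel₀ hgpos.ne' h6
      linarith
    have hci0 : 0 < ci := by
      have h6 := hBz1 i
      rw [hci] at h6
      exact (mul_pos_iff_of_pos_left hgpos).1 (by linarith)
    obtain ⟨c, hc⟩ := Int.eq_ofNat_of_zero_le hci0.le
    have hc0 : 0 < c := by
      rw [hc] at hci0
      exact_mod_cast hci0
    obtain ⟨G, hG⟩ := Int.eq_ofNat_of_zero_le hgpos.le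
    have hG0 : 0 < G := by
      rw [hG] at hgpos
      exact_mod_cast hgpos
    have hBi : B i = G * c := by
      have : (B i : ℤ) = G * c := by rw [hBc, hci, hG, hc]
      exact_mod_cast this
    have hBj : B j = G * (c + 1) := by
      have : (B j : ℤ) = G * (c + 1) := by rw [hBc, hcj, hcji, hG, hc]
      exact_mod_cast this
    have hcc : c * a i = (c + 1) * a j := by
      have h6 : G * (c * a i) = G * ((c + 1) * a j) := by
        calc G * (c * a i) = (G * c) * a i := by ring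
          _ = A := by rw [← hBi, haA]
          _ = (G * (c + 1)) * a j := by rw [← hBj, haA]
          _ = _ := by ring
      exact Nat.eq_of_mul_eq_mul_left hG0 h6
    have hcB : c ≤ B i := by
      rw [hBi]
      exact Nat.le_mul_of_pos_left c hG0
    have hcB' : c + 1 ≤ B j := by
      rw [hBj]
      exact Nat.le_mul_of_pos_left _ hG0
    have hn1 : c * (a i * t + 1) + 1 = (c + 1) * (a j * t + 1) := by
      calc c * (a i * t + 1) + 1 = (c * a i) * t + c + 1 := by ring
        _ = ((c + 1) * a j) * t + c + 1 := by rw [hcc]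
        _ = _ := by ring
    have htbig : (W : ℝ) + 1 < t := by linarith
    have htbig' : W + 1 < t := by exact_mod_cast htbig
    have hpb : ∀ l, W < a l * t + 1 := by
      intro l
      have : 1 * t ≤ a l * t := Nat.mul_le_mul_right t (ha1 l)
      omega
    have hloc : G * (c * (a i * t + 1)) = A * t + B i := by
      calc G * (c * (a i * t + 1)) = (G * c) * a i * t + G * c := by ring
        _ = _ := by rw [← hBi, haA]
    have hlocR : (G : ℝ) * ((c * (a i * t + 1) : ℕ) : ℝ) = A * t + B i := by exact_mod_cast hloc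
    have hG1 : 92 * ((C : ℝ) * (R * Δ s)) ≤ 100 * G := by
      have : 92 * (C * (R * Δ s)) ≤ 100 * (G : ℤ) := by rw [← hG]; exact hg1
      exact_mod_cast this
    have hG2 : 100 * (G : ℝ) ≤ 109 * ((C : ℝ) * (R * Δ s)) := by
      have : 100 * (G : ℤ) ≤ 109 * (C * (R * Δ s)) := by rw [← hG]; exact hg2
      exact_mod_cast this
    set n : ℕ := c * (a i * t + 1) with hn
    have hnn : (0 : ℝ) ≤ n := Nat.cast_nonneg _
    have hBiS : (B i : ℝ) ≤ S := by exact_mod_cast hBS i
    have hBi0 : (0 : ℝ) ≤ B i := Nat.cast_nonneg _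
    have hxpos : 0 ≤ x := by
      have : (0 : ℝ) ≤ S := Nat.cast_nonneg _
      linarith
    have hA1r : (1 : ℝ) ≤ A := by exact_mod_cast hA1
    have hineq := loc_ineq A t (B i) G n C R (Δ s) x y hA1r hBi0 (by linarith) hnn hxpos hCr
      hRr (Nat.cast_nonneg _) hlocR ht1.le ht2 hG1 hG2 hxy
    refine ⟨n, a i * t + 1, a j * t + 1, hpi, hpj, ⟨c, by rw [hn]; ring⟩, ⟨c + 1, by
      rw [hn1]; ring⟩, hpb i, hpb j, ?_, ?_, hineq.1, hineq.2⟩
    · -- `2 (n + 1) < m p`
      have h6 : c ≤ S := hcB.trans (hBS i)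
      have h7 : c * (a i * t + 1) ≤ S * (a i * t + 1) := Nat.mul_le_mul_right _ h6
      have h8 : 1 ≤ a i * t + 1 := by omega
      have h9 : m * (a i * t + 1) = 4 * (S * (a i * t + 1)) + 4 * (a i * t + 1) := by
        rw [hm]; ring
      rw [hn, h9]
      omega
    · have h6 : c + 1 ≤ S := hcB'.trans (hBS j)
      have h7 : (c + 1) * (a j * t + 1) ≤ S * (a j * t + 1) := Nat.mul_le_mul_right _ h6
      have h8 : 1 ≤ a j * t + 1 := by omega
      have h9 : m * (a j * t + 1) = 4 * (S * (a j * t + 1)) + 4 * (a j * t + 1) := by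
        rw [hm]; ring
      rw [hn1, h9]
      omega
  rcases lt_trichotomy (cl i1).val (cl i2).val with h | h | h
  · exact hfin i1 i2 h hp1 hp2
  · exfalso
    apply hg12
    rw [← hi1, ← hi2]
    exact Fin.ext h
  · exact hfin i2 i1 h hp2 hp1

end Pool.Agent.H47R4
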