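import Mathlib

/-! If the reciprocal sum of a finite set of positive integers is an integer then no large prime
divides an element (copy of the lemma `key` of the starting file
`Pool/Agent/Results/MP_658336_nt/Progressions.lean`). -/

set_option autoImplicit false

namespace Pool.Agent.H47R4

open Nat

theorem key (m : ℕ) (A : Finset ℕ) (h1 : ∀ a ∈ A, 0 < a) (N : ℤ)
    (hN : ∑ n ∈ A, (1 : ℚ) / (n : ℚ) = N)
    (p : ℕ) (hp : p.Prime) (hpm : m * m ! < p) (hb : ∀ a ∈ A, a < m * p)
    (n₀ : ℕ) (hn₀ : n₀ ∈ A) : ¬ p ∣ n₀ := by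
  intro hdvd
  have : Fact p.Prime := ⟨hp⟩
  have hp0 : 0 < p := hp.pos
  set W : ℕ := ∑ n ∈ A.filter (fun n => p ∣ n), m ! / (n / p) with hW
  have hel : ∀ n ∈ A.filter (fun n => p ∣ n), 1 ≤ n / p ∧ n / p < m ∧ n = p * (n / p) := by
    intro n hn
    rw [Finset.mem_filter] at hn
    obtain ⟨ha, i, rfl⟩ := hn
    rw [Nat.mul_div_cancel_left i hp0]
    refine ⟨?_, ?_, rfl⟩
    · rcases Nat.eq_zero_or_pos i with h | h
      · subst h
        have := h1 _ ha
        omega
      · exact h
    · have h2 : p * i < m * p := hb _ ha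
      rw [mul_comm m p] at h2
      exact Nat.lt_of_mul_lt_mul_left h2
  have hWlt : W < p := by
    refine lt_of_le_of_lt ?_ hpm
    rw [hW]
    have hcard : (A.filter (fun n => p ∣ n)).card ≤ m := by
      have h2 : (A.filter (fun n => p ∣ n)).card ≤ (Finset.range m).card := by
        apply Finset.card_le_card_of_injOn (fun n => n / p)
        · intro n hn
          have := hel n hn
          simp only [Finset.coe_range, Set.mem_Iio]
          exact this.2.1
        · intro n hn n' hn' h
          have e1 := hel n hn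
          have e2 := hel n' hn'
          simp only at h
          rw [e1.2.2, e2.2.2, h]
      rwa [Finset.card_range] at h2
    calc ∑ n ∈ A.filter (fun n => p ∣ n), m ! / (n / p)
        ≤ ∑ _n ∈ A.filter (fun n => p ∣ n), m ! :=
          Finset.sum_le_sum fun n _ => Nat.div_le_self _ _
      _ ≤ m * m ! := by
          rw [Finset.sum_const, smul_eq_mul]
          exact Nat.mul_le_mul_right _ hcard
  have hWpos : 0 < W := by
    have hmem : n₀ ∈ A.filter (fun n => p ∣ n) := Finset.mem_filter.2 ⟨hn₀, hdvd⟩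
    have h3 := hel n₀ hmem
    have h4 : 0 < m ! / (n₀ / p) := by
      apply Nat.div_pos _ (by omega)
      exact (Nat.self_le_factorial _).trans (Nat.factorial_le (by omega))
    calc 0 < m ! / (n₀ / p) := h4
      _ ≤ W := Finset.single_le_sum (f := fun n => m ! / (n / p)) (fun _ _ => Nat.zero_le _) hmem
  set T1 : ℚ := ∑ n ∈ A.filter (fun n => ¬ p ∣ n), (1 : ℚ) / (n : ℚ) with hT1
  set T2 : ℚ := ∑ n ∈ A.filter (fun n => p ∣ n), (1 : ℚ) / (n : ℚ) with hT2
  have hsplit : (N : ℚ) = T2 + T1 := by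
    rw [← hN, hT1, hT2, Finset.sum_filter_add_sum_filter_not]
  have hT1n : padicNorm p T1 ≤ 1 := by
    apply padicNorm.sum_le' _ zero_le_one
    intro n hn
    rw [Finset.mem_filter] at hn
    rw [padicNorm.div, padicNorm.one, (padicNorm.nat_eq_one_iff n).2 hn.2]
    norm_num
  have hT2n : padicNorm p T2 ≤ 1 := by
    have : T2 = (N : ℚ) - T1 := by rw [hsplit]; ring
    rw [this]
    exact padicNorm.sub.trans (max_le (padicNorm.of_int N) hT1n)
  have hWT : (W : ℚ) = (p : ℚ) * (m ! : ℚ) * T2 := by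
    rw [hW, hT2, Nat.cast_sum, Finset.mul_sum]
    apply Finset.sum_congr rfl
    intro n hn
    obtain ⟨e1, e2, e3⟩ := hel n hn
    have hd : (n / p) ∣ m ! := Nat.dvd_factorial (by omega) (by omega)
    rw [Nat.cast_div hd (by exact_mod_cast (by omega : n / p ≠ 0))]
    have hn' : (n : ℚ) = (p : ℚ) * ((n / p : ℕ) : ℚ) := by exact_mod_cast e3
    rw [hn']
    have hp' : (p : ℚ) ≠ 0 := by exact_mod_cast hp0.ne'
    have hq' : ((n / p : ℕ) : ℚ) ≠ 0 := by exact_mod_cast (by omega : n / p ≠ 0)
    generalize ((n / p : ℕ) : ℚ) = q at hq'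
    field_simp
  have hWn : padicNorm p W < 1 := by
    rw [hWT, padicNorm.mul, padicNorm.mul]
    have h5 : padicNorm p (m ! : ℚ) ≤ 1 := by
      exact_mod_cast padicNorm.of_nat (p := p) (m !)
    have h6 : padicNorm p (p : ℚ) < 1 := padicNorm.padicNorm_p_lt_one_of_prime
    have h7 : 0 ≤ padicNorm p (p : ℚ) := padicNorm.nonneg _
    have h8 : 0 ≤ padicNorm p (m ! : ℚ) := padicNorm.nonneg _
    have h9 : 0 ≤ padicNorm p T2 := padicNorm.nonneg _
    calc padicNorm p (p : ℚ) * padicNorm p (m ! : ℚ) * padicNorm p T2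
        ≤ padicNorm p (p : ℚ) * 1 * 1 := by gcongr
      _ < 1 := by rw [mul_one, mul_one]; exact h6
  have hdW : p ∣ W := (padicNorm.nat_lt_one_iff W).1 hWn
  exact absurd (Nat.le_of_dvd hWpos hdW) (not_le.2 hWlt)


end Pool.Agent.H47R4
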