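import Mathlib
import Pool.Agent.H47R4.Forms
import Pool.Agent.H47R4.Key

/-! Largest denominators of unit fraction representations of a positive integer with gaps at
most `2`. -/

namespace Pool.Agent.H47R4

open Finset Filter Topology Nat

/-- `N` is the largest element of a finite set of positive integers whose reciprocal sum is a
positive integer and in which consecutive elements differ by at most `2` -/
def IsMax (N : ℕ) : Prop := ∃ r : ℕ, 1 ≤ r ∧ ∃ A : Finset ℕ, (∀ a ∈ A, 0 < a) ∧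
    (∑ n ∈ A, (1 : ℚ) / (n : ℚ)) = r ∧
    (∀ x ∈ A, ∀ y ∈ A, x < y → (∀ z ∈ A, ¬ (x < z ∧ z < y)) → y - x ≤ 2) ∧
    N ∈ A ∧ ∀ a ∈ A, a ≤ N

theorem two_min (A : Finset ℕ) (hA : ∀ a ∈ A, 0 < a) (r : ℕ) (hr : 1 ≤ r)
    (hsum : (∑ n ∈ A, (1 : ℚ) / (n : ℚ)) = r)
    (N : ℕ) (hN : ∀ a ∈ A, a ≤ N) : ∃ a ∈ A, 2 * a ≤ N + 1 := by
  have hr' : (1 : ℚ) ≤ r := by exact_mod_cast hr
  have hne : A.Nonempty := by
    rw [Finset.nonempty_iff_ne_empty]
    rintro rfl
    simp only [Finset.sum_empty] at hsum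
    linarith
  set a₁ := A.min' hne with ha₁
  have ha₁A : a₁ ∈ A := A.min'_mem hne
  have ha₁0 : (0 : ℚ) < (a₁ : ℚ) := by exact_mod_cast hA _ ha₁A
  refine ⟨a₁, ha₁A, ?_⟩
  have h2 : (∑ n ∈ A, (1 : ℚ) / (n : ℚ)) ≤ A.card • (1 / (a₁ : ℚ)) := by
    apply Finset.sum_le_card_nsmul
    intro n hn
    apply one_div_le_one_div_of_le ha₁0
    exact_mod_cast A.min'_le n hn
  have h2' := hr'.trans (hsum ▸ h2)
  rw [nsmul_eq_mul, mul_one_div, le_div_iff₀ ha₁0, one_mul] at h2'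
  have h3 : a₁ ≤ A.card := by exact_mod_cast h2'
  have h4 : A.card ≤ (Finset.Icc a₁ N).card := by
    apply Finset.card_le_card
    intro a ha
    exact Finset.mem_Icc.2 ⟨A.min'_le a ha, hN a ha⟩
  rw [Nat.card_Icc] at h4
  have := hN _ ha₁A
  omega

theorem no_pair (A : Finset ℕ) (hA : ∀ a ∈ A, 0 < a) (r : ℕ)
    (hsum : (∑ n ∈ A, (1 : ℚ) / (n : ℚ)) = r)
    (hgap : ∀ x ∈ A, ∀ y ∈ A, x < y → (∀ z ∈ A, ¬ (x < z ∧ z < y)) → y - x ≤ 2)
    (N : ℕ) (hNA : N ∈ A) (hN : ∀ a ∈ A, a ≤ N) (m n p q : ℕ) (hp : p.Prime) (hq : q.Prime)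
    (hpm : m * m ! < p) (hqm : m * m ! < q) (hNp : N < m * p) (hNq : N < m * q)
    (hpn : p ∣ n) (hqn : q ∣ n + 1) (hn : ∃ a ∈ A, a ≤ n) (hnN : n ≤ N) : False := by
  have hs : (∑ n ∈ A, (1 : ℚ) / (n : ℚ)) = ((r : ℤ) : ℚ) := by rw [hsum]; norm_num
  have h1 : n ∉ A := fun h => key m A hA r hs p hp hpm
    (fun a ha => lt_of_le_of_lt (hN a ha) hNp) n h hpn
  have h2 : n + 1 ∉ A := fun h => key m A hA r hs q hq hqm
    (fun a ha => lt_of_le_of_lt (hN a ha) hNq) (n + 1) h hqn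
  obtain ⟨a, haA, han⟩ := hn
  have hN2 : n < N := by
    rcases Nat.lt_or_ge n N with h | h
    · exact h
    · exact absurd (by rwa [show N = n by omega] at hNA) h1
  have hlow : (A.filter (fun a => a ≤ n)).Nonempty := ⟨a, Finset.mem_filter.2 ⟨haA, han⟩⟩
  have hup : (A.filter (fun a => n < a)).Nonempty := ⟨N, Finset.mem_filter.2 ⟨hNA, hN2⟩⟩
  have hx := Finset.max'_mem _ hlow
  have hy := Finset.min'_mem _ hup
  set x := (A.filter (fun a => a ≤ n)).max' hlow with hxdef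
  set y := (A.filter (fun a => n < a)).min' hup with hydef
  rw [Finset.mem_filter] at hx hy
  have hg := hgap x hx.1 y hy.1 (lt_of_le_of_lt hx.2 hy.2) (by
    rintro z hz ⟨hz1, hz2⟩
    by_cases hzt : z ≤ n
    · have h7 : z ≤ x := Finset.le_max' (A.filter (fun a => a ≤ n)) z
        (Finset.mem_filter.2 ⟨hz, hzt⟩)
      omega
    · have h7 : y ≤ z := Finset.min'_le (A.filter (fun a => n < a)) z
        (Finset.mem_filter.2 ⟨hz, not_le.1 hzt⟩)
      omega)
  have hxn : x ≠ n := fun h => h1 (h ▸ hx.1)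
  have hyn : y ≠ n + 1 := fun h => h2 (h ▸ hy.1)
  omega

theorem not_isMax (N m n p q : ℕ) (hp : p.Prime) (hq : q.Prime)
    (hpm : m * m ! < p) (hqm : m * m ! < q) (hNp : 2 * (n + 1) < m * p) (hNq : 2 * (n + 1) < m * q)
    (hpn : p ∣ n) (hqn : q ∣ n + 1) (hn2 : n ≤ N) (hn3 : N + 1 ≤ 2 * n) :
    ¬ IsMax N := by
  rintro ⟨r, hr, A, hA, hsum, hgap, hNA, hN⟩
  obtain ⟨a, haA, ha⟩ := two_min A hA r hr hsum N hN
  exact no_pair A hA r hsum hgap N hNA hN m n p q hp hq hpm hqm (by omega) (by omega)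
    hpn hqn ⟨a, haA, by omega⟩ hn2

/-- uniformity over the finitely many approximate shapes -/
theorem uniform (T J K : ℕ) (hT : T = 2 ^ J) (hK : 1 ≤ K) (hcore : LMT T K) (H : ℕ) :
    ∃ y0 : ℝ, ∀ D : Fin J → Fin (H + 1),
      (∀ s : Fin J, 1 ≤ (D s).val) →
      (∀ s, ∀ h : s + 1 < J, 15 * (D ⟨s, by omega⟩).val ≤ (D ⟨s + 1, h⟩).val) →
      ∀ y : ℝ, y0 ≤ y → ∃ s : Fin J, ∃ m n p q : ℕ, p.Prime ∧ q.Prime ∧ p ∣ n ∧
      q ∣ n + 1 ∧ m * m ! < p ∧ m * m ! < q ∧ 2 * (n + 1) < m * p ∧ 2 * (n + 1) < m * q ∧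
      100 * y ≤ 436 * ((D s).val : ℝ) * n ∧ 1000 * (((D s).val : ℝ) * n) ≤ 403 * y := by
  have h : ∀ D : Fin J → Fin (H + 1), ∃ y0 : ℝ,
      (∀ s : Fin J, 1 ≤ (D s).val) →
      (∀ s, ∀ h : s + 1 < J, 15 * (D ⟨s, by omega⟩).val ≤ (D ⟨s + 1, h⟩).val) →
      ∀ y : ℝ, y0 ≤ y → ∃ s : Fin J, ∃ m n p q : ℕ, p.Prime ∧ q.Prime ∧ p ∣ n ∧
      q ∣ n + 1 ∧ m * m ! < p ∧ m * m ! < q ∧ 2 * (n + 1) < m * p ∧ 2 * (n + 1) < m * q ∧
      100 * y ≤ 436 * ((D s).val : ℝ) * n ∧ 1000 * (((D s).val : ℝ) * n) ≤ 403 * y := by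
    intro D
    by_cases hD : (∀ s : Fin J, 1 ≤ (D s).val) ∧
      (∀ s, ∀ h : s + 1 < J, 15 * (D ⟨s, by omega⟩).val ≤ (D ⟨s + 1, h⟩).val)
    · obtain ⟨m, hm⟩ := forms_pair T J K hT hK hcore
        (fun s => if h : s < J then (D ⟨s, h⟩).val else (H + 1) * 15 ^ (s + 1))
        (by
          intro s hs
          simp only [hs, dif_pos]
          exact hD.1 _) (by
          intro s
          by_cases h1 : s + 1 < J
          · have h2 : s < J := by omega
            simp only [h1, h2, dif_pos]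
            exact hD.2 s h1
          · rw [dif_neg h1]
            by_cases h2 : s < J
            · rw [dif_pos h2]
              have h3 := (D ⟨s, h2⟩).2
              have h4 : 1 ≤ 15 ^ (s + 1) := Nat.one_le_pow _ _ (by norm_num)
              have h5 : (H + 1) * 15 ^ (s + 1 + 1) = 15 * ((H + 1) * 15 ^ (s + 1)) := by ring
              have h6 : (H + 1) * 1 ≤ (H + 1) * 15 ^ (s + 1) := Nat.mul_le_mul_left _ h4
              omega
            · rw [dif_neg h2]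
              apply le_of_eq
              ring)
      obtain ⟨y0, hy0⟩ := Filter.eventually_atTop.1 hm
      refine ⟨y0, fun _ _ y hy => ?_⟩
      obtain ⟨s, hs, n, p, q, h1, h2, h3, h4, h5, h6, h7, h8, h9, h10⟩ := hy0 y hy
      simp only [hs, dif_pos] at h9 h10
      exact ⟨⟨s, hs⟩, m, n, p, q, h1, h2, h3, h4, h5, h6, h7, h8, h9, h10⟩
    · exact ⟨0, fun h1 h2 => absurd ⟨h1, h2⟩ hD⟩
  choose f hf using h
  obtain ⟨y0, hy0⟩ := (Set.finite_range f).bddAbove
  exact ⟨y0, fun D h1 h2 y hy => hf D h1 h2 y ((hy0 ⟨D, rfl⟩).trans hy)⟩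

/-- no twelve well spaced maxima in a window -/
theorem no_chain (Q : ℕ) (hQ : 1 ≤ Q) : ∃ N0 : ℕ, ∀ f : ℕ → ℕ, N0 ≤ f 0 →
    (∀ s, s < 12 → IsMax (f s)) → (∀ s, s + 1 < 12 → 16 * f s ≤ f (s + 1)) →
    (∀ s, s < 12 → f s ≤ Q * f 0) → False := by
  obtain ⟨K, hK, hcore⟩ := local_core 4096 1 (by norm_num)
  set H : ℕ := 1000 * Q with hH
  obtain ⟨y0, hy0⟩ := uniform 4096 12 K (by norm_num) (by omega) hcore H
  refine ⟨⌈y0⌉₊ + 20, fun f hf0 hmax hrat hQf => ?_⟩
  have hmono : ∀ s, s < 12 → f 0 ≤ f s := by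
    intro s
    induction s with
    | zero => intro _; exact le_rfl
    | succ s ih =>
      intro hs
      have h1 := ih (by omega)
      have h2 := hrat s (by omega)
      omega
  have hpos : ∀ s, s < 12 → 20 ≤ f s := fun s hs => by
    have := hmono s hs
    omega
  have hDle : ∀ s, s < 12 → H * f 0 / f s ≤ H := by
    intro s hs
    have h1 := hpos s hs
    apply Nat.div_le_of_le_mul
    rw [mul_comm]
    exact Nat.mul_le_mul_right H (hmono s hs)
  have hDge : ∀ s, s < 12 → 1000 ≤ H * f 0 / f s := by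
    intro s hs
    have h1 := hpos s hs
    rw [Nat.le_div_iff_mul_le (by omega)]
    calc 1000 * f s ≤ 1000 * (Q * f 0) := Nat.mul_le_mul_left _ (hQf s hs)
      _ = H * f 0 := by rw [hH]; ring
  set D : Fin 12 → Fin (H + 1) := fun s => ⟨H * f 0 / f (11 - s.val), by
    have := hDle (11 - s.val) (by omega)
    omega⟩ with hD
  have hDv : ∀ s, (D s).val = H * f 0 / f (11 - s.val) := fun s => rfl
  have hyy : y0 ≤ 23 / 10 * ((H : ℝ) * f 0) := by
    have h1 : y0 ≤ ⌈y0⌉₊ := Nat.le_ceil y0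
    have h2 : ((⌈y0⌉₊ + 20 : ℕ) : ℝ) ≤ f 0 := by exact_mod_cast hf0
    have h3 : (1 : ℝ) ≤ H := by
      have : 1 ≤ H := by omega
      exact_mod_cast this
    have h4 : (0 : ℝ) ≤ f 0 := Nat.cast_nonneg _
    push_cast at h2
    nlinarith
  obtain ⟨s, m, n, p, q, h1, h2, h3, h4, h5, h6, h7, h8, h9, h10⟩ := hy0 D
    (fun s => by
      rw [hDv]
      have := hDge (11 - s.val) (by omega)
      omega)
    (by
      intro i hi
      rw [hDv, hDv]
      have hs1 : 11 - i = (10 - i) + 1 := by omega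
      have hs2 : 11 - (i + 1) = 10 - i := by omega
      show 15 * (H * f 0 / f (11 - i)) ≤ H * f 0 / f (11 - (i + 1))
      rw [hs1, hs2]
      set s := 10 - i with hs
      have h3 := hpos s (by omega)
      have h4 := hpos (s + 1) (by omega)
      have h5 := hrat s (by omega)
      set u := H * f 0 / f s with hu
      set w := H * f 0 / f (s + 1) with hw
      have h6 : w * f (s + 1) ≤ H * f 0 := Nat.div_mul_le_self _ _
      have h7 : H * f 0 < (u + 1) * f s := by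
        rw [mul_comm (u + 1)]
        exact Nat.lt_mul_div_succ _ (by omega)
      have h8 : w * (16 * f s) ≤ w * f (s + 1) := Nat.mul_le_mul_left w h5
      have h9 : (16 * w) * f s < (u + 1) * f s := by
        calc (16 * w) * f s = w * (16 * f s) := by ring
          _ < _ := lt_of_le_of_lt (h8.trans h6) h7
      have h10 := Nat.lt_of_mul_lt_mul_right h9
      omega) _ hyy
  rw [hDv] at h9 h10
  have hs' : 11 - s.val < 12 := by omega
  generalize 11 - s.val = l at h9 h10 hs'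
  have hfs := hpos l hs'
  set d := H * f 0 / f l with hd
  have hd1 : 1000 ≤ d := hDge l hs'
  have e1 : d * f l ≤ H * f 0 := Nat.div_mul_le_self _ _
  have e2 : H * f 0 < (d + 1) * f l := by
    rw [mul_comm (d + 1)]
    exact Nat.lt_mul_div_succ _ (by omega)
  have e1' : (d : ℝ) * f l ≤ H * f 0 := by exact_mod_cast e1
  have e2' : (H : ℝ) * f 0 < (d + 1) * f l := by exact_mod_cast e2
  have hd' : (1000 : ℝ) ≤ d := by exact_mod_cast hd1
  have hfs' : (20 : ℝ) ≤ f l := by exact_mod_cast hfs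
  have hlow : (21 : ℝ) * f l ≤ 40 * n := by
    have h11 : (230 : ℝ) * (d * f l) ≤ 436 * (d * n) := by
      calc (230 : ℝ) * (d * f l) ≤ 230 * (H * f 0) := by linarith
        _ ≤ 436 * d * n := by linarith
        _ = _ := by ring
    have h12 : (d : ℝ) * (230 * f l) ≤ d * (436 * n) := by linarith
    have h13 := le_of_mul_le_mul_left h12 (by linarith)
    linarith
  have hup : (n : ℝ) ≤ f l := by
    have h11 : (1000 : ℝ) * (d * n) ≤ 403 * (23 / 10 * ((d + 1) * f l)) := by linarith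
    have h12 : (d : ℝ) * (1000 * n) ≤ d * (1000 * f l) := by
      nlinarith
    have h13 := le_of_mul_le_mul_left h12 (by linarith)
    linarith
  have hlow' : 21 * f l ≤ 40 * n := by exact_mod_cast hlow
  have hup' : n ≤ f l := by exact_mod_cast hup
  exact not_isMax (f l) m n p q h1 h2 h5 h6 h7 h8 h3 h4 hup' (by omega) (hmax l hs')

end Pool.Agent.H47R4
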