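import Mathlib
import Pool.Agent.H362R2.CM.Core

/-! Localised coloured Maynard-Tao: error terms at length `c x` with a power of the logarithm. -/

namespace Pool.Agent.H47R4

open Finset Filter Topology
open Pool.Agent.H410R2 hiding GP GP_prof GP_cut_some GP_cut_none GP_lip gg_pos gg_le_one gg_anti ee_bound ee_nonneg gg_lip LB_gg LB_ee Sums exists_sums yx wx wxi Br sum_GP_none sum_GP_some sum_GP_some_ee sum_GP_some_one sum_GPr_none sum_GPr_some S1_final QI_final S2_final w_abs_le wmax gg ee I1 I2 IE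
open Pool.Agent.H361R2.GM
open Pool.Agent.H362R2.CM

variable {k : ℕ}

theorem errCM_le (hBV : BVAP) (hPB : ProdBound) (hOB : OmegaBound) (ρ : ℝ) (hρ : 0 < ρ)
    (hρ1 : ρ ≤ 1 / 16) (K : ℝ) (hK : 1 ≤ K) (D : ℕ) (a b m : ℕ) (ha : 1 ≤ a) (hm : 1 ≤ m)
    (c : ℝ) (hc0 : 0 < c) (hc1 : c ≤ 1) (M : ℕ) (C : ℝ) (hC : 0 ≤ C) :
    ∀ᶠ x : ℝ in atTop, ∀ r : ℕ → ℕ, C * (Real.log x) ^ M *
      ((∏ t : IP (Pr D x), (1 + K / ((prP (Pr D x) t : ℝ) - 1)) *
        ((prP (Pr D x) t : ℝ) / ((prP (Pr D x) t : ℝ) - 1))) ^ 2 *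
      ∑ q ∈ (Icc 1 ⌊(Real.exp ((1 / 4 - ρ / 2) * Real.log x)) ^ 2⌋₊).filter
        (fun q => Squarefree q ∧ (r q).Coprime (a * m * q)),
        (3 * K) ^ q.primeFactors.card *
          (|psiLogAP (a * (c * x)) (a * m * q) (r q) -
            psiLog1 (a * (c * x)) / (Nat.totient (a * m * q) : ℝ)| +
            ((a : ℝ) + b) ^ 2 * (Real.log (a * (c * x)) + 1))) ≤ x := by
  obtain ⟨C1, hC1, m1, hpre⟩ := prefactorP_le hPB K (by linarith) D
  obtain ⟨X₀, hX⟩ := hBV (a * m) (Nat.mul_pos ha hm) (3 * K) (by linarith) (ρ / 2) (by linarith)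
    (M + m1 + 1)
  obtain ⟨C', hC', hΩ⟩ := hOB (3 * K) (by linarith) (1 / 100) (by norm_num)
  have ha1 : (1 : ℝ) ≤ a := by exact_mod_cast ha
  have ev1 : ∀ᶠ x : ℝ in atTop, 2 * (C * C1) * a * 2 ^ (M + m1 + 1) ≤ Real.log x :=
    Real.tendsto_log_atTop.eventually_ge_atTop _
  have ev2 := ev_polylog (C * C1 * (C' * ((a : ℝ) + b) ^ 2 * (2 * (1 + |Real.log a|)) * 2))
    (M + m1 + 1) ((1 / 2 - ρ) + (1 / 2 - ρ) * (1 / 100)) 1 (by linarith)
  have ev3 := ev_polylog (1 / c) 0 (1 / 2 - ρ) (1 / 2 - ρ / 2) (by linarith)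
  have ev4 := ev_polylog (1 / c) 0 (1 / 2) 1 (by norm_num)
  have ev5 : ∀ᶠ x : ℝ in atTop, X₀ ≤ c * x :=
    (tendsto_id.const_mul_atTop hc0).eventually_ge_atTop X₀
  filter_upwards [hpre, ev1, ev2, ev3, ev4, ev5, eventually_ge_atTop (Real.exp 2)] with
    x hpre ev1 ev2 ev3 ev4 ev5 hxe r
  have hx0 : 0 < x := lt_of_lt_of_le (Real.exp_pos _) hxe
  have hl2 : 2 ≤ Real.log x := (Real.le_log_iff_exp_le hx0).2 hxe
  have hl1 : 1 ≤ Real.log x := by linarith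
  have hcx0 : 0 < c * x := by positivity
  have hcxx : c * x ≤ x := by nlinarith
  have hax : c * x ≤ a * (c * x) := by nlinarith
  have hax0 : 0 < a * (c * x) := by linarith
  have hsqrt : x ^ (1 / 2 : ℝ) ≤ c * x := by
    rw [pow_zero, mul_one, Real.rpow_one] at ev4
    have h1 : c * (1 / c * x ^ (1 / 2 : ℝ)) ≤ c * x := by gcongr
    calc x ^ (1 / 2 : ℝ) = c * (1 / c * x ^ (1 / 2 : ℝ)) := by field_simp
      _ ≤ _ := h1
  have hlcx : Real.log x / 2 ≤ Real.log (a * (c * x)) := by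
    have h1 : Real.log (x ^ (1 / 2 : ℝ)) ≤ Real.log (a * (c * x)) :=
      Real.log_le_log (by positivity) (hsqrt.trans hax)
    rw [Real.log_rpow hx0] at h1
    linarith
  have hlup : Real.log (a * (c * x)) ≤ Real.log (a * x) := by
    apply Real.log_le_log hax0
    gcongr
  have hBVx := hX (a * (c * x)) (ev5.trans hax) r
  rw [RP_sq ρ x hx0]
  set S := (Icc 1 ⌊x ^ (1 / 2 - ρ : ℝ)⌋₊).filter
    (fun q => Squarefree q ∧ (r q).Coprime (a * m * q)) with hSd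
  have hsplit : ∑ q ∈ S, (3 * K) ^ q.primeFactors.card *
      (|psiLogAP (a * (c * x)) (a * m * q) (r q) -
        psiLog1 (a * (c * x)) / (Nat.totient (a * m * q) : ℝ)| +
        ((a : ℝ) + b) ^ 2 * (Real.log (a * (c * x)) + 1)) =
      ∑ q ∈ S, (3 * K) ^ q.primeFactors.card *
      |psiLogAP (a * (c * x)) (a * m * q) (r q) -
        psiLog1 (a * (c * x)) / (Nat.totient (a * m * q) : ℝ)| +
      ((a : ℝ) + b) ^ 2 * (Real.log (a * (c * x)) + 1) *
        ∑ q ∈ S, (3 * K) ^ q.primeFactors.card := by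
    rw [Finset.mul_sum, ← Finset.sum_add_distrib]
    refine Finset.sum_congr rfl fun q _ => ?_
    ring
  rw [hsplit]
  have hexp : x ^ (1 / 2 - ρ : ℝ) ≤ (a * (c * x)) ^ (1 / 2 - ρ / 2 : ℝ) := by
    rw [pow_zero, mul_one] at ev3
    have h0 : (0 : ℝ) ≤ 1 / 2 - ρ / 2 := by linarith
    have h1 : (c * x) ^ (1 / 2 - ρ / 2 : ℝ) ≤ (a * (c * x)) ^ (1 / 2 - ρ / 2 : ℝ) :=
      Real.rpow_le_rpow hcx0.le hax h0
    have h2 : c * x ^ (1 / 2 - ρ / 2 : ℝ) ≤ (c * x) ^ (1 / 2 - ρ / 2 : ℝ) := by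
      rw [Real.mul_rpow hc0.le hx0.le]
      apply mul_le_mul_of_nonneg_right _ (by positivity)
      calc c = c ^ (1 : ℝ) := (Real.rpow_one c).symm
        _ ≤ c ^ (1 / 2 - ρ / 2 : ℝ) :=
          Real.rpow_le_rpow_of_exponent_ge hc0 hc1 (by linarith)
    have h3 : x ^ (1 / 2 - ρ : ℝ) ≤ c * x ^ (1 / 2 - ρ / 2 : ℝ) := by
      have h4 : c * (1 / c * x ^ (1 / 2 - ρ : ℝ)) ≤ c * x ^ (1 / 2 - ρ / 2 : ℝ) := by gcongr
      calc x ^ (1 / 2 - ρ : ℝ) = c * (1 / c * x ^ (1 / 2 - ρ : ℝ)) := by field_simp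
        _ ≤ _ := h4
    linarith
  have hA : ∑ q ∈ S, (3 * K) ^ q.primeFactors.card *
      |psiLogAP (a * (c * x)) (a * m * q) (r q) -
        psiLog1 (a * (c * x)) / (Nat.totient (a * m * q) : ℝ)| ≤
      a * x / (Real.log x / 2) ^ (M + m1 + 1) := by
    refine le_trans ?_ (hBVx.trans ?_)
    · apply Finset.sum_le_sum_of_subset_of_nonneg
      · intro q hq
        rw [hSd, Finset.mem_filter, Finset.mem_Icc] at hq
        rw [Finset.mem_filter, Finset.mem_Icc]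
        refine ⟨⟨hq.1.1, hq.1.2.trans ?_⟩, hq.2⟩
        exact Nat.floor_le_floor hexp
      · intro q _ _
        positivity
    · have h1 : 0 < Real.log x / 2 := by linarith
      gcongr
  have hB : ∑ q ∈ S, (3 * K) ^ q.primeFactors.card ≤
      C' * x ^ ((1 / 2 - ρ) + (1 / 2 - ρ) * (1 / 100) : ℝ) := by
    calc ∑ q ∈ S, (3 * K) ^ q.primeFactors.card
        ≤ ∑ q ∈ S, C' * x ^ ((1 / 2 - ρ) * (1 / 100) : ℝ) := by
          apply Finset.sum_le_sum
          intro q hq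
          rw [hSd, Finset.mem_filter, Finset.mem_Icc] at hq
          refine (hΩ q hq.1.1).trans ?_
          have h1 : (q : ℝ) ≤ x ^ (1 / 2 - ρ : ℝ) :=
            (Nat.cast_le.2 hq.1.2).trans (Nat.floor_le (by positivity))
          rw [Real.rpow_mul hx0.le]
          gcongr
      _ ≤ ∑ q ∈ Icc 1 ⌊x ^ (1 / 2 - ρ : ℝ)⌋₊, C' * x ^ ((1 / 2 - ρ) * (1 / 100) : ℝ) :=
          Finset.sum_le_sum_of_subset_of_nonneg (Finset.filter_subset _ _)
            (fun _ _ _ => by positivity)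
      _ = (⌊x ^ (1 / 2 - ρ : ℝ)⌋₊ : ℝ) * (C' * x ^ ((1 / 2 - ρ) * (1 / 100) : ℝ)) := by
          rw [Finset.sum_const, Nat.card_Icc, nsmul_eq_mul]
          simp
      _ ≤ x ^ (1 / 2 - ρ : ℝ) * (C' * x ^ ((1 / 2 - ρ) * (1 / 100) : ℝ)) := by
          gcongr
          exact Nat.floor_le (by positivity)
      _ = _ := by rw [Real.rpow_add hx0]; ring
  have hlog2 : Real.log (a * (c * x)) + 1 ≤ (2 * (1 + |Real.log a|)) * Real.log x := by
    have h0 : Real.log (a * x) = Real.log a + Real.log x :=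
      Real.log_mul (by positivity) hx0.ne'
    have h1 : Real.log a ≤ |Real.log a| := le_abs_self _
    have h2 : |Real.log a| ≤ |Real.log a| * Real.log x :=
      le_mul_of_one_le_right (abs_nonneg _) hl1
    have h3 := abs_nonneg (Real.log a)
    nlinarith
  have hlax0 : 0 ≤ Real.log (a * (c * x)) + 1 := by linarith
  have hfirst : C * (Real.log x) ^ M * (C1 * (Real.log x) ^ m1 *
      (a * x / (Real.log x / 2) ^ (M + m1 + 1))) ≤ x / 2 := by
    have e : C * (Real.log x) ^ M * (C1 * (Real.log x) ^ m1 *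
        (a * x / (Real.log x / 2) ^ (M + m1 + 1))) =
        C * C1 * a * 2 ^ (M + m1 + 1) * x / Real.log x := by
      have : Real.log x ≠ 0 := by positivity
      rw [div_pow, pow_succ (Real.log x) (M + m1), pow_add (Real.log x) M m1]
      field_simp
    rw [e, div_le_div_iff₀ (by positivity) (by norm_num)]
    have h3 := mul_le_mul_of_nonneg_right ev1 hx0.le
    calc C * C1 * a * 2 ^ (M + m1 + 1) * x * 2 = 2 * (C * C1) * a * 2 ^ (M + m1 + 1) * x := by ring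
      _ ≤ Real.log x * x := h3
      _ = _ := by ring
  have hsecond : C * (Real.log x) ^ M * (C1 * (Real.log x) ^ m1 *
      (((a : ℝ) + b) ^ 2 * (Real.log (a * (c * x)) + 1) *
      (C' * x ^ ((1 / 2 - ρ) + (1 / 2 - ρ) * (1 / 100) : ℝ)))) ≤ x / 2 := by
    have h1 : C * (Real.log x) ^ M * (C1 * (Real.log x) ^ m1 *
      (((a : ℝ) + b) ^ 2 * (Real.log (a * (c * x)) + 1) *
      (C' * x ^ ((1 / 2 - ρ) + (1 / 2 - ρ) * (1 / 100) : ℝ)))) ≤
      C * (Real.log x) ^ M * (C1 * (Real.log x) ^ m1 *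
      (((a : ℝ) + b) ^ 2 * ((2 * (1 + |Real.log a|)) * Real.log x) *
      (C' * x ^ ((1 / 2 - ρ) + (1 / 2 - ρ) * (1 / 100) : ℝ)))) := by gcongr
    have h2 : C * (Real.log x) ^ M * (C1 * (Real.log x) ^ m1 *
      (((a : ℝ) + b) ^ 2 * ((2 * (1 + |Real.log a|)) * Real.log x) *
      (C' * x ^ ((1 / 2 - ρ) + (1 / 2 - ρ) * (1 / 100) : ℝ)))) * 2 =
      C * C1 * (C' * ((a : ℝ) + b) ^ 2 * (2 * (1 + |Real.log a|)) * 2) *
        (Real.log x) ^ (M + m1 + 1) *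
        x ^ ((1 / 2 - ρ) + (1 / 2 - ρ) * (1 / 100) : ℝ) := by ring
    rw [Real.rpow_one] at ev2
    linarith
  have hsumnn : 0 ≤ ∑ q ∈ S, (3 * K) ^ q.primeFactors.card *
      |psiLogAP (a * (c * x)) (a * m * q) (r q) -
        psiLog1 (a * (c * x)) / (Nat.totient (a * m * q) : ℝ)| +
      ((a : ℝ) + b) ^ 2 * (Real.log (a * (c * x)) + 1) *
        ∑ q ∈ S, (3 * K) ^ q.primeFactors.card := by
    positivity
  calc _ ≤ C * (Real.log x) ^ M * (C1 * (Real.log x) ^ m1 *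
        (a * x / (Real.log x / 2) ^ (M + m1 + 1) +
        ((a : ℝ) + b) ^ 2 * (Real.log (a * (c * x)) + 1) *
      (C' * x ^ ((1 / 2 - ρ) + (1 / 2 - ρ) * (1 / 100) : ℝ)))) := by
        apply mul_le_mul_of_nonneg_left _ (by positivity)
        apply mul_le_mul hpre _ hsumnn (by positivity)
        gcongr
    _ = C * (Real.log x) ^ M * (C1 * (Real.log x) ^ m1 *
        (a * x / (Real.log x / 2) ^ (M + m1 + 1))) +
        C * (Real.log x) ^ M * (C1 * (Real.log x) ^ m1 *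
        (((a : ℝ) + b) ^ 2 * (Real.log (a * (c * x)) + 1) *
      (C' * x ^ ((1 / 2 - ρ) + (1 / 2 - ρ) * (1 / 100) : ℝ)))) := by ring
    _ ≤ x := by linarith

end Pool.Agent.H47R4
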