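import Mathlib
import Pool.Agent.H47R4.Err

/-! Localised coloured Maynard-Tao, sharp constants: tents with arbitrary parameters. -/

namespace Pool.Agent.H47R4

open Finset Filter Topology
open Pool.Agent.H410R2 hiding GP GP_prof GP_cut_some GP_cut_none GP_lip gg_pos gg_le_one gg_anti ee_bound ee_nonneg gg_lip LB_gg LB_ee Sums exists_sums yx wx wxi Br sum_GP_none sum_GP_some sum_GP_some_ee sum_GP_some_one sum_GPr_none sum_GPr_some S1_final QI_final S2_final w_abs_le wmax gg ee I1 I2 IE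
open Pool.Agent.H361R2.GM
open Pool.Agent.H362R2.CM

variable {k : ℕ}

/-- positive part of the logarithm -/
noncomputable def LP (u : ℝ) : ℝ := max 0 (Real.log u)

/-- parameters of a tent -/
structure TC (c0 c1 c2 : ℝ) : Prop where
  h0 : 0 < c0
  h01 : c0 < c1
  h12 : c1 < c2
  h2 : c2 ≤ 1
  hg : c1 * c1 = c0 * c2

/-- the tent -/
noncomputable def tn (c0 c1 c2 x s : ℝ) : ℝ :=
  LP (c2 * x / s) - 2 * LP (c1 * x / s) + LP (c0 * x / s)

theorem TC.kpos {c0 c1 c2 : ℝ} (h : TC c0 c1 c2) : 0 < c2 - 2 * c1 + c0 := by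
  have h0 := h.h0
  have h01 := h.h01
  have hg := h.hg
  have e : c0 * (c2 - 2 * c1 + c0) = (c1 - c0) ^ 2 := by nlinarith
  have h3 : 0 < (c1 - c0) ^ 2 := by
    have : 0 < c1 - c0 := by linarith
    positivity
  rw [← e] at h3
  exact (mul_pos_iff_of_pos_left h0).1 h3

theorem LP_mul (c x s : ℝ) (hc : 0 < c) (hx : 0 < x) (hs : 0 < s) :
    LP (c * x / s) = max 0 (Real.log c + Real.log (x / s)) := by
  unfold LP
  rw [mul_div_assoc, Real.log_mul hc.ne' (by positivity)]

theorem TC.log {c0 c1 c2 : ℝ} (h : TC c0 c1 c2) : 2 * Real.log c1 = Real.log c0 + Real.log c2 := by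
  have h0 := h.h0
  have h1 : 0 < c1 := by linarith [h.h01]
  have h2 : 0 < c2 := by linarith [h.h12]
  rw [← Real.log_mul h0.ne' h2.ne', ← h.hg, Real.log_mul h1.ne' h1.ne']
  ring

theorem tn_nonneg {c0 c1 c2 : ℝ} (h : TC c0 c1 c2) (x s : ℝ) (hx : 0 < x) (hs : 0 < s) :
    0 ≤ tn c0 c1 c2 x s := by
  have h0 := h.h0
  have h1 : 0 < c1 := by linarith [h.h01]
  have h2 : 0 < c2 := by linarith [h.h12]
  unfold tn
  rw [LP_mul c2 x s h2 hx hs, LP_mul c1 x s h1 hx hs, LP_mul c0 x s h0 hx hs]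
  have hl := h.log
  set u := Real.log (x / s)
  have a2 := le_max_right 0 (Real.log c2 + u)
  have a0 := le_max_right 0 (Real.log c0 + u)
  have b2 := le_max_left 0 (Real.log c2 + u)
  have b0 := le_max_left 0 (Real.log c0 + u)
  rcases max_cases 0 (Real.log c1 + u) with ⟨e, _⟩ | ⟨e, _⟩ <;> rw [e] <;> linarith

theorem tn_low {c0 c1 c2 : ℝ} (h : TC c0 c1 c2) (x s : ℝ) (hx : 0 < x) (hs : 0 < s)
    (hsx : s ≤ c0 * x) : tn c0 c1 c2 x s = 0 := by
  have h0 := h.h0
  have h1 : 0 < c1 := by linarith [h.h01]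
  have h2 : 0 < c2 := by linarith [h.h12]
  unfold tn
  rw [LP_mul c2 x s h2 hx hs, LP_mul c1 x s h1 hx hs, LP_mul c0 x s h0 hx hs]
  have hl := h.log
  have g0 : 0 ≤ Real.log c0 + Real.log (x / s) := by
    rw [← Real.log_mul h0.ne' (by positivity)]
    apply Real.log_nonneg
    rw [← mul_div_assoc, le_div_iff₀ hs]
    linarith
  have g1 : Real.log c0 ≤ Real.log c1 := Real.log_le_log h0 h.h01.le
  have g2 : Real.log c1 ≤ Real.log c2 := Real.log_le_log h1 h.h12.le
  rw [max_eq_right (by linarith), max_eq_right (by linarith), max_eq_right g0]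
  linarith

theorem tn_high {c0 c1 c2 : ℝ} (h : TC c0 c1 c2) (x s : ℝ) (hx : 0 < x) (hs : 0 < s)
    (hsx : c2 * x ≤ s) : tn c0 c1 c2 x s = 0 := by
  have h0 := h.h0
  have h1 : 0 < c1 := by linarith [h.h01]
  have h2 : 0 < c2 := by linarith [h.h12]
  unfold tn
  rw [LP_mul c2 x s h2 hx hs, LP_mul c1 x s h1 hx hs, LP_mul c0 x s h0 hx hs]
  have g2' : Real.log c2 + Real.log (x / s) ≤ 0 := by
    rw [← Real.log_mul h2.ne' (by positivity)]
    apply Real.log_nonpos (by positivity)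
    rw [← mul_div_assoc, div_le_one hs]
    exact hsx
  have g1 : Real.log c0 ≤ Real.log c1 := Real.log_le_log h0 h.h01.le
  have g2 : Real.log c1 ≤ Real.log c2 := Real.log_le_log h1 h.h12.le
  rw [max_eq_left (by linarith), max_eq_left (by linarith), max_eq_left (by linarith)]
  ring

theorem tn_le {c0 c1 c2 : ℝ} (h : TC c0 c1 c2) (x s : ℝ) (hx : 1 ≤ x) (hs : 1 ≤ s) :
    tn c0 c1 c2 x s ≤ 2 * Real.log x := by
  have h0 := h.h0
  have h1 : 0 < c1 := by linarith [h.h01]
  have h2 : 0 < c2 := by linarith [h.h12]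
  have hc2 := h.h2
  have g : ∀ c, 0 < c → c ≤ 1 → LP (c * x / s) ≤ Real.log x := by
    intro c hc hc1
    unfold LP
    apply max_le (Real.log_nonneg hx)
    apply Real.log_le_log (by positivity)
    rw [div_le_iff₀ (by linarith)]
    have : c * x ≤ 1 * x := by gcongr
    nlinarith
  have a2 := g c2 h2 hc2
  have a0 := g c0 h0 (by linarith [h.h01, h.h12])
  have b1 : 0 ≤ LP (c1 * x / s) := le_max_left _ _
  unfold tn
  linarith

theorem tn_lip {c0 c1 c2 : ℝ} (h : TC c0 c1 c2) (x s s' : ℝ) (hx : 0 < x) (hs : 0 < s)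
    (hs' : 0 < s') : tn c0 c1 c2 x s ≤ tn c0 c1 c2 x s' + 4 * |Real.log s - Real.log s'| := by
  have h0 := h.h0
  have h1 : 0 < c1 := by linarith [h.h01]
  have h2 : 0 < c2 := by linarith [h.h12]
  have g : ∀ c, 0 < c → |LP (c * x / s) - LP (c * x / s')| ≤ |Real.log s - Real.log s'| := by
    intro c hc
    rw [LP_mul c x s hc hx hs, LP_mul c x s' hc hx hs']
    have e1 := abs_max_sub_max_le_abs (Real.log c + Real.log (x / s))
      (Real.log c + Real.log (x / s')) 0
    rw [max_comm _ 0, max_comm _ 0] at e1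
    refine e1.trans (le_of_eq ?_)
    rw [Real.log_div hx.ne' hs.ne', Real.log_div hx.ne' hs'.ne']
    rw [abs_sub_comm (Real.log s)]
    congr 1
    ring
  have a2 := (abs_le.1 (g c2 h2)).2
  have a1 := (abs_le.1 (g c1 h1)).1
  have a0 := (abs_le.1 (g c0 h0)).2
  unfold tn
  linarith

/-- comparison of the tents at `n` and at `n + b / a` -/
theorem tn_shift {c0 c1 c2 : ℝ} (h : TC c0 c1 c2) (x : ℝ) (a b n : ℕ) (ha : 1 ≤ a) (hn : 1 ≤ n)
    (B : ℝ) (hB : (b : ℝ) ≤ B) (hxB : 2 * B ≤ c0 * x) (hx : 0 < x) :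
    tn c0 c1 c2 x (((a * n + b : ℕ) : ℝ) / a) ≤ tn c0 c1 c2 x n + 8 * B / (c0 * x) ∧
    tn c0 c1 c2 x n ≤ tn c0 c1 c2 x (((a * n + b : ℕ) : ℝ) / a) + 8 * B / (c0 * x) := by
  have h0 := h.h0
  have har : (1 : ℝ) ≤ a := by exact_mod_cast ha
  have hnr : (1 : ℝ) ≤ n := by exact_mod_cast hn
  have hb0 : (0 : ℝ) ≤ b := Nat.cast_nonneg _
  have hB0 : 0 ≤ B := hb0.trans hB
  have hcx : 0 < c0 * x := by positivity
  have hE : 0 ≤ 8 * B / (c0 * x) := by positivity
  have hs : ((a * n + b : ℕ) : ℝ) / a = n + b / a := by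
    push_cast
    field_simp
  have hba : (b : ℝ) / a ≤ B := (div_le_self hb0 har).trans hB
  have hba0 : 0 ≤ (b : ℝ) / a := by positivity
  rw [hs]
  by_cases hsm : (n : ℝ) ≤ c0 * x / 2
  · rw [tn_low h x n hx (by linarith) (by linarith),
      tn_low h x (n + b / a) hx (by linarith) (by linarith)]
    constructor <;> linarith
  · push Not at hsm
    have hlog : |Real.log ((n : ℝ) + b / a) - Real.log n| ≤ 2 * B / (c0 * x) := by
      rw [← Real.log_div (by positivity) (by positivity), abs_of_nonneg]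
      · have e : ((n : ℝ) + b / a) / n = 1 + b / a / n := by field_simp
        rw [e]
        have h3 := Real.log_le_sub_one_of_pos (show 0 < 1 + (b : ℝ) / a / n by positivity)
        have h4 : (b : ℝ) / a / n ≤ 2 * B / (c0 * x) := by
          rw [div_le_div_iff₀ (by positivity) hcx]
          calc (b : ℝ) / a * (c0 * x) ≤ B * (2 * n) := by
                apply mul_le_mul hba _ hcx.le hB0
                linarith
            _ = _ := by ring
        linarith
      · apply Real.log_nonneg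
        rw [le_div_iff₀ (by positivity)]
        linarith
    have e4 : 4 * (2 * B / (c0 * x)) = 8 * B / (c0 * x) := by ring
    constructor
    · refine (tn_lip h x (n + b / a) n hx (by positivity) (by positivity)).trans ?_
      linarith
    · refine (tn_lip h x n (n + b / a) hx (by positivity) (by positivity)).trans ?_
      rw [abs_sub_comm]
      linarith

/-- sums with the truncated logarithm as sums over the long interval -/
theorem sum_LP (c x : ℝ) (hc0 : 0 < c) (hc1 : c ≤ 1) (hx : 0 < x) (p : ℕ → Prop)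
    [DecidablePred p] (W : ℕ → ℝ) :
    ∑ n ∈ (Icc 1 ⌊c * x⌋₊).filter p, Real.log (c * x / n) * W n =
      ∑ n ∈ (Icc 1 ⌊x⌋₊).filter p, LP (c * x / n) * W n := by
  have hcx : c * x ≤ x := by nlinarith
  have hcx0 : 0 < c * x := by positivity
  have hsub : (Icc 1 ⌊c * x⌋₊).filter p ⊆ (Icc 1 ⌊x⌋₊).filter p := by
    intro n hn
    rw [Finset.mem_filter, Finset.mem_Icc] at hn ⊢
    exact ⟨⟨hn.1.1, hn.1.2.trans (Nat.floor_le_floor hcx)⟩, hn.2⟩
  rw [← Finset.sum_subset hsub]
  · refine Finset.sum_congr rfl fun n hn => ?_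
    rw [Finset.mem_filter, Finset.mem_Icc] at hn
    have h1 : (n : ℝ) ≤ c * x := (Nat.cast_le.2 hn.1.2).trans (Nat.floor_le hcx0.le)
    have h2 : (0 : ℝ) < n := by exact_mod_cast hn.1.1
    unfold LP
    rw [max_eq_right]
    apply Real.log_nonneg
    rw [le_div_iff₀ h2]
    linarith
  · intro n hn hn'
    rw [Finset.mem_filter, Finset.mem_Icc] at hn
    have h2 : (0 : ℝ) < n := by exact_mod_cast hn.1.1
    have h1 : c * x < n := by
      by_contra h
      apply hn'
      rw [Finset.mem_filter, Finset.mem_Icc]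
      exact ⟨⟨hn.1.1, Nat.le_floor (not_lt.1 h)⟩, hn.2⟩
    unfold LP
    rw [max_eq_left, zero_mul]
    apply Real.log_nonpos (by positivity)
    rw [div_le_one h2]
    exact h1.le

/-- the prime sum with arbitrary weights at length `y` -/
noncomputable def FG (a b : Fin k → ℕ) (D v : ℕ) (i : Fin k) (W : ℕ → ℝ) (y : ℝ) : ℝ :=
  ∑ n ∈ (Icc 1 ⌊y⌋₊).filter
          (fun n => n ≡ v [MOD (WW D)] ∧ ((a i * n + b i : ℕ) : ℝ) ≤ a i * y),
        ArithmeticFunction.vonMangoldt (a i * n + b i) *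
          Real.log (a i * y / ((a i * n + b i : ℕ) : ℝ)) * (W n) ^ 2

theorem FG_eq (a b : Fin k → ℕ) (ha : ∀ i, 1 ≤ a i) (hb : ∀ i, 1 ≤ b i) (D v : ℕ) (i : Fin k)
    (W : ℕ → ℝ) (c x : ℝ) (hc0 : 0 < c) (hc1 : c ≤ 1) (hx : 0 < x) :
    FG a b D v i W (c * x) = ∑ n ∈ (Icc 1 ⌊x⌋₊).filter (fun n => n ≡ v [MOD (WW D)]),
        ArithmeticFunction.vonMangoldt (a i * n + b i) *
          LP (c * x / (((a i * n + b i : ℕ) : ℝ) / a i)) * (W n) ^ 2 := by
  unfold FG
  have hai : (0 : ℝ) < a i := by exact_mod_cast ha i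
  have hcx : c * x ≤ x := by nlinarith
  have hcx0 : 0 < c * x := by positivity
  have hm0 : ∀ n : ℕ, (0 : ℝ) < ((a i * n + b i : ℕ) : ℝ) := by
    intro n
    have : 1 ≤ a i * n + b i := by have := hb i; omega
    exact_mod_cast this
  have hsub : (Icc 1 ⌊c * x⌋₊).filter
          (fun n => n ≡ v [MOD (WW D)] ∧ ((a i * n + b i : ℕ) : ℝ) ≤ a i * (c * x)) ⊆
      (Icc 1 ⌊x⌋₊).filter (fun n => n ≡ v [MOD (WW D)]) := by
    intro n hn
    rw [Finset.mem_filter, Finset.mem_Icc] at hn ⊢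
    exact ⟨⟨hn.1.1, hn.1.2.trans (Nat.floor_le_floor hcx)⟩, hn.2.1⟩
  rw [← Finset.sum_subset hsub]
  · refine Finset.sum_congr rfl fun n hn => ?_
    rw [Finset.mem_filter] at hn
    have e : c * x / (((a i * n + b i : ℕ) : ℝ) / a i) = a i * (c * x) / ((a i * n + b i : ℕ) : ℝ) := by
      have := (hm0 n).ne'
      field_simp
    rw [e]
    unfold LP
    rw [max_eq_right]
    apply Real.log_nonneg
    rw [le_div_iff₀ (hm0 n)]
    linarith [hn.2.2]
  · intro n hn hn'
    have h1 : a i * (c * x) < ((a i * n + b i : ℕ) : ℝ) := by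
      by_contra h
      push Not at h
      apply hn'
      rw [Finset.mem_filter, Finset.mem_Icc] at hn ⊢
      refine ⟨⟨hn.1.1, ?_⟩, hn.2, h⟩
      apply Nat.le_floor
      push_cast at h
      have h1 : (a i : ℝ) * n ≤ a i * (c * x) := by
        have : (0 : ℝ) ≤ b i := Nat.cast_nonneg _
        linarith
      exact le_of_mul_le_mul_left h1 hai
    have e : c * x / (((a i * n + b i : ℕ) : ℝ) / a i) = a i * (c * x) / ((a i * n + b i : ℕ) : ℝ) := by
      have := (hm0 n).ne'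
      field_simp
    rw [e]
    unfold LP
    rw [max_eq_left]
    · ring
    · apply Real.log_nonpos (by have := hm0 n; positivity)
      rw [div_le_one (hm0 n)]
      exact h1.le

theorem FG_tent {c0 c1 c2 : ℝ} (h : TC c0 c1 c2) (a b : Fin k → ℕ) (ha : ∀ i, 1 ≤ a i)
    (hb : ∀ i, 1 ≤ b i) (D v : ℕ) (i : Fin k) (W : ℕ → ℝ) (x : ℝ) (hx : 0 < x) :
    FG a b D v i W (c2 * x) - 2 * FG a b D v i W (c1 * x) + FG a b D v i W (c0 * x) =
      ∑ n ∈ (Icc 1 ⌊x⌋₊).filter (fun n => n ≡ v [MOD (WW D)]),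
        ArithmeticFunction.vonMangoldt (a i * n + b i) *
          tn c0 c1 c2 x (((a i * n + b i : ℕ) : ℝ) / a i) * (W n) ^ 2 := by
  have h0 := h.h0
  have h01 := h.h01
  have h12 := h.h12
  have h2 := h.h2
  rw [FG_eq a b ha hb D v i W c2 x (by linarith) h2 hx,
    FG_eq a b ha hb D v i W c1 x (by linarith) (by linarith) hx,
    FG_eq a b ha hb D v i W c0 x h0 (by linarith) hx,
    Finset.mul_sum, ← Finset.sum_sub_distrib, ← Finset.sum_add_distrib]
  refine Finset.sum_congr rfl fun n _ => ?_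
  unfold tn
  ring

end Pool.Agent.H47R4
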