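import Mathlib
import Pool.Agent.H47R4.ErrM
import Pool.Agent.H47R4.TentG
import Pool.Agent.H362R2.CM.PairB

/-! Localised coloured Maynard-Tao, sharp constants: pairs of forms. -/

namespace Pool.Agent.H47R4

open Finset Filter Topology
open Pool.Agent.H410R2 hiding GP GP_prof GP_cut_some GP_cut_none GP_lip gg_pos gg_le_one gg_anti ee_bound ee_nonneg gg_lip LB_gg LB_ee Sums exists_sums yx wx wxi Br sum_GP_none sum_GP_some sum_GP_some_ee sum_GP_some_one sum_GPr_none sum_GPr_some S1_final QI_final S2_final w_abs_le wmax gg ee I1 I2 IE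
open Pool.Agent.H361R2.GM
open Pool.Agent.H362R2.CM

variable {k : ℕ}

theorem pair_tn {c0 c1 c2 : ℝ} (h : TC c0 c1 c2) (Q : SPar) (hT2 : S2Approx) (hBV : BVAP)
    (hPNT : PNTLog) (hPB : ProdBound)
    (hOB : OmegaBound) {a b : Fin k → ℕ} {D v : ℕ} (hc : Ctx a b D v) (ρ : ℝ) (hρ : 0 < ρ)
    (hρ1 : ρ ≤ 1 / 16) (ε : ℝ) (hε : 0 < ε) (hε1 : ε < 1 / 3) (hI1 : 0 < Q.I1) (hI2 : 0 < Q.I2)
    (hκ : ∀ x, ∏ t : IP (Pr D x), (1 + ((k + 1 : ℕ) : ℝ) * ((prP (Pr D x) t : ℝ) /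
      ((prP (Pr D x) t : ℝ) - 1) ^ 3)) ≤ 1 + ε)
    (hS : ∀ᶠ x : ℝ in atTop, Sums2 Q D ε (Lr ρ x) (Lj ρ x) (Pr D x)) :
    ∀ᶠ x : ℝ in atTop, ∀ i j : Fin k, i ≠ j →
      ∑ n ∈ ((Icc 1 ⌊x⌋₊).filter (fun n => n ≡ v [MOD (WW D)])).filter
          (fun n => (a i * n + b i).Prime ∧ (a j * n + b j).Prime),
          tn c0 c1 c2 x n * (wP Q a b (Pr D x) (Lr ρ x) n) ^ 2 ≤
      (c2 - 2 * c1 + c0) * (Q1 k D x (Lr ρ x) * γc Q k ρ ε) := by
  classical
  by_cases hk : 2 ≤ k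
  swap
  · filter_upwards with x i j hij
    exfalso
    apply hij
    apply Fin.ext
    have h1 := i.2
    have h2 := j.2
    omega
  have h0 := h.h0
  have h01 := h.h01
  have h12 := h.h12
  have hc2 := h.h2
  have hkp := h.kpos
  have hc1p : 0 < c1 := by linarith
  have hc2p : 0 < c2 := by linarith
  set κ : ℝ := c2 - 2 * c1 + c0 with hκd
  have h1ε : 0 < 1 - ε := by linarith
  have h14 : 0 < 1 / 4 - 2 * ρ := by linarith
  obtain ⟨C1, hC1, m1, hprod⟩ := prodPr_le hPB 2 (by norm_num) D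
  have hErrc : ∀ c : ℝ, 0 < c → c ≤ 1 → ∀ᶠ x : ℝ in atTop, ∀ i : Fin k, ∀ r : ℕ → ℕ,
      C1 ^ 2 * (Real.log x) ^ (2 * m1) *
      ((∏ t : IP (Pr D x), (1 + ((k + 1 : ℕ) : ℝ) / ((prP (Pr D x) t : ℝ) - 1)) *
        ((prP (Pr D x) t : ℝ) / ((prP (Pr D x) t : ℝ) - 1))) ^ 2 *
      ∑ q ∈ (Icc 1 ⌊(Real.exp ((1 / 4 - ρ / 2) * Real.log x)) ^ 2⌋₊).filter
        (fun q => Squarefree q ∧ (r q).Coprime (a i * WW D * q)),
        (3 * ((k + 1 : ℕ) : ℝ)) ^ q.primeFactors.card *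
          (|psiLogAP (a i * (c * x)) (a i * WW D * q) (r q) -
            psiLog1 (a i * (c * x)) / (Nat.totient (a i * WW D * q) : ℝ)| +
            ((a i : ℝ) + b i) ^ 2 * (Real.log (a i * (c * x)) + 1))) ≤ x := by
    intro c hc0 hc1
    rw [Filter.eventually_all]
    intro i
    exact errCM_le hBV hPB hOB ρ hρ hρ1 _
      (by push_cast; linarith [(Nat.cast_nonneg k : (0 : ℝ) ≤ k)])
      D (a i) (b i) (WW D) (hc.ha i) hc.hW c hc0 hc1 (2 * m1) (C1 ^ 2) (sq_nonneg _)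
  have hErr2 := hErrc c2 hc2p hc2
  have hErr1 := hErrc c1 hc1p (by linarith)
  have hErr0 := hErrc c0 h0 (by linarith)
  have hp2 := psiC_both hPNT a hc.ha (κ * ε / 4) (by positivity) c2 (by linarith)
  have hp1 := psiC_both hPNT a hc.ha (κ * ε / 4) (by positivity) c1 (by linarith)
  have hp0 := psiC_both hPNT a hc.ha (κ * ε / 4) (by positivity) c0 h0
  -- constants
  set g0 : ℝ := ρ ^ 2 / (1 / 4 - 2 * ρ) * ((Q.I1 + ε) ^ 4 * ((1 / 3 + ε) *
    (Q.I2 + ε) ^ (k - 2))) with hg0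
  have hg0p : 0 < g0 := by positivity
  set δ : ℝ := (1 + ε) ^ 8 / (1 - ε) ^ 4 - (1 + ε) ^ 4 / (1 - ε) ^ 3 with hδ
  have hδ0 : 0 < δ := by
    rw [hδ, sub_pos, div_lt_div_iff₀ (by positivity) (by positivity)]
    have e1 : (1 - ε) ^ 4 < (1 - ε) ^ 3 := by
      have : (1 - ε) ^ 4 = (1 - ε) ^ 3 * (1 - ε) := by ring
      rw [this]
      have h3 : 0 < (1 - ε) ^ 3 := by positivity
      nlinarith
    have e2 : (1 + ε) ^ 4 ≤ (1 + ε) ^ 8 := pow_le_pow_right₀ (by linarith) (by norm_num)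
    have h3 : 0 < (1 - ε) ^ 3 := by positivity
    have h4 : 0 < (1 + ε) ^ 4 := by positivity
    calc (1 + ε) ^ 4 * (1 - ε) ^ 4 < (1 + ε) ^ 4 * (1 - ε) ^ 3 := by gcongr
      _ ≤ (1 + ε) ^ 8 * (1 - ε) ^ 3 := by gcongr
  have hbmax : ∃ b0 : ℝ, 0 ≤ b0 ∧ ∀ i, (b i : ℝ) ≤ b0 :=
    ⟨∑ i, (b i : ℝ), Finset.sum_nonneg fun i _ => Nat.cast_nonneg _, fun i =>
      Finset.single_le_sum (f := fun i => (b i : ℝ)) (fun i _ => Nat.cast_nonneg _)
        (Finset.mem_univ i)⟩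
  obtain ⟨b0, hb0, hbb⟩ := hbmax
  filter_upwards [hprod, hErr2, hErr1, hErr0, hp2, hp1, hp0, hS,
    ptw Q hPB hOB hc ρ hρ hρ1 (1 / 10) (by positivity),
    Q1_large ρ hρ k D hc.hW hc.BDpos (8 / (κ * (g0 * δ))),
    ev_polylog (8 * b0 / c0) 1 (1 / 10) 1 (by norm_num),
    ev_polylog (1 / c0) 0 (1 - ε) 1 (by linarith),
    (tendsto_id.const_mul_atTop h0).eventually_ge_atTop (1 : ℝ),
    eventually_ge_atTop (2 * b0 / c0),
    Real.tendsto_log_atTop.eventually_ge_atTop 1, eventually_gt_atTop (1 : ℝ)]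
    with x hprod hErr2 hErr1 hErr0 hp2 hp1 hp0 hS hptw hQ1 hq1 hq2 hcx1 hxb hlx1 hx i j hij
  have hx0 : 0 < x := by linarith
  have hlx : 0 < Real.log x := by linarith
  have hL : 0 < Lr ρ x := by unfold Lr; positivity
  have hΛ : 0 < Lj ρ x := by unfold Lj; positivity
  set P := Pr D x with hPd
  have hP : ∀ p ∈ P, p.Prime ∧ D < p := Pr_prime D x
  have hP2 : ∀ p ∈ P, 2 ≤ p := fun p hp => (hP p hp).1.two_le
  have hWpos : (0 : ℝ) < WW D := by exact_mod_cast hc.hW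
  have hBpos := hc.BDpos
  have hai : (0 : ℝ) < a i := by exact_mod_cast hc.ha i
  have hai1 : (1 : ℝ) ≤ a i := by exact_mod_cast hc.ha i
  set L := Lr ρ x with hLd
  set Λ := Lj ρ x with hΛd
  have hcL : Q.c * L ≤ Λ := by
    have h1 := Q.hc1
    have h2 : Q.c * L ≤ 1 * L := by gcongr
    have h3 : L ≤ Λ := by
      rw [hLd, hΛd]
      unfold Lr Lj
      apply mul_le_mul_of_nonneg_right _ hlx.le
      linarith
    linarith
  -- the bound `B`
  set B : ℝ := ∏ t : IP P, ((prP P t : ℝ) / ((prP P t : ℝ) - 1)) with hBd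
  have hp1' : ∀ t : IP P, (0 : ℝ) < (prP P t : ℝ) - 1 := by
    intro t
    have h2 := hP2 t.1 t.2
    have : (2 : ℝ) ≤ (prP P t : ℝ) := by exact_mod_cast h2
    linarith
  have hB0 : 0 < B := Finset.prod_pos fun t _ => by
    have := hp1' t
    have : (0 : ℝ) < (prP P t : ℝ) := by linarith
    positivity
  have hB1 : B ≤ C1 * (Real.log x) ^ m1 := by
    refine le_trans ?_ hprod
    apply Finset.prod_le_prod
    · intro t _
      have := hp1' t
      have : (0 : ℝ) < (prP P t : ℝ) := by linarith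
      positivity
    · intro t _
      have h3 := hp1' t
      have h0 : (0 : ℝ) < (prP P t : ℝ) := by linarith
      have h2' := hP2 t.1 t.2
      have h2 : (2 : ℝ) ≤ (prP P t : ℝ) := by exact_mod_cast h2'
      have e : 1 + 2 / (prP P t : ℝ) = ((prP P t : ℝ) + 2) / (prP P t : ℝ) := by
        field_simp
      rw [e, div_le_div_iff₀ h3 h0]
      nlinarith
  have hB2 : B ^ 2 ≤ C1 ^ 2 * (Real.log x) ^ (2 * m1) := by
    calc B ^ 2 ≤ (C1 * (Real.log x) ^ m1) ^ 2 := pow_le_pow_left₀ hB0.le hB1 2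
      _ = _ := by rw [mul_pow, ← pow_mul]; ring
  have hU := QIz_le Q hc.hD hBpos ε hε hε1 hI1 hI2 L Λ hL hΛ P hP (hκ x) hS i j hij
  set U : ℝ := (BD D * L * (Q.I1 + ε)) ^ 2 / (BD D * Λ * (1 - ε)) ^ 2 * (1 + ε) ^ 2 *
        (BD D * L * (Q.I1 + ε)) ^ 2 *
        ((BD D * (L / 48) * (1 / 3 + ε)) * ((BD D * Λ * (1 + ε)) *
          (BD D * L * (Q.I2 + ε)) ^ (k - 2))) with hUd
  have hU0 : 0 ≤ U := by positivity
  set W : ℕ → ℝ := wI a b P i (zP Q k P L Λ j) with hW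
  set qz := QI (some i) (prP P) (cw (prP P) (zP Q k P L Λ j)) with hqz
  -- the approximations
  have happ : ∀ c : ℝ, 0 < c → 1 ≤ c * x → (∀ r : ℕ → ℕ, C1 ^ 2 * (Real.log x) ^ (2 * m1) *
      ((∏ t : IP P, (1 + ((k + 1 : ℕ) : ℝ) / ((prP P t : ℝ) - 1)) *
        ((prP P t : ℝ) / ((prP P t : ℝ) - 1))) ^ 2 *
      ∑ q ∈ (Icc 1 ⌊(Real.exp ((1 / 4 - ρ / 2) * Real.log x)) ^ 2⌋₊).filter
        (fun q => Squarefree q ∧ (r q).Coprime (a i * WW D * q)),
        (3 * ((k + 1 : ℕ) : ℝ)) ^ q.primeFactors.card *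
          (|psiLogAP (a i * (c * x)) (a i * WW D * q) (r q) -
            psiLog1 (a i * (c * x)) / (Nat.totient (a i * WW D * q) : ℝ)| +
            ((a i : ℝ) + b i) ^ 2 * (Real.log (a i * (c * x)) + 1))) ≤ x) →
      |FG a b D v i W (c * x) - psiLog1 (a i * (c * x)) / (a i * Nat.totient (WW D)) * qz| ≤ x := by
    intro c hc0 hcx hE
    obtain ⟨r, hr⟩ := S2_use hT2 hc i P hP (zP Q k P L Λ j) B hB0 (fun σ => by
        rw [abs_of_nonneg (zP_nonneg Q P hP2 L Λ hL j σ)]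
        exact zP_le_prod Q P hP2 L Λ hL hΛ hcL j σ)
      ((1 / 4 - ρ / 2) * Real.log x) (mul_nonneg (by linarith) hlx.le) (fun σ hσ => by
        refine (zP_supp Q P hP2 L Λ hL j σ hσ).trans ?_
        rw [hLd, hΛd]
        unfold Lr Lj
        have h17 : 0 ≤ (1 / 4 - ρ / 2 - (ρ / 48 + ρ + (1 / 4 - 2 * ρ))) * Real.log x :=
          mul_nonneg (by linarith only [hρ]) hlx.le
        linarith only [h17]) (c * x) hcx
    refine le_trans hr (le_trans ?_ (hE r))
    apply mul_le_mul_of_nonneg_right hB2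
    apply mul_nonneg (sq_nonneg _)
    apply Finset.sum_nonneg
    intro q _
    have hlax : 0 ≤ Real.log (a i * (c * x)) := by
      apply Real.log_nonneg
      calc (1 : ℝ) = 1 * 1 := by norm_num
        _ ≤ a i * (c * x) := mul_le_mul hai1 hcx zero_le_one hai.le
    positivity
  have hcx0 : 1 ≤ c0 * x := hcx1
  have hcx2 : 1 ≤ c2 * x :=
    hcx0.trans (mul_le_mul_of_nonneg_right (by linarith only [h01, h12]) hx0.le)
  have hcx1' : 1 ≤ c1 * x := hcx0.trans (mul_le_mul_of_nonneg_right h01.le hx0.le)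
  have A2 := (abs_le.1 (happ c2 hc2p hcx2 (hErr2 i))).2
  have A1 := (abs_le.1 (happ c1 hc1p hcx1' (hErr1 i))).1
  have A0 := (abs_le.1 (happ c0 h0 hcx0 (hErr0 i))).2
  have hp2 := hp2 i
  have hp1 := hp1 i
  have hp0 := hp0 i
  have hφ : (Nat.totient (WW D) : ℝ) = WW D * BD D := hc.tot
  have hpos : 0 < (WW D : ℝ) * BD D := by positivity
  have hden : 0 < (a i : ℝ) * Nat.totient (WW D) := by rw [hφ]; positivity
  set A : ℝ := (psiLog1 (a i * (c2 * x)) - 2 * psiLog1 (a i * (c1 * x)) +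
    psiLog1 (a i * (c0 * x))) / (a i * Nat.totient (WW D)) with hA
  have hc4 : c2 + 2 * c1 + c0 ≤ 4 := by linarith
  have hA0 : 0 ≤ A := by
    rw [hA]
    apply div_nonneg _ hden.le
    have h1 : 0 ≤ (κ - κ * ε / 4 * (c2 + 2 * c1 + c0)) * (a i * x) := by
      apply mul_nonneg _ (by positivity)
      have h5 : 0 ≤ κ * ε / 4 := by positivity
      have h6 := mul_le_mul_of_nonneg_left hc4 h5
      have h7 : κ * ε ≤ κ * 1 := mul_le_mul_of_nonneg_left (by linarith only [hε1]) hkp.le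
      linarith only [h6, h7]
    have h2 : (κ - κ * ε / 4 * (c2 + 2 * c1 + c0)) * (a i * x) =
      (1 - κ * ε / 4) * (a i * (c2 * x)) - 2 * ((1 + κ * ε / 4) * (a i * (c1 * x))) +
        (1 - κ * ε / 4) * (a i * (c0 * x)) := by
      rw [hκd]; ring
    linarith [hp2.1, hp1.2, hp0.1]
  have hA1 : A ≤ κ * ((1 + ε) * x / (WW D * BD D)) := by
    rw [hA, div_le_iff₀ hden, hφ]
    have h1 : (κ + κ * ε / 4 * (c2 + 2 * c1 + c0)) * (a i * x) ≤ κ * (1 + ε) * (a i * x) := by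
      apply mul_le_mul_of_nonneg_right _ (by positivity)
      have h5 : 0 ≤ κ * ε / 4 := by positivity
      have h6 := mul_le_mul_of_nonneg_left hc4 h5
      linarith only [h6]
    have h2 : (κ + κ * ε / 4 * (c2 + 2 * c1 + c0)) * (a i * x) =
      (1 + κ * ε / 4) * (a i * (c2 * x)) - 2 * ((1 - κ * ε / 4) * (a i * (c1 * x))) +
        (1 + κ * ε / 4) * (a i * (c0 * x)) := by
      rw [hκd]; ring
    have h3 : κ * ((1 + ε) * x / (WW D * BD D)) * (a i * (WW D * BD D)) =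
        κ * (1 + ε) * (a i * x) := by
      field_simp
    rw [h3]
    linarith [hp2.2, hp1.1, hp0.2]
  have htent : FG a b D v i W (c2 * x) - 2 * FG a b D v i W (c1 * x) + FG a b D v i W (c0 * x) ≤
      κ * ((1 + ε) * x / (WW D * BD D) * U) + 4 * x := by
    have h1 : psiLog1 (a i * (c2 * x)) / (a i * Nat.totient (WW D)) * qz -
      2 * (psiLog1 (a i * (c1 * x)) / (a i * Nat.totient (WW D)) * qz) +
      psiLog1 (a i * (c0 * x)) / (a i * Nat.totient (WW D)) * qz = A * qz := by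
      rw [hA]; ring
    have h2 : A * qz ≤ A * U := mul_le_mul_of_nonneg_left hU hA0
    have h3 : A * U ≤ κ * ((1 + ε) * x / (WW D * BD D)) * U := mul_le_mul_of_nonneg_right hA1 hU0
    have h4 : κ * ((1 + ε) * x / (WW D * BD D)) * U = κ * ((1 + ε) * x / (WW D * BD D) * U) := by
      ring
    linarith
  rw [FG_tent h a b hc.ha hc.hb D v i W x hx0] at htent
  -- conversion
  have hxb' : 2 * b0 ≤ c0 * x := by
    rw [div_le_iff₀ h0] at hxb
    linarith
  have hE0 : 0 ≤ 8 * b0 / (c0 * x) := by positivity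
  set E : ℝ := 8 * b0 / (c0 * x) with hE
  set N := (Icc 1 ⌊x⌋₊).filter (fun n => n ≡ v [MOD (WW D)]) with hN
  have hNm : ∀ n ∈ N, 1 ≤ n ∧ (n : ℝ) ≤ x := by
    intro n hn
    rw [hN, Finset.mem_filter, Finset.mem_Icc] at hn
    exact ⟨hn.1.1, (Nat.cast_le.2 hn.1.2).trans (Nat.floor_le (by positivity))⟩
  have hX : x ^ (1 - ε) ≤ c0 * x := by
    rw [pow_zero, mul_one, Real.rpow_one, one_div, inv_mul_le_iff₀ h0] at hq2
    exact hq2
  set F := N.filter (fun n => (a i * n + b i).Prime ∧ (a j * n + b j).Prime) with hF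
  set T1 : ℕ → ℝ := fun n => ArithmeticFunction.vonMangoldt (a i * n + b i) *
          tn c0 c1 c2 x (((a i * n + b i : ℕ) : ℝ) / a i) * (W n) ^ 2 with hT1
  have hT10 : ∀ n ∈ N, 0 ≤ T1 n := by
    intro n hn
    have hm0 : (0 : ℝ) < ((a i * n + b i : ℕ) : ℝ) := by
      have : 1 ≤ a i * n + b i := by have := hc.hb i; omega
      exact_mod_cast this
    have h1 := tn_nonneg h x (((a i * n + b i : ℕ) : ℝ) / a i) hx0 (by positivity)
    have hV0 : 0 ≤ ArithmeticFunction.vonMangoldt (a i * n + b i) :=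
      ArithmeticFunction.vonMangoldt_nonneg
    simp only [hT1]
    positivity
  have key : ∀ n ∈ F, (1 - ε) * Real.log x * (tn c0 c1 c2 x n * (wP Q a b P L n) ^ 2) ≤
      T1 n + Real.log x * E * x ^ (1 / 10 : ℝ) := by
    intro n hn
    rw [hF, Finset.mem_filter] at hn
    obtain ⟨hnN, hpi, hpj⟩ := hn
    obtain ⟨hn1, hnx⟩ := hNm n hnN
    have hn0 : (0 : ℝ) < n := by exact_mod_cast hn1
    have hT1n := hT10 n hnN
    have hE1 : 0 ≤ Real.log x * E * x ^ (1 / 10 : ℝ) := by positivity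
    by_cases hsm : (n : ℝ) ≤ c0 * x
    · rw [tn_low h x n hx0 hn0 hsm, zero_mul, mul_zero]
      linarith
    · push Not at hsm
      have h14' : Real.exp (Real.log x / 4) ≤ x ^ (1 - ε) := by
        rw [Real.rpow_def_of_pos hx0]
        apply Real.exp_le_exp.2
        have h15 : Real.log x * (1 / 4) ≤ Real.log x * (1 - ε) :=
          mul_le_mul_of_nonneg_left (by linarith only [hε1]) hlx.le
        linarith only [h15]
      have hge : ∀ l : Fin k, (n : ℝ) < ((a l * n + b l : ℕ) : ℝ) := by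
        intro l
        have h1 : n < a l * n + b l := by
          have h2 := Nat.mul_le_mul_right n (hc.ha l)
          have h3 := hc.hb l
          rw [one_mul] at h2
          omega
        exact_mod_cast h1
      have hbi' := not_dvd_of_big D x (a i * n + b i) hpi (by
        have h16 := hge i
        linarith only [h16, h14', hX, hsm])
      have hbj' := not_dvd_of_big D x (a j * n + b j) hpj (by
        have h16 := hge j
        linarith only [h16, h14', hX, hsm])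
      have hww : W n = wP Q a b P L n := by
        rw [hW, wI_z_eq Q a b (Pr D x) hP2 L Λ hΛ.le i j hij n hbj',
          wI_eq_aux Q a b _ L i n hbi']
      simp only [hT1]
      rw [hww, ArithmeticFunction.vonMangoldt_apply_prime hpi]
      have h5 : (1 - ε) * Real.log x ≤ Real.log ((a i * n + b i : ℕ) : ℝ) := by
        rw [← Real.log_rpow hx0]
        apply Real.log_le_log (by positivity)
        have h16 := hge i
        linarith only [h16, hX, hsm]
      set T := tn c0 c1 c2 x (((a i * n + b i : ℕ) : ℝ) / a i) with hT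
      have hm0 : (0 : ℝ) < ((a i * n + b i : ℕ) : ℝ) := lt_trans hn0 (hge i)
      have hTn : 0 ≤ T := tn_nonneg h x _ hx0 (by positivity)
      have h6 : tn c0 c1 c2 x n ≤ T + E :=
        (tn_shift h x (a i) (b i) n (hc.ha i) hn1 b0 (hbb i) hxb' hx0).2
      have h7 : 0 ≤ (wP Q a b P L n) ^ 2 := sq_nonneg _
      have h8 := (hptw n hn1 hnx).1
      calc (1 - ε) * Real.log x * (tn c0 c1 c2 x n * (wP Q a b P L n) ^ 2)
          ≤ (1 - ε) * Real.log x * ((T + E) * (wP Q a b P L n) ^ 2) := by gcongr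
        _ = (1 - ε) * Real.log x * T * (wP Q a b P L n) ^ 2 +
            (1 - ε) * (Real.log x * E * (wP Q a b P L n) ^ 2) := by ring
        _ ≤ Real.log ((a i * n + b i : ℕ) : ℝ) * T * (wP Q a b P L n) ^ 2 +
            1 * (Real.log x * E * x ^ (1 / 10 : ℝ)) := by
            gcongr
            linarith
        _ = _ := by ring
  set S := ∑ n ∈ F, tn c0 c1 c2 x n * (wP Q a b P L n) ^ 2 with hSd
  have hconv : (1 - ε) * Real.log x * S ≤ κ * ((1 + ε) * x / (WW D * BD D) * U) + 5 * x := by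
    have h1 : (1 - ε) * Real.log x * S ≤ ∑ n ∈ F, (T1 n + Real.log x * E * x ^ (1 / 10 : ℝ)) := by
      rw [hSd, Finset.mul_sum]
      exact Finset.sum_le_sum key
    rw [Finset.sum_add_distrib, Finset.sum_const, nsmul_eq_mul] at h1
    have h2 : ∑ n ∈ F, T1 n ≤ ∑ n ∈ N, T1 n :=
      Finset.sum_le_sum_of_subset_of_nonneg (Finset.filter_subset _ _)
        (fun n hn _ => hT10 n hn)
    have h3 : (F.card : ℝ) * (Real.log x * E * x ^ (1 / 10 : ℝ)) ≤ x := by
      have h4 : (F.card : ℝ) ≤ x := by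
        calc (F.card : ℝ) ≤ ((Icc 1 ⌊x⌋₊).card : ℝ) := by
              exact_mod_cast Finset.card_le_card ((Finset.filter_subset _ _).trans
                (Finset.filter_subset _ _))
          _ = (⌊x⌋₊ : ℝ) := by rw [Nat.card_Icc]; simp
          _ ≤ x := Nat.floor_le hx0.le
      rw [Real.rpow_one, pow_one] at hq1
      refine le_trans ?_ hq1
      calc (F.card : ℝ) * (Real.log x * E * x ^ (1 / 10 : ℝ))
          ≤ x * (Real.log x * E * x ^ (1 / 10 : ℝ)) := by gcongr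
        _ = _ := by
            rw [hE]
            field_simp
    linarith
  have halg := pair_alg x (WW D) (BD D) L Λ (Real.log x) ρ ε Q.I1 Q.I2 k hk hWpos hBpos hlx hρ hρ1
    hε1 rfl rfl
  rw [← hUd] at halg
  rw [halg] at hconv
  have hl0 : 0 < (1 - ε) * Real.log x := by positivity
  have hQ1' : 8 * x ≤ κ * (Q1 k D x L * (g0 * δ)) := by
    have h4 : 0 < κ * (g0 * δ) := by positivity
    have := mul_le_mul_of_nonneg_right hQ1 h4.le
    calc 8 * x = 8 / (κ * (g0 * δ)) * x * (κ * (g0 * δ)) := by field_simp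
      _ ≤ Q1 k D x L * (κ * (g0 * δ)) := this
      _ = _ := by ring
  have h5x : 5 * x ≤ 8 * x * ((1 - ε) * Real.log x) := by
    have h5 : 2 / 3 ≤ (1 - ε) * Real.log x := by
      calc (2 / 3 : ℝ) ≤ (1 - ε) * 1 := by linarith only [hε1]
        _ ≤ _ := by gcongr
    have h6 : 8 * x * (2 / 3) ≤ 8 * x * ((1 - ε) * Real.log x) :=
      mul_le_mul_of_nonneg_left h5 (by positivity)
    linarith only [h6, hx0]
  have hfin : (1 - ε) * Real.log x * S ≤ (1 - ε) * Real.log x *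
      (κ * (Q1 k D x L * (g0 * ((1 + ε) ^ 4 / (1 - ε) ^ 3))) + 8 * x) := by
    refine hconv.trans ?_
    have e : (x / WW D * (BD D * (L / 48) * (BD D * L) ^ k)) = Q1 k D x L := rfl
    rw [e, hg0]
    have e2 : κ * (Q1 k D x L * (ρ ^ 2 / (1 / 4 - 2 * ρ) *
        ((1 + ε) ^ 4 / (1 - ε) ^ 3) * ((Q.I1 + ε) ^ 4 * ((1 / 3 + ε) * (Q.I2 + ε) ^ (k - 2)))) *
        ((1 - ε) * Real.log x)) = (1 - ε) * Real.log x * (κ * (Q1 k D x L *
        (ρ ^ 2 / (1 / 4 - 2 * ρ) *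
        ((Q.I1 + ε) ^ 4 * ((1 / 3 + ε) * (Q.I2 + ε) ^ (k - 2))) *
          ((1 + ε) ^ 4 / (1 - ε) ^ 3)))) := by ring
    rw [e2, mul_add]
    linarith
  have hS2 : S ≤ κ * (Q1 k D x L * (g0 * ((1 + ε) ^ 4 / (1 - ε) ^ 3))) + 8 * x :=
    le_of_mul_le_mul_left hfin hl0
  calc S ≤ κ * (Q1 k D x L * (g0 * ((1 + ε) ^ 4 / (1 - ε) ^ 3))) + 8 * x := hS2
    _ ≤ κ * (Q1 k D x L * (g0 * ((1 + ε) ^ 4 / (1 - ε) ^ 3))) +
        κ * (Q1 k D x L * (g0 * δ)) := by linarith
    _ = κ * (Q1 k D x L * (g0 * ((1 + ε) ^ 8 / (1 - ε) ^ 4))) := by rw [hδ]; ring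
    _ = _ := by
        rw [hg0]
        unfold γc
        ring

end Pool.Agent.H47R4
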