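import Mathlib
import Pool.Agent.H361R2.T1

/-! The first sieve sum: two-sided form and tents (port of `H361R2.s1Upper`). -/

namespace Pool.Agent.H47R4

open Finset Pool.Agent.H410R2 Pool.Agent.H361R2

/-- the model quadratic form of the first sum -/
noncomputable def QQ {ι J : Type} [Fintype ι] [DecidableEq ι] [Fintype J] [DecidableEq J]
    (pr : ι → ℕ) (c : (ι → Option J) → ℝ) : ℝ :=
  ∑ σ : ι → Option J, ∑ τ : ι → Option J, c σ * c τ * ∏ t, G1 (pr t) (σ t) (τ t)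

open Classical in
theorem s1_two (ι J : Type) [Fintype ι] [Fintype J]
    (pr : ι → ℕ) (L : J → ℕ → ℕ) (m v : ℕ) (hm : 1 ≤ m) (hS : SieveData ι J pr L m)
    (c : (ι → Option J) → ℝ) (x : ℝ) (hx : 1 ≤ x) :
    |∑ n ∈ (Icc 1 ⌊x⌋₊).filter (fun n => n ≡ v [MOD m]),
        Real.log (x / n) * (∑ σ, c σ * hN L pr σ n) ^ 2 - x / m * QQ pr c| ≤
        (Real.log x + 1) * (∑ σ, |c σ| * mulc pr (fun p => (p : ℝ) + 1) σ) ^ 2 := by
  have hlog : 0 ≤ Real.log x := Real.log_nonneg hx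
  -- expand the square
  have hexp : ∀ n, (∑ σ, c σ * hN L pr σ n) ^ 2 = ∑ σ, ∑ τ, c σ * c τ *
      ∏ t, (∑ o, cc (pr t) (σ t) (τ t) o * ind L (pr t) n o) := by
    intro n
    rw [sq, Finset.sum_mul_sum]
    apply Finset.sum_congr rfl; intro σ _
    apply Finset.sum_congr rfl; intro τ _
    have : hN L pr σ n * hN L pr τ n =
        ∏ t, (∑ o, cc (pr t) (σ t) (τ t) o * ind L (pr t) n o) := by
      unfold hN
      rw [← Finset.prod_mul_distrib]
      apply Finset.prod_congr rfl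
      intro t _
      exact hl_mul (hS.excl t · · n) _ _
    rw [← this]; ring
  have hswap : ∑ n ∈ (Icc 1 ⌊x⌋₊).filter (fun n => n ≡ v [MOD m]),
        Real.log (x / n) * (∑ σ, c σ * hN L pr σ n) ^ 2 =
      ∑ σ : ι → Option J, ∑ τ : ι → Option J, c σ * c τ *
        ∑ n ∈ (Icc 1 ⌊x⌋₊).filter (fun n => n ≡ v [MOD m]), Real.log (x / n) *
          ∏ t, (∑ o, cc (pr t) (σ t) (τ t) o * ind L (pr t) n o) := by
    simp only [hexp, Finset.mul_sum]
    rw [Finset.sum_comm]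
    apply Finset.sum_congr rfl; intro σ _
    rw [Finset.sum_comm]
    apply Finset.sum_congr rfl; intro τ _
    apply Finset.sum_congr rfl; intro n _
    ring
  have hterm : ∀ σ τ : ι → Option J, |c σ * c τ *
        ∑ n ∈ (Icc 1 ⌊x⌋₊).filter (fun n => n ≡ v [MOD m]), Real.log (x / n) *
          ∏ t, (∑ o, cc (pr t) (σ t) (τ t) o * ind L (pr t) n o) -
      x / m * (c σ * c τ * ∏ t, G1 (pr t) (σ t) (τ t))| ≤ (Real.log x + 1) *
        ((|c σ| * mulc pr (fun p => (p : ℝ) + 1) σ) * (|c τ| * mulc pr (fun p => (p : ℝ) + 1) τ)) := by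
    intro σ τ
    have h1 := local_expand v hm hS hx (fun t o => cc (pr t) (σ t) (τ t) o)
    have h2 : ∏ t, (∑ o, |cc (pr t) (σ t) (τ t) o|) ≤ mulc pr (fun p => (p : ℝ) + 1) σ *
        mulc pr (fun p => (p : ℝ) + 1) τ := by
      unfold mulc
      rw [← Finset.prod_mul_distrib]
      apply Finset.prod_le_prod
      · intro t _
        exact Finset.sum_nonneg fun o _ => abs_nonneg _
      · intro t _
        refine (cc_abs (hS.prime t).two_le _ _).trans (le_of_eq ?_)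
        rcases σ t with _ | j <;> rcases τ t with _ | l <;> simp [w1]
    have h3 : ∏ t, (∑ o, cc (pr t) (σ t) (τ t) o * dn (pr t) o) = ∏ t, G1 (pr t) (σ t) (τ t) :=
      Finset.prod_congr rfl fun t _ => cc_dn (hS.prime t).pos _ _
    rw [h3] at h1
    set S := ∑ n ∈ (Icc 1 ⌊x⌋₊).filter (fun n => n ≡ v [MOD m]), Real.log (x / n) *
          ∏ t, (∑ o, cc (pr t) (σ t) (τ t) o * ind L (pr t) n o) with hSdef
    set P := ∏ t, G1 (pr t) (σ t) (τ t) with hP
    have h4 : |S - x / m * P| ≤ (Real.log x + 1) * (mulc pr (fun p => (p : ℝ) + 1) σ *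
        mulc pr (fun p => (p : ℝ) + 1) τ) :=
      h1.trans (mul_le_mul_of_nonneg_left h2 (by linarith))
    have h6 : |c σ| * |c τ| * |S - x / m * P| ≤ |c σ| * |c τ| * ((Real.log x + 1) *
        (mulc pr (fun p => (p : ℝ) + 1) σ * mulc pr (fun p => (p : ℝ) + 1) τ)) :=
      mul_le_mul_of_nonneg_left h4 (by positivity)
    have h5 : c σ * c τ * S - x / m * (c σ * c τ * P) = c σ * c τ * (S - x / m * P) := by ring
    rw [h5, abs_mul, abs_mul]
    calc |c σ| * |c τ| * |S - x / m * P| ≤ |c σ| * |c τ| * ((Real.log x + 1) *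
        (mulc pr (fun p => (p : ℝ) + 1) σ * mulc pr (fun p => (p : ℝ) + 1) τ)) := h6
      _ = _ := by ring
  rw [hswap]
  unfold QQ
  rw [Finset.mul_sum, ← Finset.sum_sub_distrib]
  have e1 : ∀ σ : ι → Option J, x / m * ∑ τ : ι → Option J, c σ * c τ * ∏ t, G1 (pr t) (σ t) (τ t) =
      ∑ τ : ι → Option J, x / m * (c σ * c τ * ∏ t, G1 (pr t) (σ t) (τ t)) := fun σ =>
    Finset.mul_sum _ _ _
  simp only [e1, ← Finset.sum_sub_distrib]
  refine (Finset.abs_sum_le_sum_abs _ _).trans ?_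
  have hfin : (Real.log x + 1) * (∑ σ, |c σ| * mulc pr (fun p => (p : ℝ) + 1) σ) ^ 2 =
      ∑ σ : ι → Option J, ∑ τ : ι → Option J, (Real.log x + 1) *
        ((|c σ| * mulc pr (fun p => (p : ℝ) + 1) σ) * (|c τ| * mulc pr (fun p => (p : ℝ) + 1) τ)) := by
    rw [sq, Finset.sum_mul_sum, Finset.mul_sum]
    apply Finset.sum_congr rfl; intro σ _
    rw [Finset.mul_sum]
  rw [hfin]
  refine Finset.sum_le_sum fun σ _ => ?_
  refine (Finset.abs_sum_le_sum_abs _ _).trans ?_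
  exact Finset.sum_le_sum fun τ _ => hterm σ τ

open Classical in
theorem QQ_le (ι J : Type) [Fintype ι] [Fintype J]
    (pr : ι → ℕ) (L : J → ℕ → ℕ) (m : ℕ) (hS : SieveData ι J pr L m)
    (c : (ι → Option J) → ℝ) : QQ pr c ≤ ∑ σ, c σ ^ 2 * mulc pr (fun p => (p : ℝ)) σ := by
  have hgram : IsGram (fun σ τ : ι → Option J =>
      ∏ t, (if σ t = τ t then D1 (pr t) (σ t) else 0) - ∏ t, G1 (pr t) (σ t) (τ t)) :=
    IsGram.prod_sub univ (G := fun (t : ι) (σ τ : ι → Option J) => G1 (pr t) (σ t) (τ t))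
      (D := fun (t : ι) (σ τ : ι → Option J) => if σ t = τ t then D1 (pr t) (σ t) else 0)
      (fun t _ => (isGram_G1 hS t).pull (fun σ : ι → Option J => σ t))
      (fun t _ => (isGram_D1_sub (pr t)).pull (fun σ : ι → Option J => σ t))
  have hnn := hgram.nonneg c
  have hsplit : ∑ σ : ι → Option J, ∑ τ : ι → Option J, c σ * c τ *
      (∏ t, (if σ t = τ t then D1 (pr t) (σ t) else 0) - ∏ t, G1 (pr t) (σ t) (τ t)) =
      ∑ σ, c σ ^ 2 * mulc pr (fun p => (p : ℝ)) σ -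
      ∑ σ : ι → Option J, ∑ τ : ι → Option J, c σ * c τ * ∏ t, G1 (pr t) (σ t) (τ t) := by
    rw [← Finset.sum_sub_distrib]
    apply Finset.sum_congr rfl; intro σ _
    simp only [mul_sub, Finset.sum_sub_distrib]
    congr 1
    rw [Finset.sum_eq_single σ]
    · have : ∏ t, (if σ t = σ t then D1 (pr t) (σ t) else 0) = mulc pr (fun p => (p : ℝ)) σ := by
        unfold mulc
        apply Finset.prod_congr rfl
        intro t _
        rcases σ t with _ | j <;> simp [D1]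
      rw [this]; ring
    · intro τ _ hτ
      have : ∃ t, σ t ≠ τ t := by
        by_contra hc
        push Not at hc
        exact hτ (funext fun t => (hc t).symm)
      obtain ⟨t, ht⟩ := this
      rw [Finset.prod_eq_zero (mem_univ t) (by rw [if_neg ht]), mul_zero]
    · intro h; exact absurd (mem_univ σ) h
  rw [hsplit] at hnn
  unfold QQ
  linarith

open Classical in
theorem s1_tent' (ι J : Type) [Fintype ι] [Fintype J]
    (pr : ι → ℕ) (L : J → ℕ → ℕ) (m v : ℕ) (hm : 1 ≤ m) (hS : SieveData ι J pr L m)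
    (c : (ι → Option J) → ℝ) (y0 y1 y2 : ℝ) (h0 : 1 ≤ y0) (h01 : y0 ≤ y1) (h12 : y1 ≤ y2)
    (hκ : 0 ≤ y2 - 2 * y1 + y0) :
    (∑ n ∈ (Icc 1 ⌊y2⌋₊).filter (fun n => n ≡ v [MOD m]),
        Real.log (y2 / n) * (∑ σ, c σ * hN L pr σ n) ^ 2) -
    2 * (∑ n ∈ (Icc 1 ⌊y1⌋₊).filter (fun n => n ≡ v [MOD m]),
        Real.log (y1 / n) * (∑ σ, c σ * hN L pr σ n) ^ 2) +
    (∑ n ∈ (Icc 1 ⌊y0⌋₊).filter (fun n => n ≡ v [MOD m]),
        Real.log (y0 / n) * (∑ σ, c σ * hN L pr σ n) ^ 2) ≤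
      (y2 - 2 * y1 + y0) / m * ∑ σ, c σ ^ 2 * mulc pr (fun p => (p : ℝ)) σ +
        4 * ((Real.log y2 + 1) * (∑ σ, |c σ| * mulc pr (fun p => (p : ℝ) + 1) σ) ^ 2) := by
  have a2 := (abs_le.1 (s1_two ι J pr L m v hm hS c y2 (by linarith))).2
  have a1 := (abs_le.1 (s1_two ι J pr L m v hm hS c y1 (by linarith))).1
  have a0 := (abs_le.1 (s1_two ι J pr L m v hm hS c y0 (by linarith))).2
  have hQ := QQ_le ι J pr L m hS c
  set q := QQ pr c with hq
  set E := (∑ σ, |c σ| * mulc pr (fun p => (p : ℝ) + 1) σ) ^ 2 with hE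
  have hE0 : 0 ≤ E := sq_nonneg _
  have hmr : (0 : ℝ) < m := by exact_mod_cast hm
  have l1 : Real.log y1 ≤ Real.log y2 := Real.log_le_log (by linarith) h12
  have l0 : Real.log y0 ≤ Real.log y2 := Real.log_le_log (by linarith) (h01.trans h12)
  have b1 : (Real.log y1 + 1) * E ≤ (Real.log y2 + 1) * E := by gcongr
  have b0 : (Real.log y0 + 1) * E ≤ (Real.log y2 + 1) * E := by gcongr
  have hQ' := mul_le_mul_of_nonneg_left hQ (div_nonneg hκ hmr.le)
  have e3 : (y2 - 2 * y1 + y0) / m * q = y2 / m * q - 2 * (y1 / m * q) + y0 / m * q := by ring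
  linarith

/-- the first sum with a tent weight -/
theorem s1_tent {ι J : Type} [Fintype ι] [DecidableEq ι] [Fintype J] [DecidableEq J]
    (pr : ι → ℕ) (L : J → ℕ → ℕ) (m v : ℕ) (hm : 1 ≤ m) (hS : SieveData ι J pr L m)
    (c : (ι → Option J) → ℝ) (y0 y1 y2 : ℝ) (h0 : 1 ≤ y0) (h01 : y0 ≤ y1) (h12 : y1 ≤ y2)
    (hκ : 0 ≤ y2 - 2 * y1 + y0) :
    (∑ n ∈ (Icc 1 ⌊y2⌋₊).filter (fun n => n ≡ v [MOD m]),
        Real.log (y2 / n) * (∑ σ, c σ * hN L pr σ n) ^ 2) -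
    2 * (∑ n ∈ (Icc 1 ⌊y1⌋₊).filter (fun n => n ≡ v [MOD m]),
        Real.log (y1 / n) * (∑ σ, c σ * hN L pr σ n) ^ 2) +
    (∑ n ∈ (Icc 1 ⌊y0⌋₊).filter (fun n => n ≡ v [MOD m]),
        Real.log (y0 / n) * (∑ σ, c σ * hN L pr σ n) ^ 2) ≤
      (y2 - 2 * y1 + y0) / m * ∑ σ, c σ ^ 2 * mulc pr (fun p => (p : ℝ)) σ +
        4 * ((Real.log y2 + 1) * (∑ σ, |c σ| * mulc pr (fun p => (p : ℝ) + 1) σ) ^ 2) := by
  rename_i i1 i2 i3 i4
  have e1 : i2 = (fun a b => Classical.propDecidable (a = b)) := Subsingleton.elim _ _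
  have e2 : i4 = (fun a b => Classical.propDecidable (a = b)) := Subsingleton.elim _ _
  subst e1 e2
  exact s1_tent' ι J pr L m v hm hS c y0 y1 y2 h0 h01 h12 hκ

end Pool.Agent.H47R4
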