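import Mathlib
import Pool.Agent.H47R4.S1T
import Pool.Agent.H362R2.CM.Core

/-! The first sieve sum with a tent weight (port of `S1_le` and `S1_P`). -/

namespace Pool.Agent.H47R4

open Finset Filter Topology
open Pool.Agent.H410R2 hiding GP GP_prof GP_cut_some GP_cut_none GP_lip gg_pos gg_le_one gg_anti ee_bound ee_nonneg gg_lip LB_gg LB_ee Sums exists_sums yx wx wxi Br sum_GP_none sum_GP_some sum_GP_some_ee sum_GP_some_one sum_GPr_none sum_GPr_some S1_final QI_final S2_final w_abs_le wmax gg ee I1 I2 IE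
open Pool.Agent.H361R2.GM
open Pool.Agent.H362R2.CM

section
variable {ι J : Type} [Fintype ι] [DecidableEq ι] [Fintype J] [DecidableEq J]

/-- upper bound for the sieve sum with weights dominated by a product, tent form -/
theorem S1_le_tent (pr : ι → ℕ) (L : J → ℕ → ℕ) (m v : ℕ) (hm : 1 ≤ m)
    (hs : SieveData ι J pr L m) (y : (ι → Option J) → ℝ) (GG : J → Finset ι → ℝ)
    (Λ R' : ℝ) (hΛ : 0 ≤ Λ) (hGG0 : ∀ j a, 0 ≤ GG j a) (hGG1 : ∀ j a, GG j a ≤ 1)
    (hy : ∀ σ, |y σ| ≤ Λ * ∏ j, GG j (fib σ j))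
    (hR : ∀ σ, y σ ≠ 0 → lgt pr σ ≤ R') (y0 y1 y2 : ℝ) (h0 : 1 ≤ y0) (h01 : y0 ≤ y1)
    (h12 : y1 ≤ y2) (hκ : 0 ≤ y2 - 2 * y1 + y0) :
    (∑ n ∈ (Icc 1 ⌊y2⌋₊).filter (fun n => n ≡ v [MOD m]),
        Real.log (y2 / n) * (∑ σ, cw pr y σ * hN L pr σ n) ^ 2) -
    2 * (∑ n ∈ (Icc 1 ⌊y1⌋₊).filter (fun n => n ≡ v [MOD m]),
        Real.log (y1 / n) * (∑ σ, cw pr y σ * hN L pr σ n) ^ 2) +
    (∑ n ∈ (Icc 1 ⌊y0⌋₊).filter (fun n => n ≡ v [MOD m]),
        Real.log (y0 / n) * (∑ σ, cw pr y σ * hN L pr σ n) ^ 2) ≤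
      Λ ^ 2 * ((y2 - 2 * y1 + y0) / m *
          ∏ j, ∑ a : Finset ι, (∏ t ∈ a, (pr t : ℝ) / ((pr t : ℝ) - 1) ^ 2) * GG j a ^ 2 +
        4 * ((Real.log y2 + 1) *
          (Real.exp R' * ∏ t, (1 + 3 * (Fintype.card J : ℝ) / (pr t : ℝ))) ^ 2)) := by
  have hp : ∀ t, 2 ≤ pr t := fun t => (hs.prime t).two_le
  have hp1 : ∀ t, (0 : ℝ) < (pr t : ℝ) - 1 := by
    intro t
    have : (2 : ℝ) ≤ pr t := by exact_mod_cast hp t
    linarith
  have hp0 : ∀ t, (0 : ℝ) < (pr t : ℝ) := fun t => by have := hp1 t; linarith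
  refine le_trans (s1_tent pr L m v hm hs (cw pr y) y0 y1 y2 h0 h01 h12 hκ) ?_
  have hlog : 0 ≤ Real.log y2 := Real.log_nonneg (by linarith)
  have hx0 : 0 ≤ (y2 - 2 * y1 + y0) / m := by positivity
  -- first term
  have h1 : ∑ σ, cw pr y σ ^ 2 * mulc pr (fun p => (p : ℝ)) σ ≤
      Λ ^ 2 * ∏ j, ∑ a : Finset ι, (∏ t ∈ a, (pr t : ℝ) / ((pr t : ℝ) - 1) ^ 2) * GG j a ^ 2 := by
    calc ∑ σ, cw pr y σ ^ 2 * mulc pr (fun p => (p : ℝ)) σ
        ≤ ∑ σ : ι → Option J, Λ ^ 2 * ∏ j, ((∏ t ∈ fib σ j, (pr t : ℝ) / ((pr t : ℝ) - 1) ^ 2) *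
            GG j (fib σ j) ^ 2) := by
          apply Finset.sum_le_sum
          intro σ _
          rw [Finset.prod_mul_distrib, ← sq_abs (cw pr y σ), abs_cw pr hp, mul_pow]
          have e1 : (mulc pr (fun p => 1 / ((p : ℝ) - 1)) σ) ^ 2 * mulc pr (fun p => (p : ℝ)) σ =
              ∏ j, ∏ t ∈ fib σ j, (pr t : ℝ) / ((pr t : ℝ) - 1) ^ 2 := by
            rw [prod_color (fun t => (pr t : ℝ) / ((pr t : ℝ) - 1) ^ 2)]
            unfold mulc
            rw [← Finset.prod_pow, ← Finset.prod_mul_distrib]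
            refine Finset.prod_congr rfl fun t _ => ?_
            by_cases h : σ t = none
            · simp [h]
            · simp only [h, if_false]
              have := (hp1 t).ne'
              field_simp
          have e2 : |y σ| ^ 2 ≤ Λ ^ 2 * ∏ j, GG j (fib σ j) ^ 2 := by
            rw [Finset.prod_pow, ← mul_pow]
            exact pow_le_pow_left₀ (abs_nonneg _) (hy σ) 2
          have e3 : 0 ≤ ∏ j, ∏ t ∈ fib σ j, (pr t : ℝ) / ((pr t : ℝ) - 1) ^ 2 :=
            Finset.prod_nonneg fun j _ => Finset.prod_nonneg fun t _ => by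
              have := hp1 t
              have := hp0 t
              positivity
          calc _ = ((mulc pr (fun p => 1 / ((p : ℝ) - 1)) σ) ^ 2 *
                mulc pr (fun p => (p : ℝ)) σ) * |y σ| ^ 2 := by ring
            _ ≤ (∏ j, ∏ t ∈ fib σ j, (pr t : ℝ) / ((pr t : ℝ) - 1) ^ 2) *
                (Λ ^ 2 * ∏ j, GG j (fib σ j) ^ 2) := by
                rw [e1]
                exact mul_le_mul_of_nonneg_left e2 e3
            _ = _ := by ring
      _ = Λ ^ 2 * ∑ σ : ι → Option J, ∏ j, ((∏ t ∈ fib σ j, (pr t : ℝ) / ((pr t : ℝ) - 1) ^ 2) *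
            GG j (fib σ j) ^ 2) := by rw [Finset.mul_sum]
      _ ≤ _ := by
          apply mul_le_mul_of_nonneg_left _ (sq_nonneg _)
          apply sum_tuple_le (fun j a => (∏ t ∈ a, (pr t : ℝ) / ((pr t : ℝ) - 1) ^ 2) * GG j a ^ 2)
          intro j a
          apply mul_nonneg _ (sq_nonneg _)
          exact Finset.prod_nonneg fun t _ => by
              have := hp1 t
              have := hp0 t
              positivity
  have h2 : ∑ σ, |cw pr y σ| * mulc pr (fun p => (p : ℝ) + 1) σ ≤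
      Λ * (Real.exp R' * ∏ t, (1 + 3 * (Fintype.card J : ℝ) / (pr t : ℝ))) := by
    calc ∑ σ, |cw pr y σ| * mulc pr (fun p => (p : ℝ) + 1) σ
        ≤ ∑ σ : ι → Option J, (if lgt pr σ ≤ R' then
            Λ * mulc pr (fun p => ((p : ℝ) + 1) / ((p : ℝ) - 1)) σ else 0) := by
          apply Finset.sum_le_sum
          intro σ _
          rw [abs_cw pr hp]
          have e1 : mulc pr (fun p => 1 / ((p : ℝ) - 1)) σ * mulc pr (fun p => (p : ℝ) + 1) σ =
              mulc pr (fun p => ((p : ℝ) + 1) / ((p : ℝ) - 1)) σ := by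
            unfold mulc
            rw [← Finset.prod_mul_distrib]
            refine Finset.prod_congr rfl fun t _ => ?_
            by_cases h : σ t = none
            · simp [h]
            · simp only [h, if_false]
              ring
          have e0 : 0 ≤ mulc pr (fun p => ((p : ℝ) + 1) / ((p : ℝ) - 1)) σ := by
            unfold mulc
            apply Finset.prod_nonneg
            intro t _
            split_ifs
            · norm_num
            · have := hp1 t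
              have := hp0 t
              positivity
          by_cases hy0 : y σ = 0
          · rw [hy0]
            simp only [abs_zero, mul_zero, zero_mul]
            split_ifs
            · positivity
            · exact le_rfl
          · rw [if_pos (hR σ hy0)]
            have e2 : |y σ| ≤ Λ := by
              refine le_trans (hy σ) ?_
              have : ∏ j, GG j (fib σ j) ≤ 1 :=
                Finset.prod_le_one (fun j _ => hGG0 j _) (fun j _ => hGG1 j _)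
              nlinarith
            calc _ = |y σ| * (mulc pr (fun p => 1 / ((p : ℝ) - 1)) σ *
                  mulc pr (fun p => (p : ℝ) + 1) σ) := by ring
              _ ≤ _ := by
                rw [e1]
                exact mul_le_mul_of_nonneg_right e2 e0
      _ = Λ * ∑ σ ∈ univ.filter (fun σ : ι → Option J => lgt pr σ ≤ R'),
          mulc pr (fun p => ((p : ℝ) + 1) / ((p : ℝ) - 1)) σ := by
          rw [Finset.mul_sum, Finset.sum_filter]
      _ ≤ _ := mul_le_mul_of_nonneg_left (rankin pr hp R') hΛ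
  have h3 : 0 ≤ ∑ σ, |cw pr y σ| * mulc pr (fun p => (p : ℝ) + 1) σ := by
    apply Finset.sum_nonneg
    intro σ _
    apply mul_nonneg (abs_nonneg _)
    unfold mulc
    apply Finset.prod_nonneg
    intro t _
    split_ifs
    · norm_num
    · have := hp0 t
      positivity
  calc (y2 - 2 * y1 + y0) / m * ∑ σ, cw pr y σ ^ 2 * mulc pr (fun p => (p : ℝ)) σ +
        4 * ((Real.log y2 + 1) * (∑ σ, |cw pr y σ| * mulc pr (fun p => (p : ℝ) + 1) σ) ^ 2)
      ≤ (y2 - 2 * y1 + y0) / m * (Λ ^ 2 * ∏ j, ∑ a : Finset ι,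
          (∏ t ∈ a, (pr t : ℝ) / ((pr t : ℝ) - 1) ^ 2) *
          GG j a ^ 2) + 4 * ((Real.log y2 + 1) * (Λ * (Real.exp R' *
            ∏ t, (1 + 3 * (Fintype.card J : ℝ) / (pr t : ℝ)))) ^ 2) := by
        gcongr
    _ = _ := by ring

end

variable {k : ℕ}

theorem S1_P_tent (Q : SPar) {a b : Fin k → ℕ} {D v : ℕ} (hc : Ctx a b D v) (ε : ℝ)
    (hε : 0 < ε) (hI2 : 0 < Q.I2) (x : ℝ) (hx : 1 < x) (L : ℝ) (hL : 0 < L) (P : Finset ℕ)
    (hP : ∀ p ∈ P, p.Prime ∧ D < p) (hS : Sums Q D ε (k + 1) L (L / 48) P)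
    (c0 c1 c2 : ℝ) (h0 : 1 ≤ c0 * x) (h01 : c0 ≤ c1)
    (h12 : c1 ≤ c2) (hκ : 0 ≤ c2 - 2 * c1 + c0) :
    (∑ n ∈ (Icc 1 ⌊c2 * x⌋₊).filter (fun n => n ≡ v [MOD (WW D)]),
        Real.log (c2 * x / n) * (wP Q a b P L n) ^ 2) -
    2 * (∑ n ∈ (Icc 1 ⌊c1 * x⌋₊).filter (fun n => n ≡ v [MOD (WW D)]),
        Real.log (c1 * x / n) * (wP Q a b P L n) ^ 2) +
    (∑ n ∈ (Icc 1 ⌊c0 * x⌋₊).filter (fun n => n ≡ v [MOD (WW D)]),
        Real.log (c0 * x / n) * (wP Q a b P L n) ^ 2) ≤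
      (c2 - 2 * c1 + c0) * (Q1 k D x L * ((1 / 3 + ε) * (Q.I2 + ε) ^ k)) +
        4 * ((Real.log (c2 * x) + 1) * (Real.exp (L / 48 + L) *
          ∏ t : IP P, (1 + 3 * ((k + 1 : ℕ) : ℝ) / (prP P t : ℝ))) ^ 2) := by
  have hp0 : ∀ p ∈ P, 0 < p := fun p hp => (hP p hp).1.pos
  have hL0 : 0 < L / 48 := by positivity
  have hx0 : 0 < x := by linarith
  have hprof := GP_prof Q k L (L / 48) hL hL0
  have hsd := hc.sd P hP
  have h := S1_le_tent (prP P) (LF a b) (WW D) v hc.hW hsd (yP Q k P L)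
    (fun j s => GP Q k L (L / 48) j (lg (prP P) s)) 1 (L / 48 + L) zero_le_one
    (fun j s => hprof.nonneg j _ (lg_nonneg _ _)) (fun j s => hprof.le_one j _ (lg_nonneg _ _))
    (fun σ => by
      rw [one_mul, yP, abs_of_nonneg (yw_nonneg _ _ _ hprof _ _)]
      exact yw_le_prod _ _ _ hprof _ _)
    (fun σ hσ => yw_supp _ _ _ _ _ (fun s hs hs' => GP_cut_none Q k _ _ s hs hs') σ hσ)
    (c0 * x) (c1 * x) (c2 * x) h0 (by gcongr) (by gcongr) (by
      have : c2 * x - 2 * (c1 * x) + c0 * x = (c2 - 2 * c1 + c0) * x := by ring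
      rw [this]
      positivity)
  refine le_trans h ?_
  rw [one_pow, one_mul]
  rw [prod_none_some _ _ _ (sum_GP_none_P Q P hp0 L h1) (fun i => sum_GP_some_P Q P hp0 L i h1), cardJ]
  apply add_le_add _ (le_of_eq rfl)
  have hB := hc.BDpos
  have hWpos : (0 : ℝ) < WW D := by exact_mod_cast hc.hW
  have hh1 : ∀ p ∈ P, 0 ≤ h1 p := by
    intro p hp
    unfold h1
    positivity
  have n2 : 0 ≤ SS P h1 Q.c L (fun t => Q.gg t ^ 2) :=
    SS_nonneg _ _ _ _ _ hh1 hp0 hL fun t _ => sq_nonneg _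
  have n1 : 0 ≤ SS P h1 1 (L / 48) (fun t => (1 - t) ^ 2) :=
    SS_nonneg _ _ _ _ _ hh1 hp0 hL0 fun t _ => sq_nonneg _
  have e0 : c2 * x - 2 * (c1 * x) + c0 * x = (c2 - 2 * c1 + c0) * x := by ring
  rw [e0]
  calc (c2 - 2 * c1 + c0) * x / WW D * (SS P h1 1 (L / 48) (fun t => (1 - t) ^ 2) *
        SS P h1 Q.c L (fun t => Q.gg t ^ 2) ^ k)
      ≤ (c2 - 2 * c1 + c0) * x / WW D *
        ((BD D * (L / 48) * (1 / 3 + ε)) * (BD D * L * (Q.I2 + ε)) ^ k) := by
        have := hS.a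
        have := hS.b
        gcongr
    _ = _ := by
        unfold Q1
        rw [mul_pow (BD D * L) (Q.I2 + ε) k]
        ring

end Pool.Agent.H47R4
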