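import Mathlib
import Pool.Agent.H47R4.Single
import Pool.Agent.H47R4.TentG

/-! Localised coloured Maynard-Tao, sharp constants: single forms. -/

namespace Pool.Agent.H47R4

open Finset Filter Topology
open Pool.Agent.H410R2 hiding GP GP_prof GP_cut_some GP_cut_none GP_lip gg_pos gg_le_one gg_anti ee_bound ee_nonneg gg_lip LB_gg LB_ee Sums exists_sums yx wx wxi Br sum_GP_none sum_GP_some sum_GP_some_ee sum_GP_some_one sum_GPr_none sum_GPr_some S1_final QI_final S2_final w_abs_le wmax gg ee I1 I2 IE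
open Pool.Agent.H361R2.GM
open Pool.Agent.H362R2.CM

variable {k : ℕ}

theorem tn_toPrimes {c0 c1 c2 : ℝ} (h : TC c0 c1 c2) (Q : SPar) (hPB : ProdBound)
    (hOB : OmegaBound) {a b : Fin k → ℕ} {D v : ℕ}
    (hc : Ctx a b D v) (ρ : ℝ) (hρ : 0 < ρ) (hρ1 : ρ ≤ 1 / 16) :
    ∃ C : ℝ, 0 ≤ C ∧ ∀ᶠ x : ℝ in atTop, ∀ i : Fin k,
      FF Q a b D v ρ x i (c2 * x) - 2 * FF Q a b D v ρ x i (c1 * x) +
        FF Q a b D v ρ x i (c0 * x) ≤
      (Real.log x + C) * ∑ n ∈ ((Icc 1 ⌊x⌋₊).filter (fun n => n ≡ v [MOD (WW D)])).filter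
          (fun n => (a i * n + b i).Prime),
            tn c0 c1 c2 x n * (wP Q a b (Pr D x) (Lr ρ x) n) ^ 2 + 3 * x := by
  refine ⟨∑ i, Real.log (a i), Finset.sum_nonneg fun i _ => Real.log_natCast_nonneg _, ?_⟩
  have h0 := h.h0
  have h01 := h.h01
  have h12 := h.h12
  have hc2 := h.h2
  have herr : ∀ᶠ x : ℝ in atTop, ∀ i : Fin k, Real.log (a i * x) * x ^ (1 / 10 : ℝ) *
      (2 * √(a i * x) * Real.log (a i * x) + (Real.log 4 + 4) * Real.exp (Real.log x / 4)) ≤
        x ^ (3 / 4 : ℝ) := by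
    rw [Filter.eventually_all]
    intro i
    exact Pt.err_small (a i) (hc.ha i)
  have hbmax : ∃ b0 : ℝ, 0 ≤ b0 ∧ ∀ i, (b i : ℝ) ≤ b0 :=
    ⟨∑ i, (b i : ℝ), Finset.sum_nonneg fun i _ => Nat.cast_nonneg _, fun i =>
      Finset.single_le_sum (f := fun i => (b i : ℝ)) (fun i _ => Nat.cast_nonneg _)
        (Finset.mem_univ i)⟩
  obtain ⟨b0, hb0, hbb⟩ := hbmax
  set C := ∑ i, Real.log (a i) with hCdef
  filter_upwards [herr, ptw Q hPB hOB hc ρ hρ hρ1 (1 / 10) (by norm_num),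
    ev_polylog ((1 + C) * (8 * b0 / c0)) 1 (1 / 10) 1 (by norm_num),
    eventually_ge_atTop (2 * b0 / c0),
    eventually_gt_atTop (Real.exp 1)] with x herr hFA hp1 hxb hxe i
  have hx : 1 < x := lt_trans (by
    have := Real.add_one_le_exp (1 : ℝ)
    linarith) hxe
  have hx0 : 0 < x := by linarith
  have hai : (1 : ℝ) ≤ a i := by exact_mod_cast hc.ha i
  have hai0 : (0 : ℝ) < a i := by linarith
  have hlx : 0 < Real.log x := Real.log_pos hx
  have hlx1 : 1 ≤ Real.log x := (Real.le_log_iff_exp_le hx0).2 hxe.le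
  have hxax : x ≤ (a i : ℝ) * x := by nlinarith
  have hax : 1 ≤ (a i : ℝ) * x := by nlinarith
  have hlxax : Real.log x ≤ Real.log (a i * x) := Real.log_le_log hx0 hxax
  have hlax : 0 ≤ Real.log (a i * x) := by linarith
  have hC : Real.log (a i) ≤ C :=
    Finset.single_le_sum (f := fun i => Real.log (a i))
      (fun i _ => Real.log_natCast_nonneg (a i)) (Finset.mem_univ i)
  have hC0 : 0 ≤ C := le_trans (Real.log_natCast_nonneg _) hC
  have hxb' : 2 * b0 ≤ c0 * x := by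
    rw [div_le_iff₀ h0] at hxb
    linarith
  have hE0 : 0 ≤ 8 * b0 / (c0 * x) := by positivity
  set E : ℝ := 8 * b0 / (c0 * x) with hE
  set W : ℕ → ℝ := wI a b (Pr D x) i (yP Q k (Pr D x) (Lr ρ x)) with hW
  have hFG : ∀ y, FF Q a b D v ρ x i y = FG a b D v i W y := fun y => rfl
  rw [hFG, hFG, hFG, FG_tent h a b hc.ha hc.hb D v i W x hx0]
  set N := (Icc 1 ⌊x⌋₊).filter (fun n => n ≡ v [MOD (WW D)]) with hN
  have hNm : ∀ n ∈ N, 1 ≤ n ∧ (n : ℝ) ≤ x := by
    intro n hn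
    rw [hN, Finset.mem_filter, Finset.mem_Icc] at hn
    exact ⟨hn.1.1, (Nat.cast_le.2 hn.1.2).trans (Nat.floor_le (by positivity))⟩
  set S := N.filter (fun n => ((a i * n + b i : ℕ) : ℝ) ≤ a i * x) with hS
  set g : ℕ → ℝ := fun n => if ¬ (a i * n + b i).Prime ∨ ((a i * n + b i : ℕ) : ℝ) ≤
      Real.exp (Real.log x / 4) then ArithmeticFunction.vonMangoldt (a i * n + b i) else 0 with hg
  have hg0 : ∀ n, 0 ≤ g n := by
    intro m
    simp only [hg]
    split_ifs
    · exact ArithmeticFunction.vonMangoldt_nonneg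
    · exact le_rfl
  have key : ∀ n ∈ N, ArithmeticFunction.vonMangoldt (a i * n + b i) *
          tn c0 c1 c2 x (((a i * n + b i : ℕ) : ℝ) / a i) * (W n) ^ 2 ≤
      (if (a i * n + b i).Prime then (Real.log x + C) * ((tn c0 c1 c2 x n + E) *
        (wP Q a b (Pr D x) (Lr ρ x) n) ^ 2)
        else 0) + (if ((a i * n + b i : ℕ) : ℝ) ≤ a i * x then
          2 * Real.log x * x ^ (1 / 10 : ℝ) * g n else 0) := by
    intro n hn
    obtain ⟨hn1, hnx⟩ := hNm n hn
    have hn0 : (0 : ℝ) < n := by exact_mod_cast hn1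
    have hn1r : (1 : ℝ) ≤ n := by exact_mod_cast hn1
    have hm1' : 1 ≤ a i * n + b i := by have := hc.hb i; omega
    have hm1 : (1 : ℝ) ≤ ((a i * n + b i : ℕ) : ℝ) := by exact_mod_cast hm1'
    have hm0 : (0 : ℝ) < ((a i * n + b i : ℕ) : ℝ) := by linarith
    have hma0 : 0 < ((a i * n + b i : ℕ) : ℝ) / a i := by positivity
    have hma : 1 ≤ ((a i * n + b i : ℕ) : ℝ) / a i := by
      rw [le_div_iff₀ hai0]
      push_cast
      have : (0 : ℝ) ≤ b i := Nat.cast_nonneg _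
      nlinarith
    have hV0 : 0 ≤ ArithmeticFunction.vonMangoldt (a i * n + b i) :=
      ArithmeticFunction.vonMangoldt_nonneg
    have hw := (hFA n hn1 hnx).2 i
    rw [← hW] at hw
    have htn0 : 0 ≤ tn c0 c1 c2 x n := tn_nonneg h x n hx0 hn0
    have hA0 : 0 ≤ (if (a i * n + b i).Prime then (Real.log x + C) * ((tn c0 c1 c2 x n + E) *
        (wP Q a b (Pr D x) (Lr ρ x) n) ^ 2) else 0) := by
      split_ifs
      · positivity
      · exact le_rfl
    have hVw : 0 ≤ ArithmeticFunction.vonMangoldt (a i * n + b i) * (W n) ^ 2 := by positivity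
    set T := tn c0 c1 c2 x (((a i * n + b i : ℕ) : ℝ) / a i) with hT
    have hT0 : 0 ≤ T := tn_nonneg h x _ hx0 hma0
    by_cases hbig0 : ((a i * n + b i : ℕ) : ℝ) ≤ a i * x
    swap
    · have hTz : T = 0 := by
        rw [hT]
        apply tn_high h x _ hx0 hma0
        rw [le_div_iff₀ hai0]
        push Not at hbig0
        have : c2 * x * a i ≤ 1 * x * a i := by gcongr
        linarith
      rw [hTz, mul_zero, zero_mul, if_neg hbig0, add_zero]
      exact hA0
    rw [if_pos hbig0]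
    by_cases hcase : ¬ (a i * n + b i).Prime ∨ ((a i * n + b i : ℕ) : ℝ) ≤ Real.exp (Real.log x / 4)
    · have hT1 : T ≤ 2 * Real.log x := tn_le h x _ hx.le hma
      have h2 : ArithmeticFunction.vonMangoldt (a i * n + b i) * T * (W n) ^ 2 ≤
          2 * Real.log x * x ^ (1 / 10 : ℝ) * g n := by
        simp only [hg]
        rw [if_pos hcase]
        calc ArithmeticFunction.vonMangoldt (a i * n + b i) * T * (W n) ^ 2
            = T * (ArithmeticFunction.vonMangoldt (a i * n + b i) * (W n) ^ 2) := by ring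
          _ ≤ (2 * Real.log x) * (ArithmeticFunction.vonMangoldt (a i * n + b i) * (W n) ^ 2) :=
              mul_le_mul_of_nonneg_right hT1 hVw
          _ ≤ (2 * Real.log x) * (ArithmeticFunction.vonMangoldt (a i * n + b i) *
              x ^ (1 / 10 : ℝ)) := by gcongr
          _ = _ := by ring
      linarith
    · push Not at hcase
      obtain ⟨hpr, hbig⟩ := hcase
      have hgn : g n = 0 := by
        simp only [hg]
        rw [if_neg]
        push Not
        exact ⟨hpr, hbig⟩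
      rw [hgn, mul_zero, add_zero]
      have hww : W n = wP Q a b (Pr D x) (Lr ρ x) n := by
        rw [hW]
        apply wI_eq_wP
        intro t ht
        have h1 := (Pr_prime D x t.1 t.2).1
        have h2 := Pr_le D x t.1 t.2
        have h3 : prP (Pr D x) t = a i * n + b i := (Nat.prime_dvd_prime_iff_eq h1 hpr).1 ht
        have h4 : ((prP (Pr D x) t : ℕ) : ℝ) = ((a i * n + b i : ℕ) : ℝ) := by rw [h3]
        have h5 : ((prP (Pr D x) t : ℕ) : ℝ) ≤ Real.exp (Real.log x / 4) := h2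
        linarith
      rw [if_pos hpr, hww, ArithmeticFunction.vonMangoldt_apply_prime hpr]
      have h1 : Real.log ((a i * n + b i : ℕ) : ℝ) ≤ Real.log x + C := by
        calc Real.log ((a i * n + b i : ℕ) : ℝ) ≤ Real.log (a i * x) :=
              Real.log_le_log hm0 hbig0
          _ = Real.log (a i) + Real.log x := Real.log_mul hai0.ne' hx0.ne'
          _ ≤ _ := by linarith
      have h3 : 0 ≤ Real.log ((a i * n + b i : ℕ) : ℝ) := Real.log_nonneg hm1
      have h4 : T ≤ tn c0 c1 c2 x n + E :=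
        (tn_shift h x (a i) (b i) n (hc.ha i) hn1 b0 (hbb i) hxb' hx0).1
      calc Real.log ((a i * n + b i : ℕ) : ℝ) * T * (wP Q a b (Pr D x) (Lr ρ x) n) ^ 2
          ≤ (Real.log x + C) * (tn c0 c1 c2 x n + E) * (wP Q a b (Pr D x) (Lr ρ x) n) ^ 2 := by
            gcongr
        _ = _ := by ring
  refine (Finset.sum_le_sum key).trans ?_
  rw [Finset.sum_add_distrib, ← Finset.sum_filter, ← Finset.sum_filter, ← Finset.mul_sum,
    ← Finset.mul_sum]
  have hy : x ^ (3 / 4 : ℝ) ≤ x := by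
    calc x ^ (3 / 4 : ℝ) ≤ x ^ (1 : ℝ) := Real.rpow_le_rpow_of_exponent_le hx.le (by norm_num)
      _ = x := Real.rpow_one x
  have hbad : 2 * Real.log x * x ^ (1 / 10 : ℝ) * ∑ n ∈ S, g n ≤ 2 * x := by
    have h1 : ∑ n ∈ S, g n ≤ 2 * √(a i * x) * Real.log (a i * x) +
        (Real.log 4 + 4) * Real.exp (Real.log x / 4) :=
      bad_lambda (a i) (b i) (hc.ha i) (hc.hb i) S x (Real.exp (Real.log x / 4)) hx.le
        (Real.exp_pos _).le (fun n hn => (Finset.mem_filter.1 hn).2)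
    have h2 : 0 ≤ ∑ n ∈ S, g n := Finset.sum_nonneg fun n _ => hg0 n
    calc 2 * Real.log x * x ^ (1 / 10 : ℝ) * ∑ n ∈ S, g n
        ≤ 2 * Real.log (a i * x) * x ^ (1 / 10 : ℝ) * (2 * √(a i * x) * Real.log (a i * x) +
        (Real.log 4 + 4) * Real.exp (Real.log x / 4)) := by gcongr
      _ = 2 * (Real.log (a i * x) * x ^ (1 / 10 : ℝ) * (2 * √(a i * x) * Real.log (a i * x) +
        (Real.log 4 + 4) * Real.exp (Real.log x / 4))) := by ring
      _ ≤ 2 * x ^ (3 / 4 : ℝ) := by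
          apply mul_le_mul_of_nonneg_left (herr i) (by norm_num)
      _ ≤ 2 * x := by linarith
  have hmain : (Real.log x + C) * ∑ n ∈ N.filter (fun n => (a i * n + b i).Prime),
      ((tn c0 c1 c2 x n + E) * (wP Q a b (Pr D x) (Lr ρ x) n) ^ 2) ≤
      (Real.log x + C) * ∑ n ∈ N.filter (fun n => (a i * n + b i).Prime),
        tn c0 c1 c2 x n * (wP Q a b (Pr D x) (Lr ρ x) n) ^ 2 + x := by
    have e1 : ∑ n ∈ N.filter (fun n => (a i * n + b i).Prime),
      ((tn c0 c1 c2 x n + E) * (wP Q a b (Pr D x) (Lr ρ x) n) ^ 2) =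
      ∑ n ∈ N.filter (fun n => (a i * n + b i).Prime),
        tn c0 c1 c2 x n * (wP Q a b (Pr D x) (Lr ρ x) n) ^ 2 +
      ∑ n ∈ N.filter (fun n => (a i * n + b i).Prime),
        E * (wP Q a b (Pr D x) (Lr ρ x) n) ^ 2 := by
      rw [← Finset.sum_add_distrib]
      refine Finset.sum_congr rfl fun n _ => by ring
    rw [e1, mul_add]
    have e2 : ∑ n ∈ N.filter (fun n => (a i * n + b i).Prime),
        E * (wP Q a b (Pr D x) (Lr ρ x) n) ^ 2 ≤ x * (E * x ^ (1 / 10 : ℝ)) := by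
      have h1 : ∀ n ∈ N.filter (fun n => (a i * n + b i).Prime),
          E * (wP Q a b (Pr D x) (Lr ρ x) n) ^ 2 ≤ E * x ^ (1 / 10 : ℝ) := by
        intro n hn
        obtain ⟨hn1, hnx⟩ := hNm n (Finset.mem_filter.1 hn).1
        exact mul_le_mul_of_nonneg_left (hFA n hn1 hnx).1 hE0
      refine (Finset.sum_le_card_nsmul _ _ _ h1).trans ?_
      rw [nsmul_eq_mul]
      apply mul_le_mul_of_nonneg_right _ (by positivity)
      calc ((N.filter (fun n => (a i * n + b i).Prime)).card : ℝ)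
          ≤ ((Icc 1 ⌊x⌋₊).card : ℝ) := by
            exact_mod_cast Finset.card_le_card ((Finset.filter_subset _ _).trans
              (Finset.filter_subset _ _))
        _ = (⌊x⌋₊ : ℝ) := by rw [Nat.card_Icc]; simp
        _ ≤ x := Nat.floor_le hx0.le
    have e3 : (Real.log x + C) * (x * (E * x ^ (1 / 10 : ℝ))) ≤ x := by
      rw [Real.rpow_one, pow_one] at hp1
      refine le_trans ?_ hp1
      have e4 : x * (E * x ^ (1 / 10 : ℝ)) = (8 * b0 / c0) * x ^ (1 / 10 : ℝ) := by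
        rw [hE]
        field_simp
      rw [e4]
      have e5 : Real.log x + C ≤ (1 + C) * Real.log x := by nlinarith
      calc (Real.log x + C) * ((8 * b0 / c0) * x ^ (1 / 10 : ℝ))
          ≤ ((1 + C) * Real.log x) * ((8 * b0 / c0) * x ^ (1 / 10 : ℝ)) := by gcongr
        _ = _ := by ring
    have e6 := mul_le_mul_of_nonneg_left e2 (show 0 ≤ Real.log x + C by positivity)
    linarith
  rw [← hS]
  linarith

theorem single_tn {c0 c1 c2 : ℝ} (h : TC c0 c1 c2) (Q : SPar) (hT2 : S2Approx) (hT3 : S2Model)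
    (hBV : BVAP) (hPNT : PNTLog)
    (hPB : ProdBound) (hOB : OmegaBound) {a b : Fin k → ℕ} {D v : ℕ} (hc : Ctx a b D v) (ρ : ℝ)
    (hρ : 0 < ρ) (hρ1 : ρ ≤ 1 / 16) (ε : ℝ) (hε : 0 < ε) (hε1 : ε < 1 / 3) (hI1 : ε < Q.I1)
    (hI2 : ε < Q.I2) (hBr : 0 < Br Q k ε)
    (hκ : ∀ x, ∏ t : IP (Pr D x), (1 + ((k + 1 : ℕ) : ℝ) / ((prP (Pr D x) t : ℝ) - 1) ^ 2) ≤ 1 + ε)
    (hovl : ∀ x, ((k + 1 : ℕ) : ℝ) ^ 2 * ∑ t : IP (Pr D x), (hb (k + 1) (prP (Pr D x) t)) ^ 2 ≤ ε)
    (hS : ∀ᶠ x : ℝ in atTop, Sums Q D ε (k + 1) (Lr ρ x) (Lr ρ x / 48) (Pr D x)) :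
    ∀ᶠ x : ℝ in atTop, ∀ i : Fin k, Q1 k D x (Lr ρ x) * ((c2 - 2 * c1 + c0) * (ρ * βc Q k ε)) ≤
      ∑ n ∈ ((Icc 1 ⌊x⌋₊).filter (fun n => n ≡ v [MOD (WW D)])).filter
          (fun n => (a i * n + b i).Prime),
            tn c0 c1 c2 x n * (wP Q a b (Pr D x) (Lr ρ x) n) ^ 2 := by
  have h0 := h.h0
  have h01 := h.h01
  have h12 := h.h12
  have hc2 := h.h2
  have hkp := h.kpos
  set κ : ℝ := c2 - 2 * c1 + c0 with hκd
  have h1ε : 0 < 1 - ε := by linarith
  have hI1ε : 0 < Q.I1 - ε := by linarith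
  have hp2 := psiC_both hPNT a hc.ha (κ * ε / 4) (by positivity) c2 (by linarith)
  have hp1 := psiC_both hPNT a hc.ha (κ * ε / 4) (by positivity) c1 (by linarith)
  have hp0 := psiC_both hPNT a hc.ha (κ * ε / 4) (by positivity) c0 h0
  have hF2 := FF_approx Q hT2 hBV hPB hOB hc ρ hρ hρ1 c2 (by linarith) hc2
  have hF1 := FF_approx Q hT2 hBV hPB hOB hc ρ hρ hρ1 c1 (by linarith) (by linarith)
  have hF0 := FF_approx Q hT2 hBV hPB hOB hc ρ hρ hρ1 c0 h0 (by linarith)
  obtain ⟨C, hC0, htp⟩ := tn_toPrimes h Q hPB hOB hc ρ hρ hρ1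
  set β0 : ℝ := (1 - ε) ^ 2 * (Q.I1 - ε) ^ 2 * Br Q k ε with hβ0
  have hβ0p : 0 < β0 := by positivity
  filter_upwards [hp2, hp1, hp0, hF2, hF1, hF0, hS, htp,
    Q1_large ρ hρ k D hc.hW hc.BDpos (7 / (κ * ((1 - ε) * ε) * (ρ * β0))),
    Real.tendsto_log_atTop.eventually_ge_atTop (2 * C / ε + 1), eventually_gt_atTop (1 : ℝ)]
    with x hp2 hp1 hp0 hF2 hF1 hF0 hS htp hQ1 hlC hx i
  have hx0 : 0 < x := by linarith
  have hlx : 0 < Real.log x := Real.log_pos hx
  have hL : 0 < Lr ρ x := by unfold Lr; positivity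
  set P := Pr D x with hPd
  have hP : ∀ p ∈ P, p.Prime ∧ D < p := Pr_prime D x
  have hWpos : (0 : ℝ) < WW D := by exact_mod_cast hc.hW
  have hB := hc.BDpos
  have hai : (0 : ℝ) < a i := by exact_mod_cast hc.ha i
  set L := Lr ρ x with hLd
  have hQI := QI_P_lower Q hT3 hc ε hε hε1 hI1 hI2 hBr L hL P hP (hκ x) (hovl x) hS i
  have hQIn : 0 ≤ (1 - ε) ^ 2 * (BD D * L * (Q.I1 - ε)) ^ 2 *
      (BD D * (L / 48) * (BD D * L) ^ (k - 1) * Br Q k ε) := by positivity
  have hk : (BD D * L) ^ k = (BD D * L) ^ (k - 1) * (BD D * L) := by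
    rw [← pow_succ]
    congr 1
    have := i.2
    omega
  set qI := QI (some i) (prP P) (cw (prP P) (yP Q k P L)) with hqI
  have hqI0 : 0 ≤ qI := hQIn.trans hQI
  have hF2 := (abs_le.1 (hF2 i)).1
  have hF1 := (abs_le.1 (hF1 i)).2
  have hF0 := (abs_le.1 (hF0 i)).1
  have hp2 := (hp2 i).1
  have hp1 := (hp1 i).2
  have hp0 := (hp0 i).1
  set V : ℝ := x / (WW D * BD D) * qI with hV
  have hVlow : L * Q1 k D x L * β0 ≤ V := by
    calc L * Q1 k D x L * β0
        = (x / (WW D * BD D)) * ((1 - ε) ^ 2 * (BD D * L * (Q.I1 - ε)) ^ 2 *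
          (BD D * (L / 48) * (BD D * L) ^ (k - 1) * Br Q k ε)) := by
          unfold Q1
          rw [hk, hβ0]
          field_simp
      _ ≤ _ := by
          rw [hV]
          gcongr
  have hφ : (Nat.totient (WW D) : ℝ) = WW D * BD D := hc.tot
  have hpos : 0 < (WW D : ℝ) * BD D := by positivity
  have hc1p : 0 < c1 := by linarith
  have hc2p : 0 < c2 := by linarith
  have d2 : (1 - κ * ε / 4) * c2 * V ≤
      psiLog1 (a i * (c2 * x)) / (a i * Nat.totient (WW D)) * qI := by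
    have h1 : (1 - κ * ε / 4) * c2 * V =
        ((1 - κ * ε / 4) * (a i * (c2 * x))) / (a i * Nat.totient (WW D)) * qI := by
      rw [hφ, hV]
      field_simp
    rw [h1, hφ]
    gcongr
  have d1 : psiLog1 (a i * (c1 * x)) / (a i * Nat.totient (WW D)) * qI ≤
      (1 + κ * ε / 4) * c1 * V := by
    have h1 : (1 + κ * ε / 4) * c1 * V =
        ((1 + κ * ε / 4) * (a i * (c1 * x))) / (a i * Nat.totient (WW D)) * qI := by
      rw [hφ, hV]
      field_simp
    rw [h1, hφ]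
    gcongr
  have d0 : (1 - κ * ε / 4) * c0 * V ≤
      psiLog1 (a i * (c0 * x)) / (a i * Nat.totient (WW D)) * qI := by
    have h1 : (1 - κ * ε / 4) * c0 * V =
        ((1 - κ * ε / 4) * (a i * (c0 * x))) / (a i * Nat.totient (WW D)) * qI := by
      rw [hφ, hV]
      field_simp
    rw [h1, hφ]
    gcongr
  have hV0 : 0 ≤ V := by rw [hV]; positivity
  have htp' := htp i
  set S := ∑ n ∈ ((Icc 1 ⌊x⌋₊).filter (fun n => n ≡ v [MOD (WW D)])).filter
          (fun n => (a i * n + b i).Prime),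
            tn c0 c1 c2 x n * (wP Q a b P L n) ^ 2 with hSd
  have hkey : κ * (1 - ε) * V - 7 * x ≤ (Real.log x + C) * S := by
    have h1 : (1 - κ * ε / 4) * c2 * V - 2 * ((1 + κ * ε / 4) * c1 * V) +
      (1 - κ * ε / 4) * c0 * V - 4 * x ≤
      FF Q a b D v ρ x i (c2 * x) - 2 * FF Q a b D v ρ x i (c1 * x) +
        FF Q a b D v ρ x i (c0 * x) := by linarith
    have h2 : κ * (1 - ε) * V ≤ (1 - κ * ε / 4) * c2 * V - 2 * ((1 + κ * ε / 4) * c1 * V) +
      (1 - κ * ε / 4) * c0 * V := by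
      have h3 : (1 - κ * ε / 4) * c2 * V - 2 * ((1 + κ * ε / 4) * c1 * V) +
        (1 - κ * ε / 4) * c0 * V = (κ - κ * ε / 4 * (c2 + 2 * c1 + c0)) * V := by
        rw [hκd]
        ring
      rw [h3]
      apply mul_le_mul_of_nonneg_right _ hV0
      have h4 : c2 + 2 * c1 + c0 ≤ 4 := by linarith
      have h5 : 0 ≤ κ * ε / 4 := by positivity
      nlinarith
    linarith
  have hb0 : 0 < ρ * β0 := by positivity
  have hQ1' : 7 * x ≤ κ * ((1 - ε) * ε) * (Q1 k D x L * (ρ * β0)) := by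
    have h4 : 0 < κ * ((1 - ε) * ε) * (ρ * β0) := by positivity
    have := mul_le_mul_of_nonneg_right hQ1 h4.le
    calc 7 * x = 7 / (κ * ((1 - ε) * ε) * (ρ * β0)) * x * (κ * ((1 - ε) * ε) * (ρ * β0)) := by
          field_simp
      _ ≤ Q1 k D x L * (κ * ((1 - ε) * ε) * (ρ * β0)) := this
      _ = _ := by ring
  set W := Q1 k D x L * (ρ * β0) with hWd
  have hW0 : 0 ≤ W := by
    have h1 : 0 < κ * ((1 - ε) * ε) := by positivity
    have h2 : 0 < κ * ((1 - ε) * ε) * W := lt_of_lt_of_le (by positivity) hQ1'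
    exact ((mul_pos_iff_of_pos_left h1).1 h2).le
  have e3 : L * Q1 k D x L * β0 = Real.log x * W := by
    rw [hWd, hLd]
    unfold Lr
    ring
  have hβeq : Q1 k D x L * (κ * (ρ * βc Q k ε)) = κ * ((1 - ε) ^ 2 * W) := by
    rw [hWd]
    unfold βc
    rw [hβ0]
    ring
  have hfin : (Real.log x + C) * (κ * ((1 - ε) ^ 2 * W)) ≤ (Real.log x + C) * S := by
    refine le_trans ?_ hkey
    rw [e3] at hVlow
    have h6 : 7 * x ≤ κ * ((1 - ε) * ε) * W := hQ1'
    have h7 : κ * (1 - ε) * (Real.log x * W) ≤ κ * (1 - ε) * V := by gcongr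
    have h8 : 2 * C + ε ≤ ε * Real.log x := by
      have h9 := mul_le_mul_of_nonneg_left hlC hε.le
      have h10 : ε * (2 * C / ε + 1) = 2 * C + ε := by field_simp
      linarith
    have h11 : (1 - ε) * (Real.log x + C) ≤ Real.log x - ε := by
      nlinarith
    have h12 : κ * (1 - ε) * W * ((1 - ε) * (Real.log x + C)) ≤
        κ * (1 - ε) * W * (Real.log x - ε) := by
      apply mul_le_mul_of_nonneg_left h11
      positivity
    nlinarith
  rw [hβeq]
  exact le_of_mul_le_mul_left hfin (by positivity)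

end Pool.Agent.H47R4
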