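import Mathlib
import Pool.Agent.H47R4.SingleG
import Pool.Agent.H47R4.PairG
import Pool.Agent.H47R4.S1P
import Pool.Agent.H362R2.CM.Main

/-! Localised coloured Maynard-Tao with sharp constants: the core theorem. -/

namespace Pool.Agent.H47R4

open Finset Filter Topology
open Pool.Agent.H410R2 hiding GP GP_prof GP_cut_some GP_cut_none GP_lip gg_pos gg_le_one gg_anti ee_bound ee_nonneg gg_lip LB_gg LB_ee Sums exists_sums yx wx wxi Br sum_GP_none sum_GP_some sum_GP_some_ee sum_GP_some_one sum_GPr_none sum_GPr_some S1_final QI_final S2_final w_abs_le wmax gg ee I1 I2 IE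
open Pool.Agent.H361R2.GM
open Pool.Agent.H362R2.CM

theorem tent_core_of (hT2 : S2Approx) (hT3 : S2Model) (hBV : BVAP)
    (hPNT : PNTLog)
    (hPB : ProdBound) (hOB : OmegaBound) (hOD : OneDim) (hTail : TailBound) (hAri : AriSetup)
    (T M : ℕ) (hTM : 4 * M < T) :
    ∃ K : ℕ, 2 ≤ K ∧ ∀ (c0 c1 c2 : ℝ), TC c0 c1 c2 →
      ∀ (a b : Fin (T * K) → ℕ) (cl : Fin (T * K) → Fin T),
      (∀ g, (univ.filter (fun i => cl i = g)).card = K) → (∀ i, 1 ≤ a i) → (∀ i, 1 ≤ b i) →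
      (∀ i j, i ≠ j → a i * b j ≠ a j * b i) →
      (∀ p : ℕ, p.Prime → ∃ n : ℕ, ¬ p ∣ n ∧ ∀ i, ¬ p ∣ a i * n + b i) →
      ∀ᶠ x : ℝ in atTop, ∃ n : ℕ, c0 * x < n ∧ (n : ℝ) < c2 * x ∧
        M + 1 ≤ (univ.filter (fun g : Fin T => ∃ i, cl i = g ∧ (a i * n + b i).Prime)).card := by
  classical
  obtain ⟨K, Q, ρ, ε, hK, hρ, hρ1, hε, hε1, hI1, hI2, hBr, hnum⟩ := num_all T M hTM
  refine ⟨K, hK, ?_⟩
  intro c0 c1 c2 hTC
  set k := T * K with hk
  intro a b cl hcl ha hb hnp hadm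
  have h0 := hTC.h0
  have h01 := hTC.h01
  have h12 := hTC.h12
  have hc2 := hTC.h2
  have hkp := hTC.kpos
  set κ : ℝ := c2 - 2 * c1 + c0 with hκd
  have hT0 : 0 < T := by omega
  have hI2p : 0 < Q.I2 := hε.trans hI2
  have hI1p : 0 < Q.I1 := hε.trans hI1
  have h1ε : 0 < 1 - ε := by linarith
  have hI1ε : 0 < Q.I1 - ε := by linarith
  have h14 : 0 < 1 / 4 - 2 * ρ := by linarith
  have hKp : (0 : ℝ) < K := by exact_mod_cast (by omega : 0 < K)
  have hAc : 0 < Ac Q k ε := by unfold Ac; positivity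
  have hβc : 0 < βc Q k ε := by unfold βc; positivity
  have hγc : 0 < γc Q k ρ ε := by unfold γc; positivity
  -- choice of `D`
  obtain ⟨D2, hctx⟩ := exists_ctx hAri a b ha hb hnp hadm
  obtain ⟨D3, hκ⟩ := κ1_of hTail k ε hε
  obtain ⟨D4, hov⟩ := ovl_of hTail k ε hε
  obtain ⟨D5, hκ3⟩ := κ3_of hTail k ε hε
  obtain ⟨D6, hsum⟩ := sums_all Q hOD (k + 1) ε hε ρ hρ hρ1
  set D := D2 + D3 + D4 + D5 + D6 with hD
  obtain ⟨v, hc⟩ := hctx D (by omega)
  have hκ := hκ D (by omega)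
  have hov := hov D (by omega)
  have hκ3 := hκ3 D (by omega)
  have hsum := hsum D (by omega)
  have hsingle := single_tn hTC Q hT2 hT3 hBV hPNT hPB hOB hc ρ hρ hρ1 ε hε hε1 hI1 hI2 hBr hκ hov
    (hsum.mono fun x hx => hx.1)
  have hpair := pair_tn hTC Q hT2 hBV hPNT hPB hOB hc ρ hρ hρ1 ε hε hε1 hI1p hI2p hκ3
    (hsum.mono fun x hx => hx.2)
  set A0 : ℝ := (1 / 3 + ε) * (Q.I2 + ε) ^ k with hA0
  have hA0p : 0 < A0 := by positivity
  filter_upwards [hsingle, hpair, hsum, E1_le hPB ρ hρ hρ1 k D,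
    Q1_large ρ hρ k D hc.hW hc.BDpos (4 / (κ * (ε * A0))),
    (tendsto_id.const_mul_atTop h0).eventually_ge_atTop (1 : ℝ), eventually_gt_atTop (1 : ℝ)]
    with x hsingle hpair hsum hE1 hQa hcx hx
  by_contra hcon
  push Not at hcon
  have hx0 : 0 < x := by linarith
  have hlx : 0 < Real.log x := Real.log_pos hx
  have hL : 0 < Lr ρ x := by unfold Lr; positivity
  set L := Lr ρ x with hLd
  set P := Pr D x with hPd
  have hP : ∀ p ∈ P, p.Prime ∧ D < p := Pr_prime D x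
  set Z := Q1 k D x L with hZ
  have hZA0 : 4 * x ≤ κ * (Z * (ε * A0)) := by
    have h4 : 0 < κ * (ε * A0) := by positivity
    have := mul_le_mul_of_nonneg_right hQa h4.le
    calc 4 * x = 4 / (κ * (ε * A0)) * x * (κ * (ε * A0)) := by field_simp
      _ ≤ Z * (κ * (ε * A0)) := this
      _ = _ := by ring
  have hZ0 : 0 < κ * Z := by
    have h4 : 0 < ε * A0 := by positivity
    by_contra h
    have h5 : κ * Z * (ε * A0) ≤ 0 := mul_nonpos_of_nonpos_of_nonneg (not_lt.1 h) h4.le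
    nlinarith
  set N := (Icc 1 ⌊x⌋₊).filter (fun n => n ≡ v [MOD (WW D)]) with hN
  set w : ℕ → ℝ := fun n => tn c0 c1 c2 x n * (wP Q a b P L n) ^ 2 with hw
  have hNm : ∀ n ∈ N, 1 ≤ n ∧ (n : ℝ) ≤ x := by
    intro n hn
    rw [hN, Finset.mem_filter, Finset.mem_Icc] at hn
    exact ⟨hn.1.1, (Nat.cast_le.2 hn.1.2).trans (Nat.floor_le hx0.le)⟩
  have hw0 : ∀ n ∈ N, 0 ≤ w n := by
    intro n hn
    have hn0 : (0 : ℝ) < n := by exact_mod_cast (hNm n hn).1
    exact mul_nonneg (tn_nonneg hTC x n hx0 hn0) (sq_nonneg _)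
  -- total mass
  have hS1 : ∑ n ∈ N, w n ≤ κ * Z * Ac Q k ε := by
    have h1 := S1_P_tent (k := k) Q (a := a) (b := b) hc ε hε hI2p x hx L hL P hP hsum.1 c0 c1 c2
      hcx h01.le h12.le hkp.le
    have h2 : x ^ (1 / 2 : ℝ) ≤ x := by
      calc x ^ (1 / 2 : ℝ) ≤ x ^ (1 : ℝ) := Real.rpow_le_rpow_of_exponent_le hx.le (by norm_num)
        _ = x := Real.rpow_one x
    have hc1p : 0 < c1 := by linarith
    have hc2p : 0 < c2 := by linarith
    rw [sum_LP c2 x hc2p hc2 hx0, sum_LP c1 x hc1p (by linarith) hx0,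
      sum_LP c0 x h0 (by linarith) hx0] at h1
    have e1 : ∑ n ∈ N, w n = (∑ n ∈ N, LP (c2 * x / n) * (wP Q a b P L n) ^ 2) -
      2 * (∑ n ∈ N, LP (c1 * x / n) * (wP Q a b P L n) ^ 2) +
      ∑ n ∈ N, LP (c0 * x / n) * (wP Q a b P L n) ^ 2 := by
      rw [Finset.mul_sum, ← Finset.sum_sub_distrib, ← Finset.sum_add_distrib]
      refine Finset.sum_congr rfl fun n _ => ?_
      simp only [hw, tn]
      ring
    have e2 : (Real.log (c2 * x) + 1) * (Real.exp (L / 48 + L) *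
          ∏ t : IP P, (1 + 3 * ((k + 1 : ℕ) : ℝ) / (prP P t : ℝ))) ^ 2 ≤ x := by
      refine le_trans ?_ (hE1.trans h2)
      apply mul_le_mul_of_nonneg_right _ (sq_nonneg _)
      have : Real.log (c2 * x) ≤ Real.log x := by
        apply Real.log_le_log (by positivity)
        nlinarith
      linarith
    rw [e1]
    refine h1.trans ?_
    rw [← hκd, ← hZ, ← hA0]
    calc κ * (Z * A0) + 4 * ((Real.log (c2 * x) + 1) * (Real.exp (L / 48 + L) *
          ∏ t : IP P, (1 + 3 * ((k + 1 : ℕ) : ℝ) / (prP P t : ℝ))) ^ 2)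
        ≤ κ * (Z * A0) + 4 * x := by gcongr
      _ ≤ κ * (Z * A0) + κ * (Z * (ε * A0)) := by linarith
      _ = κ * Z * Ac Q k ε := by unfold Ac; rw [hA0]; ring
  -- classes
  have hclass : ∀ g : Fin T, (K * (κ * Z * (ρ * βc Q k ε))) ^ 2 ≤
      (∑ n ∈ N, if ∃ i ∈ univ.filter (fun i => cl i = g), (a i * n + b i).Prime then w n else 0) *
      (K * (κ * Z * (ρ * βc Q k ε)) + (K : ℝ) ^ 2 * (κ * Z * γc Q k ρ ε)) := by
    intro g
    have h1 := cs_class N w hw0 (univ.filter (fun i => cl i = g))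
      (fun i n => (a i * n + b i).Prime) (κ * Z * (ρ * βc Q k ε)) (κ * Z * γc Q k ρ ε)
      (by positivity)
      (by positivity) (by
        intro i _
        rw [← Finset.sum_filter]
        refine le_trans (le_of_eq ?_) (hsingle i)
        ring) (by
        intro i _ j _ hij
        rw [← Finset.sum_filter]
        refine (hpair i j hij).trans (le_of_eq ?_)
        ring) (by rw [hcl g]; omega)
    rw [hcl g] at h1
    exact h1
  have hcount : ∑ g : Fin T, (∑ n ∈ N, if ∃ i ∈ univ.filter (fun i => cl i = g),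
      (a i * n + b i).Prime then w n else 0) ≤ M * ∑ n ∈ N, w n := by
    rw [Finset.sum_comm, Finset.mul_sum]
    apply Finset.sum_le_sum
    intro n hn
    have e1 : (∑ g : Fin T, if ∃ i ∈ univ.filter (fun i => cl i = g), (a i * n + b i).Prime
        then w n else 0) =
        ((univ.filter (fun g : Fin T => ∃ i, cl i = g ∧ (a i * n + b i).Prime)).card : ℝ) * w n := by
      rw [← Finset.sum_filter, Finset.sum_const, nsmul_eq_mul]
      congr 3
      ext g
      simp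
    rw [e1]
    have hn0 : (0 : ℝ) < n := by exact_mod_cast (hNm n hn).1
    by_cases hlow : (n : ℝ) ≤ c0 * x
    · have : w n = 0 := by
        simp only [hw]
        rw [tn_low hTC x n hx0 hn0 hlow, zero_mul]
      rw [this, mul_zero, mul_zero]
    by_cases hhigh : c2 * x ≤ (n : ℝ)
    · have : w n = 0 := by
        simp only [hw]
        rw [tn_high hTC x n hx0 hn0 hhigh, zero_mul]
      rw [this, mul_zero, mul_zero]
    push Not at hlow hhigh
    apply mul_le_mul_of_nonneg_right _ (hw0 n hn)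
    have := hcon n hlow hhigh
    exact_mod_cast (by omega : (univ.filter (fun g : Fin T => ∃ i, cl i = g ∧
      (a i * n + b i).Prime)).card ≤ M)
  -- combine
  set q : Fin T → ℝ := fun g =>
    ∑ n ∈ N, if ∃ i ∈ univ.filter (fun i => cl i = g), (a i * n + b i).Prime then w n else 0 with hq
  set α : ℝ := K * (ρ * βc Q k ε) with hα
  set G : ℝ := (K : ℝ) ^ 2 * γc Q k ρ ε with hG
  have hαp : 0 < α := by positivity
  have hGp : 0 < G := by positivity
  have hclass' : ∀ g : Fin T, κ * Z * α ^ 2 ≤ q g * (α + G) := by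
    intro g
    have h1 := hclass g
    have e1 : (K * (κ * Z * (ρ * βc Q k ε))) ^ 2 = κ * Z * (κ * Z * α ^ 2) := by
      rw [hα]; ring
    have e2 : (K * (κ * Z * (ρ * βc Q k ε)) + (K : ℝ) ^ 2 * (κ * Z * γc Q k ρ ε)) =
        κ * Z * (α + G) := by
      rw [hα, hG]; ring
    rw [e1, e2] at h1
    have h2 : κ * Z * (κ * Z * α ^ 2) ≤ κ * Z * (q g * (α + G)) := by
      refine h1.trans (le_of_eq ?_)
      simp only [hq]
      ring
    exact le_of_mul_le_mul_left h2 hZ0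
  have hsumq : T * (κ * Z * α ^ 2) ≤ (∑ g, q g) * (α + G) := by
    rw [Finset.sum_mul]
    have h1 := Finset.card_nsmul_le_sum (univ : Finset (Fin T)) (fun g => q g * (α + G))
      (κ * Z * α ^ 2) (fun g _ => hclass' g)
    rw [Finset.card_univ, Fintype.card_fin, nsmul_eq_mul] at h1
    exact h1
  have hq2 : ∑ g, q g ≤ M * (κ * Z * Ac Q k ε) :=
    hcount.trans (mul_le_mul_of_nonneg_left hS1 (Nat.cast_nonneg _))
  have hfin : T * (κ * Z * α ^ 2) ≤ M * (κ * Z * Ac Q k ε) * (α + G) :=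
    hsumq.trans (mul_le_mul_of_nonneg_right hq2 (by positivity))
  have hfin2 : κ * Z * (T * α ^ 2) ≤ κ * Z * (M * Ac Q k ε * (α + G)) := by
    calc κ * Z * (T * α ^ 2) = T * (κ * Z * α ^ 2) := by ring
      _ ≤ M * (κ * Z * Ac Q k ε) * (α + G) := hfin
      _ = _ := by ring
  have hfin3 := le_of_mul_le_mul_left hfin2 hZ0
  have h5 : 0 ≤ (M * ε + ε) * (Ac Q k ε * (α + G)) := by positivity
  have h6 : ((M : ℝ) * (1 + ε) + ε) * Ac Q k ε * (α + G) =
      M * Ac Q k ε * (α + G) + (M * ε + ε) * (Ac Q k ε * (α + G)) := by ring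
  rw [h6] at hnum
  linarith

theorem tent_core (T M : ℕ) (hTM : 4 * M < T) :
    ∃ K : ℕ, 2 ≤ K ∧ ∀ (c0 c1 c2 : ℝ), TC c0 c1 c2 →
      ∀ (a b : Fin (T * K) → ℕ) (cl : Fin (T * K) → Fin T),
      (∀ g, (univ.filter (fun i => cl i = g)).card = K) → (∀ i, 1 ≤ a i) → (∀ i, 1 ≤ b i) →
      (∀ i j, i ≠ j → a i * b j ≠ a j * b i) →
      (∀ p : ℕ, p.Prime → ∃ n : ℕ, ¬ p ∣ n ∧ ∀ i, ¬ p ∣ a i * n + b i) →
      ∀ᶠ x : ℝ in atTop, ∃ n : ℕ, c0 * x < n ∧ (n : ℝ) < c2 * x ∧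
        M + 1 ≤ (univ.filter (fun g : Fin T => ∃ i, cl i = g ∧ (a i * n + b i).Prime)).card :=
  tent_core_of Pool.Agent.H732R2.s2Approx Pool.Agent.H361R2.s2Model bvap
    Pool.Agent.H732R2.pntLog Pool.Agent.H361R2.prodBound Pool.Agent.H361R2.omegaBound
    Pool.Agent.H399R2.oneDim Pool.Agent.H361R2.tailBound Pool.Agent.H398R2.ariSetup T M hTM

end Pool.Agent.H47R4
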