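import Mathlib
import Pool.Agent.H47R4.GCore
import Pool.Agent.H47R4.Forms

/-! Two consecutive integers with large prime factors in every window of ratio `3 + ε`. -/

namespace Pool.Agent.H47R4

open Finset Filter Topology Nat

/-- sets without differences in `[L, D]` are small -/
theorem comb (L D : ℕ) (hD : 2 * L ≤ D + 2) (S : Finset ℕ) (hS : ∀ x ∈ S, x < L + D)
    (hcard : L + 1 ≤ S.card) : ∃ x ∈ S, ∃ y ∈ S, x + L ≤ y ∧ y ≤ x + D := by
  by_contra hcon
  push Not at hcon
  have hne : S.Nonempty := Finset.card_pos.1 (by omega)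
  set x0 := S.min' hne with hx0
  have hx0S : x0 ∈ S := S.min'_mem hne
  by_cases hL : L = 0
  · have := hcon x0 hx0S x0 hx0S (by omega)
    omega
  have hAne : (S.filter (fun y => y < x0 + L)).Nonempty :=
    ⟨x0, Finset.mem_filter.2 ⟨hx0S, by omega⟩⟩
  set α := (S.filter (fun y => y < x0 + L)).max' hAne with hα
  have hαm := Finset.max'_mem _ hAne
  rw [← hα, Finset.mem_filter] at hαm
  have hsub : S ⊆ Finset.Icc x0 α ∪ Finset.Icc (α + D + 1) (L + D - 1) := by
    intro y hy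
    have h1 := hS y hy
    have h2 : x0 ≤ y := S.min'_le y hy
    rw [Finset.mem_union, Finset.mem_Icc, Finset.mem_Icc]
    by_cases h3 : y < x0 + L
    · left
      exact ⟨h2, Finset.le_max' _ y (Finset.mem_filter.2 ⟨hy, h3⟩)⟩
    · right
      have h4 := hcon x0 hx0S y hy (by omega)
      have h5 := hcon α hαm.1 y hy (by omega)
      omega
  have h6 := (Finset.card_le_card hsub).trans (Finset.card_union_le _ _)
  rw [Nat.card_Icc, Nat.card_Icc] at h6
  have h7 : x0 ≤ α := S.min'_le α hαm.1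
  omega

theorem loc2 (A t Bi G n C R Δ x y z c0 L D : ℝ) (hA : 1 ≤ A) (hBx : Bi ≤ z * x)
    (hBi : 0 ≤ Bi) (hz : 0 < z) (hz1 : z < 1) (hn : 0 ≤ n) (hC : 0 < C) (hR : 0 < R)
    (hc0 : 0 < c0) (hx : 0 ≤ x)
    (hL : 0 < L) (hLΔ : L ≤ Δ) (hΔD : Δ ≤ D) (hloc : G * n = A * t + Bi) (ht1 : c0 * x ≤ t)
    (ht2 : t ≤ x) (hG1 : (1 - z) * (C * R * Δ) ≤ G) (hG2 : G ≤ (1 + z) * (C * R * Δ))
    (hxy : A * c0 * x = C * R * D * (1 + z) * y) :
    y ≤ n ∧ (1 - z) * L * c0 * n ≤ D * (1 + z) ^ 2 * y := by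
  have hCR : 0 < C * R := by positivity
  have hD : 0 < D := by linarith
  have hz2 : 0 < 1 - z := by linarith
  constructor
  · have h1 : C * R * D * (1 + z) * y ≤ C * R * D * (1 + z) * n := by
      calc C * R * D * (1 + z) * y = A * (c0 * x) := by rw [← hxy]; ring
        _ ≤ A * t := by gcongr
        _ ≤ G * n := by rw [hloc]; linarith
        _ ≤ (1 + z) * (C * R * Δ) * n := by gcongr
        _ ≤ (1 + z) * (C * R * D) * n := by gcongr
        _ = _ := by ring
    exact le_of_mul_le_mul_left h1 (by positivity)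
  · have h1 : C * R * ((1 - z) * L * c0 * n) ≤ C * R * (D * (1 + z) ^ 2 * y) := by
      calc C * R * ((1 - z) * L * c0 * n) = c0 * ((1 - z) * (C * R * L) * n) := by ring
        _ ≤ c0 * ((1 - z) * (C * R * Δ) * n) := by gcongr
        _ ≤ c0 * (G * n) := by gcongr
        _ ≤ c0 * (A * x + A * (z * x)) := by
            rw [hloc]
            have h2 : A * t ≤ A * x := by gcongr
            have h3 : Bi ≤ A * (z * x) := by
              have h4 : 0 ≤ z * x := by positivity
              nlinarith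
            gcongr
        _ = (1 + z) * (A * c0 * x) := by ring
        _ = _ := by rw [hxy]; ring
    exact le_of_mul_le_mul_left h1 hCR

/-- consecutive integers with large prime factors in windows -/
theorem window_h (h : ℕ) (hh : 2 ≤ h) :
    ∃ m : ℕ, ∀ᶠ y : ℝ in atTop, ∃ n p q c : ℕ, p.Prime ∧ q.Prime ∧ n = c * p ∧
      n + 1 = (c + 1) * q ∧ 1 ≤ c ∧ c + 1 ≤ m ∧ y ≤ n ∧
      (1 - 1 / (h : ℝ)) * h * ((h : ℝ) / (h + 1)) ^ 2 * n ≤
        (3 * h + 1) * (1 + 1 / (h : ℝ)) ^ 2 * y := by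
  classical
  obtain ⟨K, hK, hcore⟩ := tent_core (4 * h + 1) h (by omega)
  set T : ℕ := 4 * h + 1 with hT
  have hhr : (2 : ℝ) ≤ h := by exact_mod_cast hh
  have hh0 : (0 : ℝ) < h := by linarith
  set c1 : ℝ := (h : ℝ) / (h + 1) with hc1
  have hc1p : 0 < c1 := by positivity
  have hc11 : c1 < 1 := by
    rw [hc1, div_lt_one (by positivity)]
    linarith
  have hTC : TC (c1 ^ 2) c1 1 := ⟨by positivity, by nlinarith, hc11, le_rfl, by ring⟩
  have hcore := hcore (c1 ^ 2) c1 1 hTC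
  set e : Fin T × Fin K ≃ Fin (T * K) := finProdFinEquiv with he
  set cl : Fin (T * K) → Fin T := fun i => (e.symm i).1 with hcl
  have hcard : ∀ g, (univ.filter (fun i => cl i = g)).card = K := by
    intro g
    have h1 : (univ.filter (fun i => cl i = g)) = univ.image (fun j : Fin K => e (g, j)) := by
      ext i
      simp only [mem_filter, mem_univ, true_and, mem_image]
      constructor
      · intro h
        refine ⟨(e.symm i).2, ?_⟩
        rw [Equiv.apply_eq_iff_eq_symm_apply]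
        exact Prod.ext h.symm rfl
      · rintro ⟨j, rfl⟩
        simp [hcl]
    rw [h1, Finset.card_image_of_injective _ (by
      intro j j' h
      have := e.injective h
      simpa using this)]
    simp
  set R : ℕ := h * (T * K + 1) with hR
  have hT1 : 1 ≤ T := by omega
  have hTK : 1 ≤ T * K := Nat.mul_pos hT1 (by omega)
  have hR0 : 2 * (T * K + 1) ≤ R := Nat.mul_le_mul_right _ hh
  have hR1 : 1 ≤ R := by omega
  set r : Fin (T * K) → ℕ := fun i => R * (cl i).val + i.val with hr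
  have hrinj : Function.Injective r := by
    intro i j hij
    simp only [hr] at hij
    have hi := i.2
    have hj := j.2
    have key : ∀ g g' u w : ℕ, g < g' → u < T * K → w < T * K →
        R * g + u ≠ R * g' + w := by
      intro g g' u w hgg hu hw heq
      have h7 : R * (g + 1) ≤ R * g' := Nat.mul_le_mul_left R hgg
      rw [Nat.mul_add] at h7
      omega
    rcases lt_trichotomy (cl i).val (cl j).val with h | h | h
    · exact absurd hij (key _ _ _ _ h hi hj)
    · have : cl i = cl j := Fin.ext h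
      rw [this] at hij
      exact Fin.ext (by omega)
    · exact absurd hij.symm (key _ _ _ _ h hj hi)
  obtain ⟨C, M, δ, hC, hM, hδ, hdiv⟩ := shape 2 le_rfl (univ.image r)
  have hmem : ∀ i, r i ∈ univ.image r := fun i => Finset.mem_image_of_mem r (Finset.mem_univ i)
  set Bz : Fin (T * K) → ℤ := fun i => C * r i + M + δ (r i) with hBz
  have hBz1 : ∀ i, 1 ≤ Bz i := by
    intro i
    have h3 := (hδ _ (hmem i)).1
    have h4 : 0 ≤ C * (r i : ℤ) := by positivity
    simp only [hBz]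
    linarith
  set B : Fin (T * K) → ℕ := fun i => (Bz i).toNat with hB
  have hBc : ∀ i, (B i : ℤ) = Bz i := fun i => Int.toNat_of_nonneg (by linarith [hBz1 i])
  have hB1 : ∀ i, 1 ≤ B i := by
    intro i
    have h3 := hBz1 i
    rw [← hBc] at h3
    exact_mod_cast h3
  -- gaps
  have hgap : ∀ i j : Fin (T * K), (cl i).val < (cl j).val →
      ((h : ℤ) - 1) * (C * R * (((cl j).val : ℤ) - (cl i).val)) ≤ h * (Bz j - Bz i) ∧
      h * (Bz j - Bz i) ≤ ((h : ℤ) + 1) * (C * R * (((cl j).val : ℤ) - (cl i).val)) := by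
    intro i j hij
    have hi : (i.val : ℤ) + 1 ≤ T * K := by exact_mod_cast i.2
    have hj : (j.val : ℤ) + 1 ≤ T * K := by exact_mod_cast j.2
    have hi0 : (0 : ℤ) ≤ i.val := by positivity
    have hj0 : (0 : ℤ) ≤ j.val := by positivity
    obtain ⟨h6, h7⟩ := hδ _ (hmem i)
    obtain ⟨h8, h9⟩ := hδ _ (hmem j)
    have hRz : (R : ℤ) = h * (T * K + 1) := by rw [hR]; push_cast; ring
    have hΔ : (1 : ℤ) ≤ ((cl j).val : ℤ) - (cl i).val := by
      have : ((cl i).val : ℤ) < (cl j).val := by exact_mod_cast hij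
      linarith
    have hrd : (r j : ℤ) - r i = R * (((cl j).val : ℤ) - (cl i).val) + (j.val - i.val) := by
      simp only [hr]
      push_cast
      ring
    set Δ : ℤ := ((cl j).val : ℤ) - (cl i).val with hΔd
    have hdB : Bz j - Bz i = C * R * Δ + C * ((j.val : ℤ) - i.val) + (δ (r j) - δ (r i)) := by
      have : Bz j - Bz i = C * ((r j : ℤ) - r i) + (δ (r j) - δ (r i)) := by
        simp only [hBz]
        ring
      rw [this, hrd]
      ring
    have hh0z : (0 : ℤ) ≤ h := by positivity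
    have e1 : C * ((j.val : ℤ) - i.val) + (δ (r j) - δ (r i)) ≤ C * (T * K + 1) := by
      have : C * ((j.val : ℤ) - i.val) ≤ C * (T * K) := by
        apply mul_le_mul_of_nonneg_left _ (by linarith)
        linarith
      linarith
    have e2 : -(C * (T * K + 1)) ≤ C * ((j.val : ℤ) - i.val) + (δ (r j) - δ (r i)) := by
      have : C * (-(T * K)) ≤ C * ((j.val : ℤ) - i.val) := by
        apply mul_le_mul_of_nonneg_left _ (by linarith)
        linarith
      linarith
    have e3 : (h : ℤ) * (C * (T * K + 1)) ≤ C * R * Δ := by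
      have e4 : (h : ℤ) * (C * (T * K + 1)) = C * R * 1 := by rw [hRz]; ring
      rw [e4]
      apply mul_le_mul_of_nonneg_left hΔ
      positivity
    have e5 := mul_le_mul_of_nonneg_left e1 hh0z
    have e6 := mul_le_mul_of_nonneg_left e2 hh0z
    rw [hdB]
    constructor <;> nlinarith
  obtain ⟨a, A, haA, hadvd, hA1⟩ : ∃ (a : Fin (T * K) → ℕ) (A : ℕ), (∀ i, B i * a i = A) ∧
      (∀ i, (T * K + 1)! ∣ a i) ∧ 1 ≤ A := by
    refine ⟨fun i => (T * K + 1)! * ∏ j ∈ univ.erase i, B j, (T * K + 1)! * ∏ j, B j,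
      fun i => ?_, fun i => Dvd.intro _ rfl,
      Nat.mul_pos (Nat.factorial_pos _) (Finset.prod_pos fun j _ => hB1 j)⟩
    rw [← Finset.mul_prod_erase univ B (Finset.mem_univ i)]
    ring
  have ha1 : ∀ i, 1 ≤ a i := by
    intro i
    by_contra h
    have h3 : a i = 0 := by omega
    have := haA i
    rw [h3] at this
    omega
  have hBinj : ∀ i j, i ≠ j → B i ≠ B j := by
    intro i j hij h
    have h3 : Bz i = Bz j := by rw [← hBc, ← hBc, h]
    have h4 := hdiv _ (hmem i) _ (hmem j) (fun h => hij (hrinj h))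
    have h5 : (C * (r i : ℤ) + M + δ (r i)) - (C * r j + M + δ (r j)) = 0 := by
      have h6 : C * (r i : ℤ) + M + δ (r i) = Bz i := rfl
      have h7 : C * (r j : ℤ) + M + δ (r j) = Bz j := rfl
      rw [h6, h7, h3, sub_self]
    rw [h5, zero_dvd_iff] at h4
    have h8 := hBz1 i
    have h9 : Bz i = 0 := h4
    omega
  have hmain := hcore a (fun _ => 1) cl hcard ha1 (fun _ => le_rfl)
    (by
      intro i j hij h
      rw [mul_one, mul_one] at h
      apply hBinj i j hij
      have h3 := haA i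
      rw [← haA j, h] at h3
      exact Nat.eq_of_mul_eq_mul_right (ha1 j) h3)
    (adm_forms a hadvd)
  set S : ℕ := ∑ i, B i with hS
  have hBS : ∀ i, B i ≤ S := fun i =>
    Finset.single_le_sum (f := B) (fun _ _ => Nat.zero_le _) (Finset.mem_univ i)
  -- from `x` to `y`
  have hCr : (0 : ℝ) < C := by exact_mod_cast (by omega : (0 : ℤ) < C)
  have hRr : (0 : ℝ) < R := by exact_mod_cast (by omega : 0 < R)
  have hAr : (0 : ℝ) < A := by exact_mod_cast hA1
  set z : ℝ := 1 / (h : ℝ) with hz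
  have hz0 : 0 < z := by positivity
  have hz1 : z < 1 := by
    rw [hz, div_lt_one hh0]
    linarith
  have hhz : (h : ℝ) * z = 1 := by rw [hz]; field_simp
  set D : ℝ := 3 * h + 1 with hD
  have hD0 : 0 < D := by positivity
  have htend : Tendsto (fun y : ℝ => (C * R * D * (1 + z) / (A * c1 ^ 2) : ℝ) * y) atTop atTop :=
    tendsto_id.const_mul_atTop (by positivity)
  refine ⟨S, ?_⟩
  filter_upwards [htend.eventually hmain,
    htend.eventually (eventually_ge_atTop ((S : ℝ) / z))] with y hy1 hy2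
  obtain ⟨x, hx⟩ : ∃ x : ℝ, (C * R * D * (1 + z) / (A * c1 ^ 2) : ℝ) * y = x := ⟨_, rfl⟩
  rw [hx] at hy1 hy2
  have hxy : A * c1 ^ 2 * x = C * R * D * (1 + z) * y := by rw [← hx]; field_simp
  have hxS : (S : ℝ) ≤ z * x := by
    rw [div_le_iff₀ hz0] at hy2
    linarith
  have hxpos : 0 ≤ x := by
    have h1 : 0 ≤ z * x := le_trans (Nat.cast_nonneg _) hxS
    exact nonneg_of_mul_nonneg_right h1 hz0
  obtain ⟨t, ht1, ht2, ht3⟩ := hy1
  -- two classes at the right distance
  set Sc : Finset ℕ := (univ.filter (fun g : Fin T => ∃ i, cl i = g ∧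
    (a i * t + 1).Prime)).image Fin.val with hSc
  have hScard : h + 1 ≤ Sc.card := by
    rw [hSc, Finset.card_image_of_injective _ Fin.val_injective]
    exact ht3
  obtain ⟨g1, hg1, g2, hg2, hg3, hg4⟩ := comb h (3 * h + 1) (by omega) Sc (by
    intro g hg
    rw [hSc, Finset.mem_image] at hg
    obtain ⟨g', -, rfl⟩ := hg
    have := g'.2
    omega) hScard
  rw [hSc, Finset.mem_image] at hg1 hg2
  obtain ⟨g1', hg1', rfl⟩ := hg1
  obtain ⟨g2', hg2', rfl⟩ := hg2
  rw [mem_filter] at hg1' hg2'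
  obtain ⟨-, i, hi, hpi⟩ := hg1'
  obtain ⟨-, j, hj, hpj⟩ := hg2'
  have hij : (cl i).val < (cl j).val := by rw [hi, hj]; omega
  obtain ⟨hG1z, hG2z⟩ := hgap i j hij
  have hΔ1 : (h : ℤ) ≤ ((cl j).val : ℤ) - (cl i).val := by rw [hi, hj]; omega
  have hΔ2 : ((cl j).val : ℤ) - (cl i).val ≤ 3 * h + 1 := by rw [hi, hj]; omega
  set Δ : ℤ := ((cl j).val : ℤ) - (cl i).val with hΔd
  have hneij : r j ≠ r i := by
    intro h
    have := hrinj h
    rw [this] at hij
    exact lt_irrefl _ hij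
  have hdj : (Bz j - Bz i) ∣ Bz j := hdiv _ (hmem j) _ (hmem i) hneij
  have hdi : (Bz j - Bz i) ∣ Bz i := by
    have h6 : Bz i = Bz j - (Bz j - Bz i) := by ring
    rw [h6]
    exact dvd_sub (by rw [← h6]; exact hdj) (by rw [← h6])
  set g : ℤ := Bz j - Bz i with hg
  have hh2z : (2 : ℤ) ≤ h := by exact_mod_cast hh
  have hgpos : 0 < g := by
    have h1 : 0 < ((h : ℤ) - 1) * (C * R * Δ) := by
      have h2 : (0 : ℤ) < R := by exact_mod_cast (by omega : 0 < R)
      have h3 : (0 : ℤ) < Δ := by linarith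
      have h4 : (0 : ℤ) < (h : ℤ) - 1 := by linarith
      positivity
    have h2 : 0 < (h : ℤ) * g := lt_of_lt_of_le h1 hG1z
    exact (mul_pos_iff_of_pos_left (by linarith)).1 h2
  obtain ⟨ci, hci⟩ := hdi
  obtain ⟨cj, hcj⟩ := hdj
  have hcji : cj = ci + 1 := by
    have h6 : g * (cj - ci) = g * 1 := by
      rw [mul_sub, ← hci, ← hcj, hg]
      ring
    have := mul_left_cancel₀ hgpos.ne' h6
    linarith
  have hci0 : 0 < ci := by
    have h6 := hBz1 i
    rw [hci] at h6
    exact (mul_pos_iff_of_pos_left hgpos).1 (by linarith)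
  obtain ⟨c, hc⟩ := Int.eq_ofNat_of_zero_le hci0.le
  have hc0 : 0 < c := by
    rw [hc] at hci0
    exact_mod_cast hci0
  obtain ⟨G, hG⟩ := Int.eq_ofNat_of_zero_le hgpos.le
  have hG0 : 0 < G := by
    rw [hG] at hgpos
    exact_mod_cast hgpos
  have hBi : B i = G * c := by
    have : (B i : ℤ) = G * c := by rw [hBc, hci, hG, hc]
    exact_mod_cast this
  have hBj : B j = G * (c + 1) := by
    have : (B j : ℤ) = G * (c + 1) := by rw [hBc, hcj, hcji, hG, hc]
    exact_mod_cast this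
  have hcc : c * a i = (c + 1) * a j := by
    have h6 : G * (c * a i) = G * ((c + 1) * a j) := by
      calc G * (c * a i) = (G * c) * a i := by ring
        _ = A := by rw [← hBi, haA]
        _ = (G * (c + 1)) * a j := by rw [← hBj, haA]
        _ = _ := by ring
    exact Nat.eq_of_mul_eq_mul_left hG0 h6
  have hcB' : c + 1 ≤ B j := by
    rw [hBj]
    exact Nat.le_mul_of_pos_left _ hG0
  have hn1 : c * (a i * t + 1) + 1 = (c + 1) * (a j * t + 1) := by
    calc c * (a i * t + 1) + 1 = (c * a i) * t + c + 1 := by ring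
      _ = ((c + 1) * a j) * t + c + 1 := by rw [hcc]
      _ = _ := by ring
  have hloc : G * (c * (a i * t + 1)) = A * t + B i := by
    calc G * (c * (a i * t + 1)) = (G * c) * a i * t + G * c := by ring
      _ = _ := by rw [← hBi, haA]
  have hlocR : (G : ℝ) * ((c * (a i * t + 1) : ℕ) : ℝ) = A * t + B i := by exact_mod_cast hloc
  have hGg : (G : ℝ) = (g : ℝ) := by rw [hG]; norm_num
  have hG1 : (1 - z) * ((C : ℝ) * R * (Δ : ℝ)) ≤ G := by
    have h1 : (((h : ℤ) - 1) * (C * R * Δ) : ℝ) ≤ h * g := by exact_mod_cast hG1z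
    push_cast at h1
    have h2 : (h : ℝ) * ((1 - z) * ((C : ℝ) * R * (Δ : ℝ))) ≤ h * G := by
      calc (h : ℝ) * ((1 - z) * ((C : ℝ) * R * (Δ : ℝ)))
          = (h - h * z) * ((C : ℝ) * R * (Δ : ℝ)) := by ring
        _ = (h - 1) * ((C : ℝ) * R * (Δ : ℝ)) := by rw [hhz]
        _ ≤ h * G := by rw [hGg]; exact h1
    exact le_of_mul_le_mul_left h2 hh0
  have hG2 : (G : ℝ) ≤ (1 + z) * ((C : ℝ) * R * (Δ : ℝ)) := by
    have h1 : (h * g : ℝ) ≤ (((h : ℤ) + 1) * (C * R * Δ) : ℝ) := by exact_mod_cast hG2z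
    push_cast at h1
    have h2 : (h : ℝ) * G ≤ h * ((1 + z) * ((C : ℝ) * R * (Δ : ℝ))) := by
      calc (h : ℝ) * G ≤ (h + 1) * ((C : ℝ) * R * (Δ : ℝ)) := by rw [hGg]; exact h1
        _ = (h + h * z) * ((C : ℝ) * R * (Δ : ℝ)) := by rw [hhz]
        _ = h * ((1 + z) * ((C : ℝ) * R * (Δ : ℝ))) := by ring
    exact le_of_mul_le_mul_left h2 hh0
  have hBiS : (B i : ℝ) ≤ S := by exact_mod_cast hBS i
  have hA1r : (1 : ℝ) ≤ A := by exact_mod_cast hA1
  have hΔ1r : (h : ℝ) ≤ (Δ : ℝ) := by exact_mod_cast hΔ1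
  have hΔ2r : (Δ : ℝ) ≤ D := by
    rw [hD]
    exact_mod_cast hΔ2
  have hfin := loc2 A t (B i) G ((c * (a i * t + 1) : ℕ) : ℝ) C R Δ x y z (c1 ^ 2) h D hA1r
    (hBiS.trans hxS) (Nat.cast_nonneg _) hz0 hz1 (Nat.cast_nonneg _) hCr hRr (by positivity) hxpos
    hh0 hΔ1r hΔ2r hlocR ht1.le (by linarith) hG1 hG2 hxy
  exact ⟨c * (a i * t + 1), a i * t + 1, a j * t + 1, c, hpi, hpj, rfl, hn1, hc0,
    hcB'.trans (hBS j), hfin.1, hfin.2⟩

/-- consecutive integers with large prime factors in every window of ratio `3 + ε` -/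
theorem window (ε : ℝ) (hε : 0 < ε) :
    ∃ m : ℕ, ∀ᶠ y : ℝ in atTop, ∃ n p q c : ℕ, p.Prime ∧ q.Prime ∧ n = c * p ∧
      n + 1 = (c + 1) * q ∧ 1 ≤ c ∧ c + 1 ≤ m ∧ y ≤ n ∧ n ≤ (3 + ε) * y := by
  set F : ℝ → ℝ := fun z => (3 + z) * (1 + z) ^ 4 / (1 - z) with hF
  have hF0 : F 0 = 3 := by simp [hF]
  have hFc : ContinuousAt F 0 := by
    apply ContinuousAt.div (by fun_prop) (by fun_prop)
    norm_num
  have h1 : ∀ᶠ z : ℝ in 𝓝 0, F z < 3 + ε := hFc.eventually (gt_mem_nhds (by rw [hF0]; linarith))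
  have h2 : Tendsto (fun h : ℕ => 1 / (h : ℝ)) atTop (𝓝 0) := tendsto_one_div_atTop_nhds_zero_nat
  obtain ⟨h, hh1, hh2⟩ := ((h2.eventually h1).and (eventually_ge_atTop 2)).exists
  obtain ⟨m, hm⟩ := window_h h hh2
  refine ⟨m, ?_⟩
  filter_upwards [hm, eventually_ge_atTop (0 : ℝ)] with y hy hy0
  obtain ⟨n, p, q, c, e1, e2, e3, e4, e5, e6, e7, e8⟩ := hy
  refine ⟨n, p, q, c, e1, e2, e3, e4, e5, e6, e7, ?_⟩
  have hhr : (2 : ℝ) ≤ h := by exact_mod_cast hh2
  have hh0 : (0 : ℝ) < h := by linarith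
  set z : ℝ := 1 / (h : ℝ) with hz
  have hz0 : 0 < z := by positivity
  have hz1 : z < 1 := by
    rw [hz, div_lt_one hh0]
    linarith
  have hhz : (h : ℝ) * z = 1 := by rw [hz]; field_simp
  have hz2 : 0 < 1 - z := by linarith
  have e9 : (h : ℝ) / (h + 1) = 1 / (1 + z) := by
    rw [div_eq_div_iff (by positivity) (by positivity)]
    linarith
  rw [e9] at e8
  -- `(1 - z) h n ≤ h (3 + z) (1 + z) ^ 4 y`
  have e10 : h * ((1 - z) * n) ≤ h * ((3 + z) * (1 + z) ^ 4 * y) := by
    have e11 : (1 - z) * h * (1 / (1 + z)) ^ 2 * n = h * ((1 - z) * n) / (1 + z) ^ 2 := by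
      field_simp
    rw [e11, div_le_iff₀ (by positivity)] at e8
    calc h * ((1 - z) * n) ≤ (3 * h + 1) * (1 + z) ^ 2 * y * (1 + z) ^ 2 := e8
      _ = (3 * h + h * z) * (1 + z) ^ 4 * y := by rw [hhz]; ring
      _ = _ := by ring
  have e12 := le_of_mul_le_mul_left e10 hh0
  have e13 : (n : ℝ) ≤ F z * y := by
    simp only [hF]
    rw [div_mul_eq_mul_div, le_div_iff₀ hz2]
    linarith
  refine e13.trans ?_
  exact mul_le_mul_of_nonneg_right hh1.le hy0

end Pool.Agent.H47R4
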