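import Mathlib
import Pool.Agent.H47R4.Window
import Pool.Agent.H47R4.Main

/-! Unit fractions with gaps at most two: the ratio of the extreme denominators. -/

namespace Pool.Agent.H47R4

open Finset Filter Topology Nat

/-- consecutive elements differ by at most two -/
def Gap2 (A : Finset ℕ) : Prop :=
  ∀ x ∈ A, ∀ y ∈ A, x < y → (∀ z ∈ A, ¬ (x < z ∧ z < y)) → y - x ≤ 2

theorem ratio3 (ε : ℝ) (hε : 0 < ε) : ∃ N0 : ℕ, ∀ (A : Finset ℕ) (r N : ℕ), (∀ a ∈ A, 0 < a) →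
    (∑ n ∈ A, (1 : ℚ) / (n : ℚ)) = r → Gap2 A → N ∈ A → (∀ a ∈ A, a ≤ N) → N0 ≤ N →
    ∀ a ∈ A, (N : ℝ) < (3 + ε) * a := by
  set e : ℝ := min ε 1 with he
  have he0 : 0 < e := lt_min hε one_pos
  have heε : e ≤ ε := min_le_left _ _
  have he1 : e ≤ 1 := min_le_right _ _
  obtain ⟨m, hm⟩ := window e he0
  obtain ⟨y0, hy0⟩ := Filter.eventually_atTop.1 hm
  refine ⟨⌈4 * |y0|⌉₊ + (4 * m) * ((4 * m) * (4 * m)!) + 1, ?_⟩
  intro A r N hA hsum hgap hNA hN hN0 a haA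
  by_contra hcon
  push Not at hcon
  have hNr : 4 * |y0| ≤ N := by
    have h1 : 4 * |y0| ≤ ⌈4 * |y0|⌉₊ := Nat.le_ceil _
    have h2 : (⌈4 * |y0|⌉₊ : ℝ) ≤ N := by exact_mod_cast (by omega : ⌈4 * |y0|⌉₊ ≤ N)
    linarith
  obtain ⟨n, p, q, c, hp, hq, h1, h2, h3, h4, h5, h6⟩ := hy0 ((N : ℝ) / (3 + e)) (by
    rw [le_div_iff₀ (by linarith)]
    calc y0 * (3 + e) ≤ |y0| * (3 + e) := by
          apply mul_le_mul_of_nonneg_right (le_abs_self _) (by linarith)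
      _ ≤ |y0| * 4 := by
          apply mul_le_mul_of_nonneg_left (by linarith) (abs_nonneg _)
      _ ≤ N := by linarith)
  have h7 : (n : ℝ) ≤ N := by
    have : (3 + e) * ((N : ℝ) / (3 + e)) = N := by field_simp
    rw [this] at h6
    exact h6
  have h7' : n ≤ N := by exact_mod_cast h7
  have hn0 : (0 : ℝ) ≤ n := Nat.cast_nonneg _
  have h8 : (N : ℝ) ≤ 4 * n := by
    rw [div_le_iff₀ (by linarith)] at h5
    nlinarith
  have h8' : N ≤ 4 * n := by exact_mod_cast h8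
  have hp0 := hp.pos
  have hq0 := hq.pos
  have h9 : N < 4 * m * p := by
    have e1 : c * p + p ≤ m * p := by
      calc c * p + p = (c + 1) * p := by ring
        _ ≤ m * p := Nat.mul_le_mul_right _ h4
    have e2 : 4 * m * p = 4 * (m * p) := by ring
    rw [e2]
    omega
  have h10 : N < 4 * m * q := by
    have e1 : (c + 1) * q ≤ m * q := Nat.mul_le_mul_right _ h4
    have e2 : 4 * m * q = 4 * (m * q) := by ring
    rw [e2]
    omega
  have hbig : ∀ p : ℕ, N < 4 * m * p → (4 * m) * (4 * m)! < p := by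
    intro p hNp
    by_contra h
    push Not at h
    have := Nat.mul_le_mul_left (4 * m) h
    omega
  refine no_pair A hA r hsum hgap N hNA hN (4 * m) n p q hp hq (hbig p h9) (hbig q h10) h9 h10
    ⟨c, by rw [h1]; ring⟩ ⟨c + 1, by rw [h2]; ring⟩ ⟨a, haA, ?_⟩ h7'
  have h11 : (a : ℝ) ≤ n := by
    refine le_trans ?_ h5
    rw [le_div_iff₀ (by linarith)]
    have ha0 : (0 : ℝ) ≤ a := Nat.cast_nonneg _
    nlinarith
  exact_mod_cast h11

theorem sum_lt_two (A : Finset ℕ) (a : ℕ) (ha : 2 ≤ a) (h : ∀ n ∈ A, a ≤ n ∧ n < 4 * a) :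
    (∑ n ∈ A, (1 : ℚ) / (n : ℚ)) < 2 := by
  have ha0 : (0 : ℚ) < a := by exact_mod_cast (by omega : 0 < a)
  have hsub : A ⊆ Finset.Ico a (2 * a) ∪ Finset.Ico (2 * a) (4 * a) := by
    intro n hn
    have := h n hn
    rw [Finset.mem_union, Finset.mem_Ico, Finset.mem_Ico]
    omega
  have h1 : (∑ n ∈ A, (1 : ℚ) / (n : ℚ)) ≤
      ∑ n ∈ Finset.Ico a (2 * a) ∪ Finset.Ico (2 * a) (4 * a), (1 : ℚ) / (n : ℚ) :=
    Finset.sum_le_sum_of_subset_of_nonneg hsub fun _ _ _ => by positivity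
  rw [Finset.sum_union (by
    rw [Finset.disjoint_left]
    intro n hn hn'
    rw [Finset.mem_Ico] at hn hn'
    omega)] at h1
  have h2 : ∑ n ∈ Finset.Ico a (2 * a), (1 : ℚ) / (n : ℚ) <
      ∑ _n ∈ Finset.Ico a (2 * a), (1 : ℚ) / (a : ℚ) := by
    apply Finset.sum_lt_sum
    · intro n hn
      rw [Finset.mem_Ico] at hn
      apply one_div_le_one_div_of_le ha0
      exact_mod_cast hn.1
    · refine ⟨a + 1, by rw [Finset.mem_Ico]; omega, ?_⟩
      apply one_div_lt_one_div_of_lt ha0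
      push_cast
      linarith
  have h3 : ∑ n ∈ Finset.Ico (2 * a) (4 * a), (1 : ℚ) / (n : ℚ) ≤
      ∑ _n ∈ Finset.Ico (2 * a) (4 * a), (1 : ℚ) / (2 * a : ℚ) := by
    apply Finset.sum_le_sum
    intro n hn
    rw [Finset.mem_Ico] at hn
    apply one_div_le_one_div_of_le (by positivity)
    exact_mod_cast hn.1
  rw [Finset.sum_const, Nat.card_Ico, nsmul_eq_mul] at h2 h3
  have e2 : ((2 * a - a : ℕ) : ℚ) * (1 / (a : ℚ)) = 1 := by
    have : 2 * a - a = a := by omega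
    rw [this]
    field_simp
  have e3 : ((4 * a - 2 * a : ℕ) : ℚ) * (1 / (2 * a : ℚ)) = 1 := by
    have : 4 * a - 2 * a = 2 * a := by omega
    rw [this]
    push_cast
    field_simp
  rw [e2] at h2
  rw [e3] at h3
  linarith

theorem sum_Icc_le (a b : ℕ) (ha : 1 ≤ a) (hab : a ≤ b) :
    ∑ n ∈ Finset.Icc a b, (1 : ℝ) / n ≤ 1 / a + Real.log (b / a) := by
  have ha0 : (0 : ℝ) < a := by exact_mod_cast ha
  induction b, hab using Nat.le_induction with
  | base => simp [ha0.ne']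
  | succ b hab ih =>
    have hb0 : (0 : ℝ) < b := by
      have : (a : ℝ) ≤ b := by exact_mod_cast hab
      linarith
    rw [Finset.sum_Icc_succ_top (by omega)]
    have h1 := Real.one_sub_inv_le_log_of_pos (show 0 < ((b : ℝ) + 1) / b by positivity)
    have h2 : 1 - (((b : ℝ) + 1) / b)⁻¹ = 1 / ((b : ℝ) + 1) := by
      rw [inv_div]
      field_simp
      ring
    have h3 : Real.log (((b + 1 : ℕ) : ℝ) / a) = Real.log (b / a) + Real.log (((b : ℝ) + 1) / b) := by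
      rw [← Real.log_mul (by positivity) (by positivity)]
      congr 1
      push_cast
      field_simp
    rw [h3]
    rw [h2] at h1
    push_cast
    linarith

/-- the structure of long solutions with gaps at most two -/
theorem structure3 (ε : ℝ) (hε : 0 < ε) : ∃ N0 : ℕ, ∀ (A : Finset ℕ) (N : ℕ), (∀ a ∈ A, 0 < a) →
    (∑ n ∈ A, (1 : ℚ) / (n : ℚ)) = 1 → Gap2 A → N ∈ A → (∀ a ∈ A, a ≤ N) → N0 ≤ N →
    ∀ a ∈ A, (N : ℝ) < (3 + ε) * a ∧
      ∑ n ∈ Finset.Icc a N \ A, (1 : ℝ) / n ≤ Real.log 3 - 1 + ε := by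
  obtain ⟨N1, hN1⟩ := ratio3 ε hε
  refine ⟨N1 + ⌈2 * (3 + ε) / ε⌉₊ + 1, ?_⟩
  intro A N hA hsum hgap hNA hN hN0 a haA
  have h1 := hN1 A 1 N hA (by rw [hsum]; norm_num) hgap hNA hN (by omega)
  refine ⟨h1 a haA, ?_⟩
  have hne : A.Nonempty := ⟨N, hNA⟩
  set a₁ := A.min' hne with ha₁
  have ha₁A : a₁ ∈ A := A.min'_mem hne
  have ha₁1 : 1 ≤ a₁ := hA _ ha₁A
  have ha₁N : a₁ ≤ N := hN _ ha₁A
  have ha₁0 : (0 : ℝ) < a₁ := by exact_mod_cast ha₁1
  have hN0r : (0 : ℝ) < N := lt_of_lt_of_le ha₁0 (by exact_mod_cast ha₁N)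
  have hsub : A ⊆ Finset.Icc a₁ N := fun n hn => Finset.mem_Icc.2 ⟨A.min'_le n hn, hN n hn⟩
  have hsumR : ∑ n ∈ A, (1 : ℝ) / n = 1 := by
    have := congrArg (fun x : ℚ => (x : ℝ)) hsum
    push_cast at this
    exact this
  have h2 : ∑ n ∈ Finset.Icc a N \ A, (1 : ℝ) / n ≤ ∑ n ∈ Finset.Icc a₁ N \ A, (1 : ℝ) / n := by
    apply Finset.sum_le_sum_of_subset_of_nonneg
    · apply Finset.sdiff_subset_sdiff _ (Finset.Subset.refl A)
      apply Finset.Icc_subset_Icc (A.min'_le a haA) le_rfl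
    · intro _ _ _
      positivity
  have h3 := Finset.sum_sdiff (f := fun n : ℕ => (1 : ℝ) / n) hsub
  rw [hsumR] at h3
  have h4 := sum_Icc_le a₁ N ha₁1 ha₁N
  have h5 : Real.log (N / a₁) ≤ Real.log 3 + ε / 3 := by
    have h6 : (N : ℝ) / a₁ ≤ 3 * (1 + ε / 3) := by
      rw [div_le_iff₀ ha₁0]
      have := h1 a₁ ha₁A
      linarith
    calc Real.log (N / a₁) ≤ Real.log (3 * (1 + ε / 3)) := Real.log_le_log (by positivity) h6
      _ = Real.log 3 + Real.log (1 + ε / 3) := Real.log_mul (by norm_num) (by positivity)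
      _ ≤ _ := by
          have := Real.log_le_sub_one_of_pos (show 0 < 1 + ε / 3 by positivity)
          linarith
  have h7 : (1 : ℝ) / a₁ ≤ ε / 2 := by
    rw [div_le_div_iff₀ ha₁0 (by norm_num)]
    have h8 : 2 * (3 + ε) / ε ≤ N := by
      have h9 : 2 * (3 + ε) / ε ≤ ⌈2 * (3 + ε) / ε⌉₊ := Nat.le_ceil _
      have h10 : (⌈2 * (3 + ε) / ε⌉₊ : ℝ) ≤ N := by
        exact_mod_cast (by omega : ⌈2 * (3 + ε) / ε⌉₊ ≤ N)
      linarith
    rw [div_le_iff₀ hε] at h8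
    have h11 := h1 a₁ ha₁A
    have h12 : (N : ℝ) * ε ≤ ((3 + ε) * a₁) * ε := mul_le_mul_of_nonneg_right h11.le hε.le
    have h13 : (3 + ε) * 2 ≤ (3 + ε) * (a₁ * ε) := by linarith
    have h14 := le_of_mul_le_mul_left h13 (by linarith)
    linarith
  linarith

/-- finiteness for integral sums at least two -/
theorem finite_two : ∃ N0 : ℕ, ∀ (A : Finset ℕ) (r : ℕ), 2 ≤ r → (∀ a ∈ A, 0 < a) →
    (∑ n ∈ A, (1 : ℚ) / (n : ℚ)) = r → Gap2 A → ∀ a ∈ A, a < N0 := by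
  obtain ⟨N1, hN1⟩ := ratio3 1 one_pos
  refine ⟨N1 + 8, ?_⟩
  intro A r hr hA hsum hgap a haA
  have hne : A.Nonempty := ⟨a, haA⟩
  set N := A.max' hne with hN
  have hNA : N ∈ A := A.max'_mem hne
  have hNmax : ∀ a ∈ A, a ≤ N := fun a ha => A.le_max' a ha
  by_contra hcon
  push Not at hcon
  have haN := hNmax a haA
  have h1 := hN1 A r N hA hsum hgap hNA hNmax (by omega)
  set a₁ := A.min' hne with ha₁
  have ha₁A : a₁ ∈ A := A.min'_mem hne
  have h2 : N < 4 * a₁ := by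
    have h3 := h1 a₁ ha₁A
    have h4 : (N : ℝ) < 4 * a₁ := by linarith
    exact_mod_cast h4
  have h5 := sum_lt_two A a₁ (by omega) (fun n hn =>
    ⟨A.min'_le n hn, lt_of_le_of_lt (hNmax n hn) h2⟩)
  rw [hsum] at h5
  have h6 : (2 : ℚ) ≤ r := by exact_mod_cast hr
  linarith

end Pool.Agent.H47R4
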