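import Mathlib
import Pool.Agent.H47R4.Window

/-! Locations controlled by the differences of the classes. -/

namespace Pool.Agent.H47R4

open Finset Filter Topology Nat

/-- consecutive integers with large prime factors at locations controlled by differences -/
theorem forms_loc (T M₀ h : ℕ) (hTM : 4 * M₀ < T) (hh : 2 ≤ h) (𝒟 : ℕ → Prop)
    (h𝒟 : ∀ S : Finset ℕ, (∀ x ∈ S, x < T) → M₀ + 1 ≤ S.card →
      ∃ x ∈ S, ∃ y ∈ S, x < y ∧ 𝒟 (y - x)) :
    ∃ m : ℕ, ∀ᶠ y : ℝ in atTop, ∃ n p q c Δ : ℕ, p.Prime ∧ q.Prime ∧ n = c * p ∧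
      n + 1 = (c + 1) * q ∧ 1 ≤ c ∧ c + 1 ≤ m ∧ 1 ≤ Δ ∧ 𝒟 Δ ∧ y / Δ ≤ n ∧
      (1 - 1 / (h : ℝ)) * ((h : ℝ) / (h + 1)) ^ 2 * n ≤ (1 + 1 / (h : ℝ)) ^ 2 * (y / Δ) := by
  classical
  obtain ⟨K, hK, hcore⟩ := tent_core T M₀ hTM
  have hhr : (2 : ℝ) ≤ h := by exact_mod_cast hh
  have hh0 : (0 : ℝ) < h := by linarith
  set c1 : ℝ := (h : ℝ) / (h + 1) with hc1
  have hc1p : 0 < c1 := by positivity
  have hc11 : c1 < 1 := by
    rw [hc1, div_lt_one (by positivity)]
    linarith
  have hTC : TC (c1 ^ 2) c1 1 := ⟨by positivity, by nlinarith, hc11, le_rfl, by ring⟩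
  have hcore := hcore (c1 ^ 2) c1 1 hTC
  set e : Fin T × Fin K ≃ Fin (T * K) := finProdFinEquiv with he
  set cl : Fin (T * K) → Fin T := fun i => (e.symm i).1 with hcl
  have hcard : ∀ g, (univ.filter (fun i => cl i = g)).card = K := by
    intro g
    have h1 : (univ.filter (fun i => cl i = g)) = univ.image (fun j : Fin K => e (g, j)) := by
      ext i
      simp only [mem_filter, mem_univ, true_and, mem_image]
      constructor
      · intro h
        refine ⟨(e.symm i).2, ?_⟩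
        rw [Equiv.apply_eq_iff_eq_symm_apply]
        exact Prod.ext h.symm rfl
      · rintro ⟨j, rfl⟩
        simp [hcl]
    rw [h1, Finset.card_image_of_injective _ (by
      intro j j' h
      have := e.injective h
      simpa using this)]
    simp
  set R : ℕ := h * (T * K + 1) with hR
  have hT1 : 1 ≤ T := by omega
  have hTK : 1 ≤ T * K := Nat.mul_pos hT1 (by omega)
  have hR0 : 2 * (T * K + 1) ≤ R := Nat.mul_le_mul_right _ hh
  have hR1 : 1 ≤ R := by omega
  set r : Fin (T * K) → ℕ := fun i => R * (cl i).val + i.val with hr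
  have hrinj : Function.Injective r := by
    intro i j hij
    simp only [hr] at hij
    have hi := i.2
    have hj := j.2
    have key : ∀ g g' u w : ℕ, g < g' → u < T * K → w < T * K →
        R * g + u ≠ R * g' + w := by
      intro g g' u w hgg hu hw heq
      have h7 : R * (g + 1) ≤ R * g' := Nat.mul_le_mul_left R hgg
      rw [Nat.mul_add] at h7
      omega
    rcases lt_trichotomy (cl i).val (cl j).val with h | h | h
    · exact absurd hij (key _ _ _ _ h hi hj)
    · have : cl i = cl j := Fin.ext h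
      rw [this] at hij
      exact Fin.ext (by omega)
    · exact absurd hij.symm (key _ _ _ _ h hj hi)
  obtain ⟨C, M, δ, hC, hM, hδ, hdiv⟩ := shape 2 le_rfl (univ.image r)
  have hmem : ∀ i, r i ∈ univ.image r := fun i => Finset.mem_image_of_mem r (Finset.mem_univ i)
  set Bz : Fin (T * K) → ℤ := fun i => C * r i + M + δ (r i) with hBz
  have hBz1 : ∀ i, 1 ≤ Bz i := by
    intro i
    have h3 := (hδ _ (hmem i)).1
    have h4 : 0 ≤ C * (r i : ℤ) := by positivity
    simp only [hBz]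
    linarith
  set B : Fin (T * K) → ℕ := fun i => (Bz i).toNat with hB
  have hBc : ∀ i, (B i : ℤ) = Bz i := fun i => Int.toNat_of_nonneg (by linarith [hBz1 i])
  have hB1 : ∀ i, 1 ≤ B i := by
    intro i
    have h3 := hBz1 i
    rw [← hBc] at h3
    exact_mod_cast h3
  -- gaps
  have hgap : ∀ i j : Fin (T * K), (cl i).val < (cl j).val →
      ((h : ℤ) - 1) * (C * R * (((cl j).val : ℤ) - (cl i).val)) ≤ h * (Bz j - Bz i) ∧
      h * (Bz j - Bz i) ≤ ((h : ℤ) + 1) * (C * R * (((cl j).val : ℤ) - (cl i).val)) := by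
    intro i j hij
    have hi : (i.val : ℤ) + 1 ≤ T * K := by exact_mod_cast i.2
    have hj : (j.val : ℤ) + 1 ≤ T * K := by exact_mod_cast j.2
    have hi0 : (0 : ℤ) ≤ i.val := by positivity
    have hj0 : (0 : ℤ) ≤ j.val := by positivity
    obtain ⟨h6, h7⟩ := hδ _ (hmem i)
    obtain ⟨h8, h9⟩ := hδ _ (hmem j)
    have hRz : (R : ℤ) = h * (T * K + 1) := by rw [hR]; push_cast; ring
    have hΔ : (1 : ℤ) ≤ ((cl j).val : ℤ) - (cl i).val := by
      have : ((cl i).val : ℤ) < (cl j).val := by exact_mod_cast hij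
      linarith
    have hrd : (r j : ℤ) - r i = R * (((cl j).val : ℤ) - (cl i).val) + (j.val - i.val) := by
      simp only [hr]
      push_cast
      ring
    set Δ : ℤ := ((cl j).val : ℤ) - (cl i).val with hΔd
    have hdB : Bz j - Bz i = C * R * Δ + C * ((j.val : ℤ) - i.val) + (δ (r j) - δ (r i)) := by
      have : Bz j - Bz i = C * ((r j : ℤ) - r i) + (δ (r j) - δ (r i)) := by
        simp only [hBz]
        ring
      rw [this, hrd]
      ring
    have hh0z : (0 : ℤ) ≤ h := by positivity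
    have e1 : C * ((j.val : ℤ) - i.val) + (δ (r j) - δ (r i)) ≤ C * (T * K + 1) := by
      have : C * ((j.val : ℤ) - i.val) ≤ C * (T * K) := by
        apply mul_le_mul_of_nonneg_left _ (by linarith)
        linarith
      linarith
    have e2 : -(C * (T * K + 1)) ≤ C * ((j.val : ℤ) - i.val) + (δ (r j) - δ (r i)) := by
      have : C * (-(T * K)) ≤ C * ((j.val : ℤ) - i.val) := by
        apply mul_le_mul_of_nonneg_left _ (by linarith)
        linarith
      linarith
    have e3 : (h : ℤ) * (C * (T * K + 1)) ≤ C * R * Δ := by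
      have e4 : (h : ℤ) * (C * (T * K + 1)) = C * R * 1 := by rw [hRz]; ring
      rw [e4]
      apply mul_le_mul_of_nonneg_left hΔ
      positivity
    have e5 := mul_le_mul_of_nonneg_left e1 hh0z
    have e6 := mul_le_mul_of_nonneg_left e2 hh0z
    rw [hdB]
    constructor <;> nlinarith
  obtain ⟨a, A, haA, hadvd, hA1⟩ : ∃ (a : Fin (T * K) → ℕ) (A : ℕ), (∀ i, B i * a i = A) ∧
      (∀ i, (T * K + 1)! ∣ a i) ∧ 1 ≤ A := by
    refine ⟨fun i => (T * K + 1)! * ∏ j ∈ univ.erase i, B j, (T * K + 1)! * ∏ j, B j,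
      fun i => ?_, fun i => Dvd.intro _ rfl,
      Nat.mul_pos (Nat.factorial_pos _) (Finset.prod_pos fun j _ => hB1 j)⟩
    rw [← Finset.mul_prod_erase univ B (Finset.mem_univ i)]
    ring
  have ha1 : ∀ i, 1 ≤ a i := by
    intro i
    by_contra h
    have h3 : a i = 0 := by omega
    have := haA i
    rw [h3] at this
    omega
  have hBinj : ∀ i j, i ≠ j → B i ≠ B j := by
    intro i j hij h
    have h3 : Bz i = Bz j := by rw [← hBc, ← hBc, h]
    have h4 := hdiv _ (hmem i) _ (hmem j) (fun h => hij (hrinj h))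
    have h5 : (C * (r i : ℤ) + M + δ (r i)) - (C * r j + M + δ (r j)) = 0 := by
      have h6 : C * (r i : ℤ) + M + δ (r i) = Bz i := rfl
      have h7 : C * (r j : ℤ) + M + δ (r j) = Bz j := rfl
      rw [h6, h7, h3, sub_self]
    rw [h5, zero_dvd_iff] at h4
    have h8 := hBz1 i
    have h9 : Bz i = 0 := h4
    omega
  have hmain := hcore a (fun _ => 1) cl hcard ha1 (fun _ => le_rfl)
    (by
      intro i j hij h
      rw [mul_one, mul_one] at h
      apply hBinj i j hij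
      have h3 := haA i
      rw [← haA j, h] at h3
      exact Nat.eq_of_mul_eq_mul_right (ha1 j) h3)
    (adm_forms a hadvd)
  set S : ℕ := ∑ i, B i with hS
  have hBS : ∀ i, B i ≤ S := fun i =>
    Finset.single_le_sum (f := B) (fun _ _ => Nat.zero_le _) (Finset.mem_univ i)
  -- from `x` to `y`
  have hCr : (0 : ℝ) < C := by exact_mod_cast (by omega : (0 : ℤ) < C)
  have hRr : (0 : ℝ) < R := by exact_mod_cast (by omega : 0 < R)
  have hAr : (0 : ℝ) < A := by exact_mod_cast hA1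
  set z : ℝ := 1 / (h : ℝ) with hz
  have hz0 : 0 < z := by positivity
  have hz1 : z < 1 := by
    rw [hz, div_lt_one hh0]
    linarith
  have hhz : (h : ℝ) * z = 1 := by rw [hz]; field_simp
  have htend : Tendsto (fun y : ℝ => (C * R * (1 + z) / (A * c1 ^ 2) : ℝ) * y) atTop atTop :=
    tendsto_id.const_mul_atTop (by positivity)
  refine ⟨S, ?_⟩
  filter_upwards [htend.eventually hmain,
    htend.eventually (eventually_ge_atTop ((S : ℝ) / z))] with y hy1 hy2
  obtain ⟨x, hx⟩ : ∃ x : ℝ, (C * R * (1 + z) / (A * c1 ^ 2) : ℝ) * y = x := ⟨_, rfl⟩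
  rw [hx] at hy1 hy2
  have hxy : A * c1 ^ 2 * x = C * R * (1 + z) * y := by rw [← hx]; field_simp
  have hxS : (S : ℝ) ≤ z * x := by
    rw [div_le_iff₀ hz0] at hy2
    linarith
  have hxpos : 0 ≤ x := by
    have h1 : 0 ≤ z * x := le_trans (Nat.cast_nonneg _) hxS
    exact nonneg_of_mul_nonneg_right h1 hz0
  obtain ⟨t, ht1, ht2, ht3⟩ := hy1
  -- two classes at the right distance
  set Sc : Finset ℕ := (univ.filter (fun g : Fin T => ∃ i, cl i = g ∧
    (a i * t + 1).Prime)).image Fin.val with hSc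
  have hScard : M₀ + 1 ≤ Sc.card := by
    rw [hSc, Finset.card_image_of_injective _ Fin.val_injective]
    exact ht3
  obtain ⟨g1, hg1, g2, hg2, hg3, hg4⟩ := h𝒟 Sc (by
    intro g hg
    rw [hSc, Finset.mem_image] at hg
    obtain ⟨g', -, rfl⟩ := hg
    exact g'.2) hScard
  rw [hSc, Finset.mem_image] at hg1 hg2
  obtain ⟨g1', hg1', rfl⟩ := hg1
  obtain ⟨g2', hg2', rfl⟩ := hg2
  rw [mem_filter] at hg1' hg2'
  obtain ⟨-, i, hi, hpi⟩ := hg1'
  obtain ⟨-, j, hj, hpj⟩ := hg2'
  have hij : (cl i).val < (cl j).val := by rw [hi, hj]; omega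
  have hΔn1 : 1 ≤ g2'.val - g1'.val := by omega
  obtain ⟨Δn, hΔn⟩ : ∃ Δn : ℕ, g2'.val - g1'.val = Δn := ⟨_, rfl⟩
  rw [hΔn] at hg4 hΔn1
  obtain ⟨hG1z, hG2z⟩ := hgap i j hij
  have hΔ1 : ((cl j).val : ℤ) - (cl i).val = Δn := by rw [hi, hj]; omega
  set Δ : ℤ := ((cl j).val : ℤ) - (cl i).val with hΔd
  have hneij : r j ≠ r i := by
    intro h
    have := hrinj h
    rw [this] at hij
    exact lt_irrefl _ hij
  have hdj : (Bz j - Bz i) ∣ Bz j := hdiv _ (hmem j) _ (hmem i) hneij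
  have hdi : (Bz j - Bz i) ∣ Bz i := by
    have h6 : Bz i = Bz j - (Bz j - Bz i) := by ring
    rw [h6]
    exact dvd_sub (by rw [← h6]; exact hdj) (by rw [← h6])
  set g : ℤ := Bz j - Bz i with hg
  have hh2z : (2 : ℤ) ≤ h := by exact_mod_cast hh
  have hgpos : 0 < g := by
    have h1 : 0 < ((h : ℤ) - 1) * (C * R * Δ) := by
      have h2 : (0 : ℤ) < R := by exact_mod_cast (by omega : 0 < R)
      have h3 : (0 : ℤ) < Δ := by rw [hΔ1]; exact_mod_cast hΔn1
      have h4 : (0 : ℤ) < (h : ℤ) - 1 := by linarith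
      positivity
    have h2 : 0 < (h : ℤ) * g := lt_of_lt_of_le h1 hG1z
    exact (mul_pos_iff_of_pos_left (by linarith)).1 h2
  obtain ⟨ci, hci⟩ := hdi
  obtain ⟨cj, hcj⟩ := hdj
  have hcji : cj = ci + 1 := by
    have h6 : g * (cj - ci) = g * 1 := by
      rw [mul_sub, ← hci, ← hcj, hg]
      ring
    have := mul_left_cancel₀ hgpos.ne' h6
    linarith
  have hci0 : 0 < ci := by
    have h6 := hBz1 i
    rw [hci] at h6
    exact (mul_pos_iff_of_pos_left hgpos).1 (by linarith)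
  obtain ⟨c, hc⟩ := Int.eq_ofNat_of_zero_le hci0.le
  have hc0 : 0 < c := by
    rw [hc] at hci0
    exact_mod_cast hci0
  obtain ⟨G, hG⟩ := Int.eq_ofNat_of_zero_le hgpos.le
  have hG0 : 0 < G := by
    rw [hG] at hgpos
    exact_mod_cast hgpos
  have hBi : B i = G * c := by
    have : (B i : ℤ) = G * c := by rw [hBc, hci, hG, hc]
    exact_mod_cast this
  have hBj : B j = G * (c + 1) := by
    have : (B j : ℤ) = G * (c + 1) := by rw [hBc, hcj, hcji, hG, hc]
    exact_mod_cast this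
  have hcc : c * a i = (c + 1) * a j := by
    have h6 : G * (c * a i) = G * ((c + 1) * a j) := by
      calc G * (c * a i) = (G * c) * a i := by ring
        _ = A := by rw [← hBi, haA]
        _ = (G * (c + 1)) * a j := by rw [← hBj, haA]
        _ = _ := by ring
    exact Nat.eq_of_mul_eq_mul_left hG0 h6
  have hcB' : c + 1 ≤ B j := by
    rw [hBj]
    exact Nat.le_mul_of_pos_left _ hG0
  have hn1 : c * (a i * t + 1) + 1 = (c + 1) * (a j * t + 1) := by
    calc c * (a i * t + 1) + 1 = (c * a i) * t + c + 1 := by ring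
      _ = ((c + 1) * a j) * t + c + 1 := by rw [hcc]
      _ = _ := by ring
  have hloc : G * (c * (a i * t + 1)) = A * t + B i := by
    calc G * (c * (a i * t + 1)) = (G * c) * a i * t + G * c := by ring
      _ = _ := by rw [← hBi, haA]
  have hlocR : (G : ℝ) * ((c * (a i * t + 1) : ℕ) : ℝ) = A * t + B i := by exact_mod_cast hloc
  have hGg : (G : ℝ) = (g : ℝ) := by rw [hG]; norm_num
  have hG1 : (1 - z) * ((C : ℝ) * R * (Δ : ℝ)) ≤ G := by
    have h1 : (((h : ℤ) - 1) * (C * R * Δ) : ℝ) ≤ h * g := by exact_mod_cast hG1z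
    push_cast at h1
    have h2 : (h : ℝ) * ((1 - z) * ((C : ℝ) * R * (Δ : ℝ))) ≤ h * G := by
      calc (h : ℝ) * ((1 - z) * ((C : ℝ) * R * (Δ : ℝ)))
          = (h - h * z) * ((C : ℝ) * R * (Δ : ℝ)) := by ring
        _ = (h - 1) * ((C : ℝ) * R * (Δ : ℝ)) := by rw [hhz]
        _ ≤ h * G := by rw [hGg]; exact h1
    exact le_of_mul_le_mul_left h2 hh0
  have hG2 : (G : ℝ) ≤ (1 + z) * ((C : ℝ) * R * (Δ : ℝ)) := by
    have h1 : (h * g : ℝ) ≤ (((h : ℤ) + 1) * (C * R * Δ) : ℝ) := by exact_mod_cast hG2z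
    push_cast at h1
    have h2 : (h : ℝ) * G ≤ h * ((1 + z) * ((C : ℝ) * R * (Δ : ℝ))) := by
      calc (h : ℝ) * G ≤ (h + 1) * ((C : ℝ) * R * (Δ : ℝ)) := by rw [hGg]; exact h1
        _ = (h + h * z) * ((C : ℝ) * R * (Δ : ℝ)) := by rw [hhz]
        _ = h * ((1 + z) * ((C : ℝ) * R * (Δ : ℝ))) := by ring
    exact le_of_mul_le_mul_left h2 hh0
  have hBiS : (B i : ℝ) ≤ S := by exact_mod_cast hBS i
  have hA1r : (1 : ℝ) ≤ A := by exact_mod_cast hA1
  have hΔr : (Δ : ℝ) = (Δn : ℝ) := by exact_mod_cast hΔ1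
  have hΔr0 : (0 : ℝ) < (Δn : ℝ) := by exact_mod_cast hΔn1
  rw [hΔr] at hG1 hG2
  have hfin := loc2 A t (B i) G ((c * (a i * t + 1) : ℕ) : ℝ) C R Δn x (y / Δn) z (c1 ^ 2) Δn Δn hA1r
    (hBiS.trans hxS) (Nat.cast_nonneg _) hz0 hz1 (Nat.cast_nonneg _) hCr hRr (by positivity) hxpos
    hΔr0 le_rfl le_rfl hlocR ht1.le (by linarith) hG1 hG2 (by rw [hxy]; field_simp)
  refine ⟨c * (a i * t + 1), a i * t + 1, a j * t + 1, c, Δn, hpi, hpj, rfl, hn1, hc0,
    hcB'.trans (hBS j), hΔn1, hg4, hfin.1, ?_⟩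
  have h20 : (Δn : ℝ) * ((1 - z) * c1 ^ 2 * ((c * (a i * t + 1) : ℕ) : ℝ)) ≤
      Δn * ((1 + z) ^ 2 * (y / Δn)) := by
    linarith [hfin.2]
  exact le_of_mul_le_mul_left h20 hΔr0


end Pool.Agent.H47R4
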