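import Mathlib
import Pool.Agent.H47R4.Loc
import Pool.Agent.H47R4.Apps

/-! Clusters of largest denominators. -/

namespace Pool.Agent.H47R4

open Finset Filter Topology Nat

/-- a set without differences in `[1000, 2700]` has at most a thousand elements in an interval of
length `3700` -/
theorem block (S : Finset ℕ) (hS : ∀ x ∈ S, ∀ y ∈ S, x + 1000 ≤ y → ¬ y ≤ x + 2700) (u : ℕ) :
    (S.filter (fun x => u ≤ x ∧ x < u + 3700)).card ≤ 1000 := by
  by_contra hcon
  push Not at hcon
  set S' := (S.filter (fun x => u ≤ x ∧ x < u + 3700)).image (fun x => x - u) with hS'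
  have hinj : Set.InjOn (fun x => x - u) (S.filter (fun x => u ≤ x ∧ x < u + 3700) : Finset ℕ) := by
    intro a ha b hb hab
    rw [Finset.mem_coe, Finset.mem_filter] at ha hb
    simp only at hab
    omega
  have hcard : 1000 + 1 ≤ S'.card := by
    rw [hS', Finset.card_image_of_injOn hinj]
    omega
  obtain ⟨x, hx, y, hy, h1, h2⟩ := comb 1000 2700 (by norm_num) S' (by
    intro x hx
    rw [hS', Finset.mem_image] at hx
    obtain ⟨w, hw, rfl⟩ := hx
    rw [Finset.mem_filter] at hw
    omega) hcard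
  rw [hS', Finset.mem_image] at hx hy
  obtain ⟨a, ha, rfl⟩ := hx
  obtain ⟨b, hb, rfl⟩ := hy
  rw [Finset.mem_filter] at ha hb
  exact hS a ha.1 b hb.1 (by omega) (by omega)

theorem blocks (S : Finset ℕ) (hS : ∀ x ∈ S, ∀ y ∈ S, x + 1000 ≤ y → ¬ y ≤ x + 2700) (u k : ℕ) :
    (S.filter (fun x => u ≤ x ∧ x < u + 3700 * k)).card ≤ 1000 * k := by
  induction k with
  | zero =>
    rw [Finset.filter_false_of_mem]
    · simp
    · intro x _ h
      omega
  | succ k ih =>
    have hsub : S.filter (fun x => u ≤ x ∧ x < u + 3700 * (k + 1)) ⊆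
        S.filter (fun x => u ≤ x ∧ x < u + 3700 * k) ∪
        S.filter (fun x => u + 3700 * k ≤ x ∧ x < u + 3700 * k + 3700) := by
      intro x hx
      rw [Finset.mem_filter] at hx
      rw [Finset.mem_union, Finset.mem_filter, Finset.mem_filter]
      by_cases h : x < u + 3700 * k
      · left
        exact ⟨hx.1, hx.2.1, h⟩
      · right
        exact ⟨hx.1, by omega, by omega⟩
    have h1 := (Finset.card_le_card hsub).trans (Finset.card_union_le _ _)
    have h2 := block S hS (u + 3700 * k)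
    omega

/-- the two-scale lemma -/
theorem two_scale (D E : ℕ) (hD : 2700 ≤ D) (hE1 : 10 * E ≤ 27 * D) (hE2 : 27 * D ≤ 10 * E + 9)
    (S : Finset ℕ) (hS : ∀ x ∈ S, x < D + E)
    (hcard : 1000 * ((D + 7398) / 3700) + 1 ≤ S.card) :
    ∃ x ∈ S, ∃ y ∈ S, x < y ∧ ((1000 ≤ y - x ∧ y - x ≤ 2700) ∨ (D ≤ y - x ∧ y - x ≤ E)) := by
  by_contra hcon
  push Not at hcon
  have hS1 : ∀ x ∈ S, ∀ y ∈ S, x + 1000 ≤ y → ¬ y ≤ x + 2700 := by
    intro x hx y hy h1 h2
    have := (hcon x hx y hy (by omega)).1 (by omega)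
    omega
  have hS2 : ∀ x ∈ S, ∀ y ∈ S, x + D ≤ y → x + E < y := by
    intro x hx y hy h1
    have := (hcon x hx y hy (by omega)).2 (by omega)
    omega
  have hne : S.Nonempty := Finset.card_pos.1 (by omega)
  set x0 := S.min' hne with hx0
  have hx0S : x0 ∈ S := S.min'_mem hne
  have hAne : (S.filter (fun y => y < x0 + D)).Nonempty :=
    ⟨x0, Finset.mem_filter.2 ⟨hx0S, by omega⟩⟩
  set α := (S.filter (fun y => y < x0 + D)).max' hAne with hα
  have hαm := Finset.max'_mem _ hAne
  rw [← hα, Finset.mem_filter] at hαm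
  have h7 : x0 ≤ α := S.min'_le α hαm.1
  set k1 := (α + 1 - x0 + 3699) / 3700 with hk1
  set k2 := (D + E - (α + E + 1) + 3699) / 3700 with hk2
  have hsub : S ⊆ S.filter (fun x => x0 ≤ x ∧ x < x0 + 3700 * k1) ∪
      S.filter (fun x => α + E + 1 ≤ x ∧ x < α + E + 1 + 3700 * k2) := by
    intro y hy
    have h1 := hS y hy
    have h2 : x0 ≤ y := S.min'_le y hy
    rw [Finset.mem_union, Finset.mem_filter, Finset.mem_filter]
    by_cases h3 : y < x0 + D
    · left
      have h4 : y ≤ α := Finset.le_max' _ y (Finset.mem_filter.2 ⟨hy, h3⟩)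
      exact ⟨hy, h2, by omega⟩
    · right
      have h4 := hS2 x0 hx0S y hy (by omega)
      have h5 := hS2 α hαm.1 y hy (by omega)
      exact ⟨hy, by omega, by omega⟩
  have h6 := (Finset.card_le_card hsub).trans (Finset.card_union_le _ _)
  have h8 := blocks S hS1 x0 k1
  have h9 := blocks S hS1 (α + E + 1) k2
  omega

end Pool.Agent.H47R4
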