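import Mathlib
import Pool.Agent.H47R4.Clus

/-! Clusters of largest denominators: the theorem. -/

namespace Pool.Agent.H47R4

open Finset Filter Topology Nat

/-- `N` is the largest element of `A`, a solution with gaps at most two -/
def MaxOf (A : Finset ℕ) (N : ℕ) : Prop := (∀ a ∈ A, 0 < a) ∧
    (∑ n ∈ A, (1 : ℚ) / (n : ℚ)) = 1 ∧ Gap2 A ∧ N ∈ A ∧ ∀ a ∈ A, a ≤ N

theorem min_le : ∃ N0 : ℕ, ∀ (A : Finset ℕ) (N : ℕ), MaxOf A N → N0 ≤ N →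
    ∃ a ∈ A, 271 * a ≤ 100 * N := by
  obtain ⟨N1, hN1⟩ := ratio3 1 one_pos
  refine ⟨N1 + 4000, ?_⟩
  rintro A N ⟨hA, hsum, hgap, hNA, hN⟩ hN0
  have h1 := hN1 A 1 N hA (by rw [hsum]; norm_num) hgap hNA hN (by omega)
  have hne : A.Nonempty := ⟨N, hNA⟩
  set a₁ := A.min' hne with ha₁
  have ha₁A : a₁ ∈ A := A.min'_mem hne
  have ha₁1 : 1 ≤ a₁ := hA _ ha₁A
  have ha₁N : a₁ ≤ N := hN _ ha₁A
  have ha₁0 : (0 : ℝ) < a₁ := by exact_mod_cast ha₁1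
  refine ⟨a₁, ha₁A, ?_⟩
  have hNr : (4000 : ℝ) ≤ N := by exact_mod_cast (by omega : 4000 ≤ N)
  have ha1000 : (1000 : ℝ) ≤ a₁ := by
    have := h1 a₁ ha₁A
    linarith
  have hsub : A ⊆ Finset.Icc a₁ N := fun n hn => Finset.mem_Icc.2 ⟨A.min'_le n hn, hN n hn⟩
  have hsumR : ∑ n ∈ A, (1 : ℝ) / n = 1 := by
    have := congrArg (fun x : ℚ => (x : ℝ)) hsum
    push_cast at this
    exact this
  have h2 : ∑ n ∈ A, (1 : ℝ) / n ≤ ∑ n ∈ Finset.Icc a₁ N, (1 : ℝ) / n :=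
    Finset.sum_le_sum_of_subset_of_nonneg hsub fun _ _ _ => by positivity
  have h3 := sum_Icc_le a₁ N ha₁1 ha₁N
  have h4 : (1 : ℝ) / a₁ ≤ 1 / 1000 := one_div_le_one_div_of_le (by norm_num) ha1000
  have h5 : 999 / 1000 ≤ Real.log (N / a₁) := by linarith
  have h6 : Real.exp (999 / 1000) ≤ N / a₁ := by
    rw [← Real.le_log_iff_exp_le (by positivity)]
    exact h5
  have h7 : (271 / 100 : ℝ) ≤ Real.exp (999 / 1000) := by
    have e1 : Real.exp (999 / 1000) = Real.exp 1 * Real.exp (-(1 / 1000)) := by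
      rw [← Real.exp_add]
      norm_num
    have e2 := Real.add_one_le_exp (-(1 / 1000) : ℝ)
    have e3 := Real.exp_one_gt_d9
    rw [e1]
    nlinarith
  have h8 : (271 / 100 : ℝ) ≤ N / a₁ := h7.trans h6
  rw [le_div_iff₀ ha₁0] at h8
  have h9 : (271 : ℝ) * a₁ ≤ 100 * N := by linarith
  exact_mod_cast h9

theorem no_loc (m : ℕ) : ∃ N0 : ℕ, ∀ (A : Finset ℕ) (N : ℕ), MaxOf A N → N0 ≤ N →
    ∀ n p q c : ℕ, p.Prime → q.Prime → n = c * p → n + 1 = (c + 1) * q → 1 ≤ c → c + 1 ≤ m →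
      100 * N ≤ 271 * n → n ≤ N → False := by
  obtain ⟨N1, hN1⟩ := min_le
  refine ⟨N1 + (4 * m) * ((4 * m) * (4 * m)!) + 1, ?_⟩
  intro A N hM hN0 n p q c hp hq h1 h2 h3 h4 h5 h6
  obtain ⟨a, haA, ha⟩ := hN1 A N hM (by omega)
  obtain ⟨hA, hsum, hgap, hNA, hN⟩ := hM
  have hp0 := hp.pos
  have hq0 := hq.pos
  have h9 : N < 4 * m * p := by
    have e1 : c * p + p ≤ m * p := by
      calc c * p + p = (c + 1) * p := by ring
        _ ≤ m * p := Nat.mul_le_mul_right _ h4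
    have e2 : 4 * m * p = 4 * (m * p) := by ring
    rw [e2]
    omega
  have h10 : N < 4 * m * q := by
    have e1 : (c + 1) * q ≤ m * q := Nat.mul_le_mul_right _ h4
    have e2 : 4 * m * q = 4 * (m * q) := by ring
    rw [e2]
    omega
  have hbig : ∀ p : ℕ, N < 4 * m * p → (4 * m) * (4 * m)! < p := by
    intro p hNp
    by_contra h
    push Not at h
    have := Nat.mul_le_mul_left (4 * m) h
    omega
  exact no_pair A hA 1 (by rw [hsum]; norm_num) hgap N hNA hN (4 * m) n p q hp hq (hbig p h9)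
    (hbig q h10) h9 h10 ⟨c, by rw [h1]; ring⟩ ⟨c + 1, by rw [h2]; ring⟩ ⟨a, haA, by omega⟩ h6

theorem case_near : ∃ N0 : ℕ, ∀ (A₁ A₂ : Finset ℕ) (N₁ N₂ : ℕ), MaxOf A₁ N₁ → MaxOf A₂ N₂ →
    N0 ≤ N₁ → 9 * N₁ < 8 * N₂ → 10 * N₂ ≤ 27 * N₁ → False := by
  obtain ⟨m, hm⟩ := window (1 / 100) (by norm_num)
  obtain ⟨y0, hy0⟩ := Filter.eventually_atTop.1 hm
  obtain ⟨N3, hN3⟩ := no_loc m
  refine ⟨⌈3 * |y0|⌉₊ + N3, ?_⟩
  intro A₁ A₂ N₁ N₂ hM1 hM2 hN0 h1 h2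
  have hNr : 3 * |y0| ≤ N₁ := by
    have e1 : 3 * |y0| ≤ ⌈3 * |y0|⌉₊ := Nat.le_ceil _
    have e2 : (⌈3 * |y0|⌉₊ : ℝ) ≤ N₁ := by exact_mod_cast (by omega : ⌈3 * |y0|⌉₊ ≤ N₁)
    linarith
  obtain ⟨n, p, q, c, hp, hq, g1, g2, g3, g4, g5, g6⟩ := hy0 ((N₁ : ℝ) / (271 / 100)) (by
    rw [le_div_iff₀ (by norm_num)]
    have := le_abs_self y0
    have := abs_nonneg y0
    linarith)
  rw [div_le_iff₀ (by norm_num)] at g5
  have g7 : (n : ℝ) * 271 ≤ 301 * N₁ := by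
    have : (3 + 1 / 100 : ℝ) * ((N₁ : ℝ) / (271 / 100)) = 301 * N₁ / 271 := by ring
    rw [this, le_div_iff₀ (by norm_num)] at g6
    exact g6
  have g5' : 100 * N₁ ≤ 271 * n := by
    have : (100 : ℝ) * N₁ ≤ 271 * n := by linarith
    exact_mod_cast this
  have g7' : n * 271 ≤ 301 * N₁ := by exact_mod_cast g7
  by_cases hn : n ≤ N₁
  · exact hN3 A₁ N₁ hM1 (by omega) n p q c hp hq g1 g2 g3 g4 g5' hn
  · exact hN3 A₂ N₂ hM2 (by omega) n p q c hp hq g1 g2 g3 g4 (by omega) (by omega)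

theorem case_far (D : ℕ) (hD : 2701 ≤ D) : ∃ N0 : ℕ, ∀ (A₁ A₂ : Finset ℕ) (N₁ N₂ : ℕ),
    MaxOf A₁ N₁ → MaxOf A₂ N₂ → N0 ≤ N₁ → N₁ ≤ N₂ → 1000 * N₂ < D * N₁ →
      D * N₁ ≤ 1000 * N₂ + N₁ → False := by
  obtain ⟨m, hm⟩ := forms_loc (D + 27 * D / 10) (1000 * ((D + 7398) / 3700)) 5000 (by omega)
    (by norm_num) (fun Δ => (1000 ≤ Δ ∧ Δ ≤ 2700) ∨ (D ≤ Δ ∧ Δ ≤ 27 * D / 10))
    (fun S hS hc => two_scale D (27 * D / 10) (by omega) (by omega) (by omega) S hS hc)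
  obtain ⟨y0, hy0⟩ := Filter.eventually_atTop.1 hm
  obtain ⟨N3, hN3⟩ := no_loc m
  refine ⟨⌈|y0|⌉₊ + N3, ?_⟩
  intro A₁ A₂ N₁ N₂ hM1 hM2 hN0 h12 h1 h2
  have hNr : |y0| ≤ N₁ := by
    have e1 : |y0| ≤ ⌈|y0|⌉₊ := Nat.le_ceil _
    have e2 : (⌈|y0|⌉₊ : ℝ) ≤ N₁ := by exact_mod_cast (by omega : ⌈|y0|⌉₊ ≤ N₁)
    linarith
  have h12r : (N₁ : ℝ) ≤ N₂ := by exact_mod_cast h12
  have hN1r : (0 : ℝ) ≤ N₁ := Nat.cast_nonneg _
  have h1r : (1000 : ℝ) * N₂ < D * N₁ := by exact_mod_cast h1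
  have h2r : (D : ℝ) * N₁ ≤ 1000 * N₂ + N₁ := by exact_mod_cast h2
  have hDr : (2701 : ℝ) ≤ D := by exact_mod_cast hD
  set y : ℝ := 1000 * N₂ / (1002 / 1000) with hy
  have hyN : y * (1002 / 1000) = 1000 * N₂ := by rw [hy]; field_simp
  have hypos : 0 ≤ y := by positivity
  obtain ⟨n, p, q, c, Δ, hp, hq, g1, g2, g3, g4, g5, g6, g7, g8⟩ := hy0 y (by
    have := le_abs_self y0
    rw [hy, le_div_iff₀ (by norm_num)]
    linarith)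
  have hΔ0 : (0 : ℝ) < Δ := by exact_mod_cast g5
  have hn0 : (0 : ℝ) ≤ n := Nat.cast_nonneg _
  rw [div_le_iff₀ hΔ0] at g7
  have g9 : (n : ℝ) * Δ ≤ 10012 / 10000 * y := by
    have e1 : (9994 / 10000 : ℝ) * n ≤ (10005 / 10000 : ℝ) * (y / Δ) := by
      have e2 : (9994 / 10000 : ℝ) ≤ (1 - 1 / ((5000 : ℕ) : ℝ)) * (((5000 : ℕ) : ℝ) / (((5000 : ℕ) : ℝ) + 1)) ^ 2 := by
        norm_num
      have e3 : (1 + 1 / ((5000 : ℕ) : ℝ)) ^ 2 ≤ (10005 / 10000 : ℝ) := by norm_num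
      have e4 : 0 ≤ y / Δ := by positivity
      calc (9994 / 10000 : ℝ) * n ≤ (1 - 1 / ((5000 : ℕ) : ℝ)) * (((5000 : ℕ) : ℝ) / (((5000 : ℕ) : ℝ) + 1)) ^ 2 * n :=
            mul_le_mul_of_nonneg_right e2 hn0
        _ ≤ (1 + 1 / ((5000 : ℕ) : ℝ)) ^ 2 * (y / Δ) := g8
        _ ≤ _ := mul_le_mul_of_nonneg_right e3 e4
    have e5 : (10005 / 10000 : ℝ) * (y / Δ) = (10005 / 10000 * y) / Δ := by ring
    rw [e5, le_div_iff₀ hΔ0] at e1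
    have e6 : 9994 / 10000 * ((n : ℝ) * Δ) ≤ 10005 / 10000 * y := by linarith
    linarith
  rcases g6 with ⟨g10, g11⟩ | ⟨g10, g11⟩
  · -- the pair lies below `N₂`
    have g10r : (1000 : ℝ) ≤ Δ := by exact_mod_cast g10
    have g11r : (Δ : ℝ) ≤ 2700 := by exact_mod_cast g11
    have k1 : (n : ℝ) * 1000 ≤ n * Δ := mul_le_mul_of_nonneg_left g10r hn0
    have k2 : (n : ℝ) * Δ ≤ n * 2700 := mul_le_mul_of_nonneg_left g11r hn0
    have k3 : (n : ℝ) ≤ N₂ := by linarith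
    have k4 : (100 : ℝ) * N₂ ≤ 271 * n := by linarith
    exact hN3 A₂ N₂ hM2 (by omega) n p q c hp hq g1 g2 g3 g4 (by exact_mod_cast k4)
      (by exact_mod_cast k3)
  · -- the pair lies below `N₁`
    have g10r : (D : ℝ) ≤ Δ := by exact_mod_cast g10
    have g11r : (Δ : ℝ) * 10 ≤ 27 * D := by
      have : Δ * 10 ≤ 27 * D := by omega
      exact_mod_cast this
    have k1 : (n : ℝ) * D ≤ n * Δ := mul_le_mul_of_nonneg_left g10r hn0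
    have k2 : (n : ℝ) * (Δ * 10) ≤ n * (27 * D) := mul_le_mul_of_nonneg_left g11r hn0
    have k3 : (n : ℝ) ≤ N₁ := by
      have : (D : ℝ) * n ≤ D * N₁ := by
        have h3 : (10012 / 10000 : ℝ) * y ≤ 1000 * N₂ := by linarith
        linarith
      exact le_of_mul_le_mul_left this (by linarith)
    have k4 : (100 : ℝ) * N₁ ≤ 271 * n := by
      -- `10 y ≤ 27 D n` and `(D - 1) N₁ ≤ 1000 N₂`
      have h3 : 10 * y ≤ 27 * (D * n) := by linarith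
      have h4 : (D : ℝ) * N₁ - N₁ ≤ y * (1002 / 1000) := by linarith
      have h5 : (2700 / 2701 : ℝ) * (D * N₁) ≤ D * N₁ - N₁ := by nlinarith
      have h6 : (D : ℝ) * (100 * N₁) ≤ D * (271 * n) := by nlinarith
      exact le_of_mul_le_mul_left h6 (by linarith)
    exact hN3 A₁ N₁ hM1 (by omega) n p q c hp hq g1 g2 g3 g4 (by exact_mod_cast k4)
      (by exact_mod_cast k3)

/-- largest denominators at bounded ratio have ratio at most `9 / 8` -/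
theorem clusters (C : ℕ) : ∃ N0 : ℕ, ∀ (A₁ A₂ : Finset ℕ) (N₁ N₂ : ℕ), MaxOf A₁ N₁ →
    MaxOf A₂ N₂ → N0 ≤ N₁ → N₁ ≤ N₂ → N₂ ≤ C * N₁ → 8 * N₂ ≤ 9 * N₁ := by
  obtain ⟨M1, hM1⟩ := case_near
  have hfar : ∀ D : ℕ, ∃ N0 : ℕ, 2701 ≤ D → ∀ (A₁ A₂ : Finset ℕ) (N₁ N₂ : ℕ),
    MaxOf A₁ N₁ → MaxOf A₂ N₂ → N0 ≤ N₁ → N₁ ≤ N₂ → 1000 * N₂ < D * N₁ →
      D * N₁ ≤ 1000 * N₂ + N₁ → False := by
    intro D
    by_cases hD : 2701 ≤ D
    · obtain ⟨N0, h⟩ := case_far D hD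
      exact ⟨N0, fun _ => h⟩
    · exact ⟨0, fun h => absurd h hD⟩
  choose f hf using hfar
  refine ⟨M1 + (Finset.range (1000 * C + 2)).sup f + 1, ?_⟩
  intro A₁ A₂ N₁ N₂ h1 h2 hN0 h12 hC
  by_contra hcon
  push Not at hcon
  by_cases hnear : 10 * N₂ ≤ 27 * N₁
  · exact hM1 A₁ A₂ N₁ N₂ h1 h2 (by omega) hcon hnear
  push Not at hnear
  have hN1pos : 0 < N₁ := by omega
  set D := 1000 * N₂ / N₁ + 1 with hD
  have hD1 : 1000 * N₂ < D * N₁ := by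
    have h9 := Nat.lt_mul_div_succ (1000 * N₂) hN1pos
    calc 1000 * N₂ < N₁ * (1000 * N₂ / N₁ + 1) := h9
      _ = D * N₁ := by rw [hD, mul_comm]
  have hD2 : D * N₁ ≤ 1000 * N₂ + N₁ := by
    have := Nat.div_mul_le_self (1000 * N₂) N₁
    rw [hD, Nat.add_mul, one_mul]
    omega
  have hD3 : 2700 ≤ 1000 * N₂ / N₁ := by
    rw [Nat.le_div_iff_mul_le hN1pos]
    omega
  have hD4 : 1000 * N₂ / N₁ ≤ 1000 * C := by
    apply Nat.div_le_of_le_mul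
    calc 1000 * N₂ ≤ 1000 * (C * N₁) := Nat.mul_le_mul_left _ hC
      _ = N₁ * (1000 * C) := by ring
  have hsup : f D ≤ (Finset.range (1000 * C + 2)).sup f :=
    Finset.le_sup (f := f) (Finset.mem_range.2 (by omega))
  exact hf D (by omega) A₁ A₂ N₁ N₂ h1 h2 (by omega) h12 hD1 hD2

end Pool.Agent.H47R4
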