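import Mathlib
import Pool.Agent.H47R4.Main

/-! From chains to logarithmic density. -/

namespace Pool.Agent.H47R4

open Finset Filter Topology

theorem chain_bound (J : ℕ) : ∀ S : Finset ℕ, (∀ N ∈ S, 1 ≤ N) →
    (¬ ∃ f : ℕ → ℕ, (∀ s, s < J → f s ∈ S) ∧ ∀ s, s + 1 < J → 16 * f s ≤ f (s + 1)) →
    ∑ N ∈ S, (1 : ℝ) / N ≤ 16 * J := by
  induction J with
  | zero =>
    intro S _ h
    exact absurd ⟨fun _ => 0, fun s hs => absurd hs (by omega), fun s hs => absurd hs (by omega)⟩ h
  | succ J ih =>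
    intro S hS h
    rcases S.eq_empty_or_nonempty with rfl | hne
    · simp only [Finset.sum_empty]
      positivity
    set a := S.min' hne with ha
    have haS : a ∈ S := S.min'_mem hne
    have ha1 : 1 ≤ a := hS a haS
    rw [← Finset.sum_filter_add_sum_filter_not S (fun N => 16 * a ≤ N)]
    have h1 := ih (S.filter (fun N => 16 * a ≤ N))
      (fun N hN => hS N (Finset.mem_filter.1 hN).1) (by
        rintro ⟨f, hf1, hf2⟩
        apply h
        refine ⟨fun s => if s = 0 then a else f (s - 1), ?_, ?_⟩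
        · intro s hs
          by_cases h0 : s = 0
          · simp only [h0, if_true]
            exact haS
          · simp only [h0, if_false]
            exact (Finset.mem_filter.1 (hf1 (s - 1) (by omega))).1
        · intro s hs
          simp only [Nat.add_sub_cancel, Nat.succ_ne_zero, if_false]
          by_cases h0 : s = 0
          · simp only [h0, if_true]
            exact (Finset.mem_filter.1 (hf1 0 (by omega))).2
          · simp only [h0, if_false]
            have := hf2 (s - 1) (by omega)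
            rwa [Nat.sub_add_cancel (by omega)] at this)
    have har : (0 : ℝ) < a := by exact_mod_cast ha1
    have h2 : ∑ N ∈ S.filter (fun N => ¬ 16 * a ≤ N), (1 : ℝ) / N ≤ 16 := by
      have h3 : S.filter (fun N => ¬ 16 * a ≤ N) ⊆ Finset.Ico a (16 * a) := by
        intro N hN
        rw [Finset.mem_filter] at hN
        rw [Finset.mem_Ico]
        exact ⟨S.min'_le N hN.1, by omega⟩
      calc ∑ N ∈ S.filter (fun N => ¬ 16 * a ≤ N), (1 : ℝ) / N
          ≤ ∑ N ∈ Finset.Ico a (16 * a), (1 : ℝ) / N :=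
            Finset.sum_le_sum_of_subset_of_nonneg h3 fun _ _ _ => by positivity
        _ ≤ ∑ _N ∈ Finset.Ico a (16 * a), (1 : ℝ) / a := by
            apply Finset.sum_le_sum
            intro N hN
            rw [Finset.mem_Ico] at hN
            apply one_div_le_one_div_of_le har
            exact_mod_cast hN.1
        _ = ((16 * a - a : ℕ) : ℝ) * (1 / a) := by
            rw [Finset.sum_const, Nat.card_Ico, nsmul_eq_mul]
        _ ≤ (16 * a) * (1 / a) := by
            gcongr
            have : 16 * a - a ≤ 16 * a := Nat.sub_le _ _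
            exact_mod_cast this
        _ = 16 := by field_simp
    push_cast
    linarith

/-- no twelve well spaced maxima in a window, real form -/
theorem no_chain' (C : ℝ) : ∃ X₀ : ℝ, 1 ≤ X₀ ∧ ∀ X : ℝ, X₀ ≤ X → ¬ ∃ f : ℕ → ℕ,
    (∀ s, s < 12 → X ≤ f s ∧ (f s : ℝ) ≤ C * X ∧ IsMax (f s)) ∧
    ∀ s, s + 1 < 12 → 16 * f s ≤ f (s + 1) := by
  obtain ⟨N0, hN0⟩ := no_chain (⌈|C|⌉₊ + 1) (by omega)
  refine ⟨(N0 : ℝ) + 1, by linarith [(Nat.cast_nonneg N0 : (0 : ℝ) ≤ N0)], fun X hX => ?_⟩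
  have hN0' : (0 : ℝ) ≤ N0 := Nat.cast_nonneg N0
  rintro ⟨f, hf1, hf2⟩
  have hf0 := hf1 0 (by omega)
  refine hN0 f ?_ (fun s hs => (hf1 s hs).2.2) hf2 ?_
  · have h1 : (N0 : ℝ) ≤ f 0 := by linarith [hf0.1]
    exact_mod_cast h1
  · intro s hs
    have h1 := (hf1 s hs).2.1
    have h2 : C * X ≤ (⌈|C|⌉₊ + 1 : ℕ) * (f 0 : ℝ) := by
      have h3 : C ≤ (⌈|C|⌉₊ + 1 : ℕ) := by
        have h4 := le_abs_self C
        have h5 := Nat.le_ceil |C|
        push_cast
        linarith
      have h6 : (0 : ℝ) ≤ X := by linarith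
      calc C * X ≤ (⌈|C|⌉₊ + 1 : ℕ) * X := by gcongr
        _ ≤ _ := by gcongr; exact hf0.1
    have h3 : (f s : ℝ) ≤ ((⌈|C|⌉₊ + 1) * f 0 : ℕ) := by
      push_cast at h2 ⊢
      linarith
    exact_mod_cast h3

/-- the sum of reciprocals over a window is bounded by an absolute constant -/
theorem window (C : ℝ) : ∃ X₀ : ℝ, 1 ≤ X₀ ∧ ∀ X : ℝ, X₀ ≤ X → ∀ S : Finset ℕ,
    (∀ N ∈ S, X ≤ N ∧ (N : ℝ) ≤ C * X ∧ IsMax N) → ∑ N ∈ S, (1 : ℝ) / N ≤ 192 := by
  obtain ⟨X₀, hX1, h⟩ := no_chain' C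
  refine ⟨X₀, hX1, fun X hX S hS => ?_⟩
  have e : (192 : ℝ) = 16 * (12 : ℕ) := by norm_num
  rw [e]
  apply chain_bound 12 S
  · intro N hN
    have h1 := (hS N hN).1
    have h2 : (1 : ℝ) ≤ N := by linarith
    exact_mod_cast h2
  · rintro ⟨f, hf1, hf2⟩
    exact h X hX ⟨f, fun s hs => hS _ (hf1 s hs), hf2⟩

open Classical in
theorem log_density : Tendsto (fun x : ℕ => (∑ N ∈ (Finset.Icc 1 x).filter IsMax, (1 : ℝ) / N) /
    Real.log x) atTop (𝓝 0) := by
  obtain ⟨B, hB0, hB⟩ : ∃ B : ℝ, 0 ≤ B ∧ ∀ C : ℝ, ∃ X₀ : ℝ, 1 ≤ X₀ ∧ ∀ X : ℝ, X₀ ≤ X →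
      ∀ S : Finset ℕ, (∀ N ∈ S, X ≤ N ∧ (N : ℝ) ≤ C * X ∧ IsMax N) →
        ∑ N ∈ S, (1 : ℝ) / N ≤ B := ⟨192, by norm_num, window⟩
  set F : ℕ → ℝ := fun x => ∑ N ∈ (Finset.Icc 1 x).filter IsMax, (1 : ℝ) / N with hF
  have hF0 : ∀ x, 0 ≤ F x := fun x => Finset.sum_nonneg fun _ _ => by positivity
  have hmono : ∀ x y, x ≤ y → F x ≤ F y := by
    intro x y hxy
    apply Finset.sum_le_sum_of_subset_of_nonneg
    · exact Finset.filter_subset_filter _ (Finset.Icc_subset_Icc le_rfl hxy)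
    · intro _ _ _; positivity
  have hFx : ∀ x : ℕ, F x ≤ x := by
    intro x
    calc F x ≤ ∑ N ∈ Finset.Icc 1 x, (1 : ℝ) / N :=
          Finset.sum_le_sum_of_subset_of_nonneg (Finset.filter_subset _ _)
            fun _ _ _ => by positivity
      _ ≤ ∑ _N ∈ Finset.Icc 1 x, (1 : ℝ) := by
          apply Finset.sum_le_sum
          intro N hN
          rw [Finset.mem_Icc] at hN
          have : (1 : ℝ) ≤ N := by exact_mod_cast hN.1
          rw [div_le_one (by linarith)]
          exact this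
      _ = x := by simp
  rw [Metric.tendsto_atTop]
  intro ε hε
  -- choice of `C`
  obtain ⟨C, hC2, hC⟩ : ∃ C : ℕ, 2 ≤ C ∧ B / Real.log C < ε / 2 := by
    have h1 : Tendsto (fun C : ℕ => B / Real.log C) atTop (𝓝 0) :=
      (Real.tendsto_log_atTop.comp tendsto_natCast_atTop_atTop).const_div_atTop B
    obtain ⟨C, h2, h3⟩ := ((h1.eventually (gt_mem_nhds (by linarith : (0 : ℝ) < ε / 2))).and
      (eventually_ge_atTop 2)).exists
    exact ⟨C, h3, h2⟩
  have hlC : 0 < Real.log C := Real.log_pos (by exact_mod_cast (by omega : 1 < C))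
  obtain ⟨X₀, hX1, hX⟩ := hB C
  set X1 : ℕ := ⌈X₀⌉₊ with hX1d
  have hX1r : X₀ ≤ X1 := Nat.le_ceil X₀
  have hX11 : 1 ≤ X1 := by
    have : (1 : ℝ) ≤ X1 := by linarith
    exact_mod_cast this
  have hit : ∀ i : ℕ, F (C ^ i * X1) ≤ X1 + i * B := by
    intro i
    induction i with
    | zero => simpa using hFx X1
    | succ i ih =>
      have h1 : F (C ^ (i + 1) * X1) ≤ F (C ^ i * X1) + B := by
        have h2 : F (C ^ (i + 1) * X1) ≤ F (C ^ i * X1) +
            ∑ N ∈ (Finset.Icc (C ^ i * X1) (C ^ (i + 1) * X1)).filter IsMax, (1 : ℝ) / N := by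
          simp only [hF]
          have h3 : (Finset.Icc 1 (C ^ (i + 1) * X1)).filter IsMax ⊆
              (Finset.Icc 1 (C ^ i * X1)).filter IsMax ∪
              (Finset.Icc (C ^ i * X1) (C ^ (i + 1) * X1)).filter IsMax := by
            intro N hN
            rw [Finset.mem_filter, Finset.mem_Icc] at hN
            rw [Finset.mem_union, Finset.mem_filter, Finset.mem_filter, Finset.mem_Icc,
              Finset.mem_Icc]
            rcases le_total N (C ^ i * X1) with h | h
            · exact Or.inl ⟨⟨hN.1.1, h⟩, hN.2⟩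
            · exact Or.inr ⟨⟨h, hN.1.2⟩, hN.2⟩
          refine (Finset.sum_le_sum_of_subset_of_nonneg h3 fun _ _ _ => by positivity).trans ?_
          rw [← Finset.sum_union_inter]
          have : 0 ≤ ∑ N ∈ (Finset.Icc 1 (C ^ i * X1)).filter IsMax ∩
              (Finset.Icc (C ^ i * X1) (C ^ (i + 1) * X1)).filter IsMax, (1 : ℝ) / N :=
            Finset.sum_nonneg fun _ _ => by positivity
          linarith
        refine h2.trans ?_
        have h4 := hX ((C ^ i * X1 : ℕ) : ℝ) (by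
          refine hX1r.trans ?_
          have : X1 ≤ C ^ i * X1 := Nat.le_mul_of_pos_left _ (by positivity)
          exact_mod_cast this) ((Finset.Icc (C ^ i * X1) (C ^ (i + 1) * X1)).filter IsMax) (by
          intro N hN
          rw [Finset.mem_filter, Finset.mem_Icc] at hN
          refine ⟨by exact_mod_cast hN.1.1, ?_, hN.2⟩
          have h5 : N ≤ C * (C ^ i * X1) := by
            calc N ≤ C ^ (i + 1) * X1 := hN.1.2
              _ = _ := by ring
          exact_mod_cast h5)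
        linarith
      push_cast
      linarith
  have hlim : Tendsto (fun x : ℕ => ((X1 : ℝ) + B) / Real.log x) atTop (𝓝 0) :=
    (Real.tendsto_log_atTop.comp tendsto_natCast_atTop_atTop).const_div_atTop _
  obtain ⟨n0, hn0⟩ := Filter.eventually_atTop.1
    ((hlim.eventually (gt_mem_nhds (by linarith : (0 : ℝ) < ε / 2))).and (eventually_ge_atTop 2))
  refine ⟨n0, fun x hx => ?_⟩
  obtain ⟨hx1, hx2⟩ := hn0 x hx
  have hlx : 0 < Real.log x := Real.log_pos (by exact_mod_cast (by omega : 1 < x))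
  rw [Real.dist_eq, sub_zero, abs_of_nonneg (div_nonneg (hF0 x) hlx.le)]
  set i := Nat.clog C x with hi
  have hxi : x ≤ C ^ i := Nat.le_pow_clog (by omega) x
  have hi1 : ((i : ℝ) - 1) * Real.log C ≤ Real.log x := by
    have h1 : C ^ (i - 1) < x := Nat.pow_pred_clog_lt_self (by omega) (by omega)
    have h2 : 0 < i := Nat.clog_pos (by omega) hx2
    have h3 : ((C ^ (i - 1) : ℕ) : ℝ) ≤ x := by exact_mod_cast h1.le
    have h4 : (0 : ℝ) < ((C ^ (i - 1) : ℕ) : ℝ) := by
      have : 0 < C ^ (i - 1) := by positivity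
      exact_mod_cast this
    have h5 := Real.log_le_log h4 h3
    rw [Nat.cast_pow, Real.log_pow] at h5
    have h6 : ((i - 1 : ℕ) : ℝ) = (i : ℝ) - 1 := by
      rw [Nat.cast_sub (by omega)]
      simp
    rwa [h6] at h5
  have h1 : F x ≤ X1 + i * B :=
    (hmono _ _ (hxi.trans (Nat.le_mul_of_pos_right _ (by omega)))).trans (hit i)
  have h2 : (i : ℝ) * B ≤ (Real.log x / Real.log C + 1) * B := by
    apply mul_le_mul_of_nonneg_right _ hB0
    rw [← sub_le_iff_le_add, le_div_iff₀ hlC]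
    exact hi1
  rw [div_lt_iff₀ hlx]
  rw [div_lt_iff₀ hlx] at hx1
  have h3 : B / Real.log C * Real.log x ≤ ε / 2 * Real.log x := by gcongr
  have h4 : Real.log x / Real.log C * B = B / Real.log C * Real.log x := by ring
  calc F x ≤ X1 + i * B := h1
    _ ≤ X1 + (Real.log x / Real.log C + 1) * B := by linarith
    _ = (X1 + B) + B / Real.log C * Real.log x := by rw [← h4]; ring
    _ < ε / 2 * Real.log x + ε / 2 * Real.log x := by linarith
    _ = ε * Real.log x := by ring

end Pool.Agent.H47R4
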