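import Mathlib
import Pool.Agent.H47R4.Loc

/-! Windows of ratio two: the two-scale lemma. -/

namespace Pool.Agent.H47R4

open Finset Filter Topology Nat

/-- structure of a set without differences in `[L, E]`, with `E` slightly less than `2 L` allowed -/
theorem splitS (L E T : ℕ) (hL : 1 ≤ L) (S : Finset ℕ) (hS : ∀ x ∈ S, x < T)
    (hav : ∀ x ∈ S, ∀ y ∈ S, x + L ≤ y → ¬ y ≤ x + E) (hne : S.Nonempty) :
    ∃ x0 α : ℕ, x0 ∈ S ∧ x0 ≤ α ∧ α < x0 + L ∧ α < T ∧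
      S ⊆ (S.filter (fun x => x0 ≤ x ∧ x < α + 1) ∪ Finset.Ico (x0 + E + 1) (x0 + 2 * L - 1)) ∪
        S.filter (fun x => α + E + 1 ≤ x ∧ x < T) := by
  set x0 := S.min' hne with hx0
  have hx0S : x0 ∈ S := S.min'_mem hne
  have hAne : (S.filter (fun y => y < x0 + L)).Nonempty :=
    ⟨x0, Finset.mem_filter.2 ⟨hx0S, by omega⟩⟩
  set α := (S.filter (fun y => y < x0 + L)).max' hAne with hα
  have hαm := Finset.max'_mem _ hAne
  rw [← hα, Finset.mem_filter] at hαm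
  refine ⟨x0, α, hx0S, S.min'_le α hαm.1, hαm.2, hS α hαm.1, ?_⟩
  intro y hy
  have h1 := hS y hy
  have h2 : x0 ≤ y := S.min'_le y hy
  rw [Finset.mem_union, Finset.mem_union, Finset.mem_filter, Finset.mem_filter, Finset.mem_Ico]
  by_cases h3 : y < x0 + L
  · left
    left
    have h4 : y ≤ α := Finset.le_max' _ y (Finset.mem_filter.2 ⟨hy, h3⟩)
    exact ⟨hy, h2, by omega⟩
  · have h4 := hav x0 hx0S y hy (by omega)
    by_cases h5 : α + L ≤ y
    · right
      have h6 := hav α hαm.1 y hy h5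
      exact ⟨hy, by omega, h1⟩
    · left
      right
      omega

theorem card_le_length (S : Finset ℕ) (u v : ℕ) :
    (S.filter (fun x => u ≤ x ∧ x < v)).card ≤ v - u := by
  have h : S.filter (fun x => u ≤ x ∧ x < v) ⊆ Finset.Ico u v := by
    intro x hx
    rw [Finset.mem_filter] at hx
    rw [Finset.mem_Ico]
    exact hx.2
  have := Finset.card_le_card h
  rwa [Nat.card_Ico] at this

theorem card_split (S : Finset ℕ) (x0 α L E T : ℕ)
    (h : S ⊆ (S.filter (fun x => x0 ≤ x ∧ x < α + 1) ∪ Finset.Ico (x0 + E + 1) (x0 + 2 * L - 1)) ∪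
        S.filter (fun x => α + E + 1 ≤ x ∧ x < T)) :
    S.card ≤ (S.filter (fun x => x0 ≤ x ∧ x < α + 1)).card + (x0 + 2 * L - 1 - (x0 + E + 1)) +
      (S.filter (fun x => α + E + 1 ≤ x ∧ x < T)).card := by
  have h5 := (Finset.card_le_card h).trans (Finset.card_union_le _ _)
  refine h5.trans (Nat.add_le_add_right ?_ _)
  refine (Finset.card_union_le _ _).trans ?_
  rw [Nat.card_Ico]

/-- `1000` to `1990` avoided: blocks of length `2990` -/
theorem block2 (S : Finset ℕ) (hS : ∀ x ∈ S, ∀ y ∈ S, x + 1000 ≤ y → ¬ y ≤ x + 1990) (u : ℕ) :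
    (S.filter (fun x => u ≤ x ∧ x < u + 2990)).card ≤ 1010 := by
  obtain ⟨S', hS'⟩ : ∃ S', S.filter (fun x => u ≤ x ∧ x < u + 2990) = S' := ⟨_, rfl⟩
  have hm : ∀ x ∈ S', x ∈ S ∧ u ≤ x ∧ x < u + 2990 := by
    intro x hx
    rw [← hS', Finset.mem_filter] at hx
    exact hx
  rw [hS']
  by_cases hne : S'.Nonempty
  · obtain ⟨x0, α, h0, h1, h2, h3, h4⟩ := splitS 1000 1990 (u + 2990) (by norm_num)
      S' (fun x hx => (hm x hx).2.2)
      (fun x hx y hy => hS x (hm x hx).1 y (hm y hy).1) hne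
    have h6 := card_split S' x0 α 1000 1990 (u + 2990) h4
    have h7 := card_le_length S' x0 (α + 1)
    have h8 := card_le_length S' (α + 1990 + 1) (u + 2990)
    have h9 := (hm x0 h0).2.1
    omega
  · rw [Finset.not_nonempty_iff_eq_empty] at hne
    rw [hne]
    simp

theorem blocksG (S : Finset ℕ) (B m : ℕ)
    (hb : ∀ u, (S.filter (fun x => u ≤ x ∧ x < u + B)).card ≤ m) (k : ℕ) :
    ∀ u v, v ≤ u + B * (k + 1) → (S.filter (fun x => u ≤ x ∧ x < v)).card ≤ m * k + m ∧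
      (S.filter (fun x => u ≤ x ∧ x < v)).card ≤ m * k + (v - (u + B * k)) := by
  induction k with
  | zero =>
    intro u v hv
    rw [Nat.zero_add, Nat.mul_one] at hv
    have h1 := card_le_length S u v
    have h3 : S.filter (fun x => u ≤ x ∧ x < v) ⊆ S.filter (fun x => u ≤ x ∧ x < u + B) := by
      intro x hx
      rw [Finset.mem_filter] at hx ⊢
      exact ⟨hx.1, hx.2.1, lt_of_lt_of_le hx.2.2 hv⟩
    have h4 := (Finset.card_le_card h3).trans (hb u)
    simp only [Nat.mul_zero, Nat.zero_add, Nat.add_zero]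
    exact ⟨h4, h1⟩
  | succ k ih =>
    intro u v hv
    have e1 : B * (k + 1 + 1) = B * (k + 1) + B := Nat.mul_succ B (k + 1)
    have e2 : B * (k + 1) = B * k + B := Nat.mul_succ B k
    have e3 : m * (k + 1) = m * k + m := Nat.mul_succ m k
    have hsub : S.filter (fun x => u ≤ x ∧ x < v) ⊆
        S.filter (fun x => u ≤ x ∧ x < u + B) ∪ S.filter (fun x => u + B ≤ x ∧ x < v) := by
      intro x hx
      rw [Finset.mem_filter] at hx
      rw [Finset.mem_union, Finset.mem_filter, Finset.mem_filter]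
      by_cases h : x < u + B
      · left
        exact ⟨hx.1, hx.2.1, h⟩
      · right
        exact ⟨hx.1, not_lt.1 h, hx.2.2⟩
    have h1 := (Finset.card_le_card hsub).trans (Finset.card_union_le _ _)
    have h2 := hb u
    have h3 := ih (u + B) v (by rw [e2]; rw [e1, e2] at hv; omega)
    rw [e3, e2]
    constructor
    · have := h3.1
      omega
    · have := h3.2
      omega

theorem arith_far (D E a b m1 m2 s c1 c2 tot : ℕ) (hD : 2991 ≤ D) (hE : 199 * D ≤ 100 * E + 99)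
    (hc1 : c1 ≤ 1010 * a + m1) (hm1 : m1 ≤ 1010) (hc2 : c2 ≤ 1010 * b + m2) (hm2 : m2 ≤ 1010)
    (hlen : 2990 * a + m1 + (2990 * b + m2) ≤ D) (hs : s ≤ 2 * D - E)
    (htot : tot ≤ c1 + s + c2) : 4 * tot < D + E := by
  rcases Nat.eq_zero_or_pos a with ha | ha <;> rcases Nat.eq_zero_or_pos b with hb | hb <;> omega

/-- the number of classes -/
def TT (D : ℕ) : ℕ := if D ≤ 2990 then 1000 + 199 * D / 100 else D + 199 * D / 100

theorem far_case (D E : ℕ) (hD : 2991 ≤ D) (hE : 199 * D ≤ 100 * E + 99) (hE' : 100 * E ≤ 199 * D)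
    (S : Finset ℕ) (hS : ∀ x ∈ S, x < D + E) (hne : S.Nonempty)
    (hS1 : ∀ x ∈ S, ∀ y ∈ S, x + 1000 ≤ y → ¬ y ≤ x + 1990)
    (hS2 : ∀ x ∈ S, ∀ y ∈ S, x + D ≤ y → ¬ y ≤ x + E) : 4 * S.card < D + E := by
  obtain ⟨x0, α, h0, h1, h2, h3, h4⟩ := splitS D E (D + E) (by omega) S hS hS2 hne
  have h6 := card_split S x0 α D E (D + E) h4
  have hb := block2 S hS1
  obtain ⟨ℓ1, hℓ1⟩ : ∃ ℓ1, α + 1 - x0 = ℓ1 := ⟨_, rfl⟩
  obtain ⟨ℓ2, hℓ2⟩ : ∃ ℓ2, D + E - (α + E + 1) = ℓ2 := ⟨_, rfl⟩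
  obtain ⟨a, r1, ha, hr1⟩ : ∃ a r1, ℓ1 = 2990 * a + r1 ∧ r1 < 2990 :=
    ⟨ℓ1 / 2990, ℓ1 % 2990, (Nat.div_add_mod ℓ1 2990).symm, Nat.mod_lt _ (by norm_num)⟩
  obtain ⟨b, r2, hb2, hr2⟩ : ∃ b r2, ℓ2 = 2990 * b + r2 ∧ r2 < 2990 :=
    ⟨ℓ2 / 2990, ℓ2 % 2990, (Nat.div_add_mod ℓ2 2990).symm, Nat.mod_lt _ (by norm_num)⟩
  obtain ⟨h7, h7'⟩ := blocksG S 2990 1010 hb a x0 (α + 1) (by omega)
  obtain ⟨h8, h8'⟩ := blocksG S 2990 1010 hb b (α + E + 1) (D + E) (by omega)
  refine arith_far D E a b (min 1010 r1) (min 1010 r2) (x0 + 2 * D - 1 - (x0 + E + 1))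
    _ _ _ hD hE ?_ (min_le_left _ _) ?_ (min_le_left _ _) ?_ ?_ h6
  · have : (S.filter (fun x => x0 ≤ x ∧ x < α + 1)).card ≤ 1010 * a + r1 := by omega
    rcases min_choice 1010 r1 with h | h <;> rw [h]
    · exact h7
    · exact this
  · have : (S.filter (fun x => α + E + 1 ≤ x ∧ x < D + E)).card ≤ 1010 * b + r2 := by omega
    rcases min_choice 1010 r2 with h | h <;> rw [h]
    · exact h8
    · exact this
  · have e1 := min_le_right 1010 r1
    have e2 := min_le_right 1010 r2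
    omega
  · omega

theorem mid_case (D E : ℕ) (hD : 1991 ≤ D) (hD' : D ≤ 2990) (hE : 199 * D ≤ 100 * E + 99)
    (hE' : 100 * E ≤ 199 * D)
    (S : Finset ℕ) (hS : ∀ x ∈ S, x < 1000 + E) (hne : S.Nonempty)
    (hS1 : ∀ x ∈ S, ∀ y ∈ S, x + 1000 ≤ y → ¬ y ≤ x + 1990)
    (hS2 : ∀ x ∈ S, ∀ y ∈ S, x + D ≤ y → ¬ y ≤ x + E) : 4 * S.card < 1000 + E := by
  obtain ⟨x0, α, h0, h1, h2, h3, h4⟩ := splitS D E (1000 + E) (by omega) S hS hS2 hne
  have h6 := card_split S x0 α D E (1000 + E) h4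
  have hb := block2 S hS1
  have h7 := card_le_length S x0 (α + 1)
  have h7' := (blocksG S 2990 1010 hb 0 x0 (α + 1) (by omega)).1
  have h8 := card_le_length S (α + E + 1) (1000 + E)
  omega

theorem two_scale2 (D : ℕ) (hD : 1510 ≤ D) (S : Finset ℕ) (hS : ∀ x ∈ S, x < TT D)
    (hcard : (TT D - 1) / 4 + 1 ≤ S.card) :
    ∃ x ∈ S, ∃ y ∈ S, x < y ∧
      ((1000 ≤ y - x ∧ y - x ≤ 1990) ∨ (D ≤ y - x ∧ y - x ≤ 199 * D / 100)) := by
  by_contra hcon
  push Not at hcon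
  obtain ⟨E, hE⟩ : ∃ E, 199 * D / 100 = E := ⟨_, rfl⟩
  rw [hE] at hcon
  have hS1 : ∀ x ∈ S, ∀ y ∈ S, x + 1000 ≤ y → ¬ y ≤ x + 1990 := by
    intro x hx y hy h1 h2
    have := (hcon x hx y hy (by omega)).1 (by omega)
    omega
  have hS2 : ∀ x ∈ S, ∀ y ∈ S, x + D ≤ y → ¬ y ≤ x + E := by
    intro x hx y hy h1 h2
    have := (hcon x hx y hy (by omega)).2 (by omega)
    omega
  have hne : S.Nonempty := Finset.card_pos.1 (by omega)
  have hE1 : 199 * D ≤ 100 * E + 99 := by omega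
  have hE2 : 100 * E ≤ 199 * D := by omega
  by_cases hnear : D ≤ 1990
  · have hT : TT D = 1000 + E := by
      unfold TT
      rw [if_pos (by omega), hE]
    rw [hT] at hS hcard
    obtain ⟨x, hx, y, hy, h1, h2⟩ := comb 1000 E (by omega) S hS (by omega)
    by_cases h3 : y ≤ x + 1990
    · exact hS1 x hx y hy h1 h3
    · exact hS2 x hx y hy (by omega) h2
  · by_cases hmid : D ≤ 2990
    · have hT : TT D = 1000 + E := by
        unfold TT
        rw [if_pos hmid, hE]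
      rw [hT] at hS hcard
      have := mid_case D E (by omega) hmid hE1 hE2 S hS hne hS1 hS2
      omega
    · have hT : TT D = D + E := by
        unfold TT
        rw [if_neg hmid, hE]
      rw [hT] at hS hcard
      have := far_case D E (by omega) hE1 hE2 S hS hne hS1 hS2
      omega

end Pool.Agent.H47R4
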