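import Mathlib
import Pool.Agent.H47R4.Two

/-! Windows of ratio two: the theorem. -/

namespace Pool.Agent.H47R4

open Finset Filter Topology Nat

theorem two_far (D : ℕ) (hD : 1511 ≤ D) : ∃ m N0 : ℕ, ∀ N₁ N₂ : ℕ, N0 ≤ N₁ → N₁ ≤ N₂ →
    1000 * N₂ < D * N₁ → D * N₁ ≤ 1000 * N₂ + N₁ → ∃ c p q : ℕ, 1 ≤ c ∧ c < m ∧ p.Prime ∧
      q.Prime ∧ c * p + 1 = (c + 1) * q ∧ ((N₁ ≤ c * p ∧ c * p ≤ 2 * N₁) ∨
        (N₂ ≤ c * p ∧ c * p ≤ 2 * N₂)) := by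
  have hTT : 4 * ((TT D - 1) / 4) < TT D := by
    have : 1 ≤ TT D := by
      unfold TT
      split_ifs <;> omega
    omega
  obtain ⟨m, hm⟩ := forms_loc (TT D) ((TT D - 1) / 4) 5000 hTT
    (by norm_num) (fun Δ => (1000 ≤ Δ ∧ Δ ≤ 1990) ∨ (D ≤ Δ ∧ Δ ≤ 199 * D / 100))
    (fun S hS hc => two_scale2 D (by omega) S hS hc)
  obtain ⟨y0, hy0⟩ := Filter.eventually_atTop.1 hm
  refine ⟨m, ⌈|y0|⌉₊, ?_⟩
  intro N₁ N₂ hN0 h12 h1 h2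
  have hNr : |y0| ≤ N₁ := by
    have e1 : |y0| ≤ ⌈|y0|⌉₊ := Nat.le_ceil _
    have e2 : (⌈|y0|⌉₊ : ℝ) ≤ N₁ := by exact_mod_cast hN0
    linarith
  have h12r : (N₁ : ℝ) ≤ N₂ := by exact_mod_cast h12
  have hN1r : (0 : ℝ) ≤ N₁ := Nat.cast_nonneg _
  have h1r : (1000 : ℝ) * N₂ < D * N₁ := by exact_mod_cast h1
  have h2r : (D : ℝ) * N₁ ≤ 1000 * N₂ + N₁ := by exact_mod_cast h2
  have hDr : (1511 : ℝ) ≤ D := by exact_mod_cast hD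
  set y : ℝ := 2000 * N₂ / (1002 / 1000) with hy
  have hyN : y * (1002 / 1000) = 2000 * N₂ := by rw [hy]; field_simp
  have hypos : 0 ≤ y := by positivity
  obtain ⟨n, p, q, c, Δ, hp, hq, g1, g2, g3, g4, g5, g6, g7, g8⟩ := hy0 y (by
    have := le_abs_self y0
    rw [hy, le_div_iff₀ (by norm_num)]
    linarith)
  have hΔ0 : (0 : ℝ) < Δ := by exact_mod_cast g5
  have hn0 : (0 : ℝ) ≤ n := Nat.cast_nonneg _
  rw [div_le_iff₀ hΔ0] at g7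
  have g9 : (n : ℝ) * Δ ≤ 10012 / 10000 * y := by
    have e1 : (9994 / 10000 : ℝ) * n ≤ (10005 / 10000 : ℝ) * (y / Δ) := by
      have e2 : (9994 / 10000 : ℝ) ≤ (1 - 1 / ((5000 : ℕ) : ℝ)) * (((5000 : ℕ) : ℝ) / (((5000 : ℕ) : ℝ) + 1)) ^ 2 := by
        norm_num
      have e3 : (1 + 1 / ((5000 : ℕ) : ℝ)) ^ 2 ≤ (10005 / 10000 : ℝ) := by norm_num
      have e4 : 0 ≤ y / Δ := by positivity
      calc (9994 / 10000 : ℝ) * n ≤ (1 - 1 / ((5000 : ℕ) : ℝ)) * (((5000 : ℕ) : ℝ) / (((5000 : ℕ) : ℝ) + 1)) ^ 2 * n :=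
            mul_le_mul_of_nonneg_right e2 hn0
        _ ≤ (1 + 1 / ((5000 : ℕ) : ℝ)) ^ 2 * (y / Δ) := g8
        _ ≤ _ := mul_le_mul_of_nonneg_right e3 e4
    have e5 : (10005 / 10000 : ℝ) * (y / Δ) = (10005 / 10000 * y) / Δ := by ring
    rw [e5, le_div_iff₀ hΔ0] at e1
    have e6 : 9994 / 10000 * ((n : ℝ) * Δ) ≤ 10005 / 10000 * y := by linarith
    linarith
  subst g1
  refine ⟨c, p, q, g3, by omega, hp, hq, g2, ?_⟩
  rcases g6 with ⟨g10, g11⟩ | ⟨g10, g11⟩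
  · right
    have g10r : (1000 : ℝ) ≤ Δ := by exact_mod_cast g10
    have g11r : (Δ : ℝ) ≤ 1990 := by exact_mod_cast g11
    have k1 := mul_le_mul_of_nonneg_left g10r hn0
    have k2 := mul_le_mul_of_nonneg_left g11r hn0
    have k3 : ((c * p : ℕ) : ℝ) ≤ 2 * N₂ := by linarith
    have k4 : (N₂ : ℝ) ≤ ((c * p : ℕ) : ℝ) := by linarith
    exact ⟨by exact_mod_cast k4, by exact_mod_cast k3⟩
  · left
    have g10r : (D : ℝ) ≤ Δ := by exact_mod_cast g10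
    have g11r : (Δ : ℝ) * 100 ≤ 199 * D := by
      have : Δ * 100 ≤ 199 * D := by omega
      exact_mod_cast this
    have k1 := mul_le_mul_of_nonneg_left g10r hn0
    have k2 := mul_le_mul_of_nonneg_left g11r hn0
    have hD0 : (0 : ℝ) < D := by linarith
    obtain ⟨n, hn⟩ : ∃ n : ℝ, ((c * p : ℕ) : ℝ) = n := ⟨_, rfl⟩
    rw [hn] at k1 k2 g9 g7 hn0
    have k3 : n ≤ 2 * N₁ := by
      have h9 : (D : ℝ) * n ≤ D * (2 * N₁) := by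
        have h3 : (10012 / 10000 : ℝ) * y ≤ 2000 * N₂ := by linarith
        linarith
      exact le_of_mul_le_mul_left h9 hD0
    have k4 : (N₁ : ℝ) ≤ n := by
      have h3 : 100 * y ≤ 199 * (D * n) := by linarith
      have h4 : 2 * ((D : ℝ) * N₁ - N₁) ≤ y * (1002 / 1000) := by linarith
      have h5 : (1511 : ℝ) * N₁ ≤ D * N₁ := mul_le_mul_of_nonneg_right hDr hN1r
      have h7 : 0 ≤ D * n := by positivity
      have h6 : (D : ℝ) * N₁ ≤ D * n := by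
        have h8 : (D : ℝ) * N₁ * (1510 / 1511) ≤ D * N₁ - N₁ := by linarith
        linarith
      exact le_of_mul_le_mul_left h6 hD0
    rw [← hn] at k3 k4
    exact ⟨by exact_mod_cast k4, by exact_mod_cast k3⟩

theorem two_windows (C : ℕ) : ∃ m N0 : ℕ, ∀ N₁ N₂ : ℕ, N0 ≤ N₁ → 151 * N₁ ≤ 100 * N₂ →
    N₂ ≤ C * N₁ → ∃ c p q : ℕ, 1 ≤ c ∧ c < m ∧ p.Prime ∧
      q.Prime ∧ c * p + 1 = (c + 1) * q ∧ ((N₁ ≤ c * p ∧ c * p ≤ 2 * N₁) ∨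
        (N₂ ≤ c * p ∧ c * p ≤ 2 * N₂)) := by
  have hfar : ∀ D : ℕ, ∃ m N0 : ℕ, 1511 ≤ D → ∀ N₁ N₂ : ℕ, N0 ≤ N₁ → N₁ ≤ N₂ →
    1000 * N₂ < D * N₁ → D * N₁ ≤ 1000 * N₂ + N₁ → ∃ c p q : ℕ, 1 ≤ c ∧ c < m ∧ p.Prime ∧
      q.Prime ∧ c * p + 1 = (c + 1) * q ∧ ((N₁ ≤ c * p ∧ c * p ≤ 2 * N₁) ∨
        (N₂ ≤ c * p ∧ c * p ≤ 2 * N₂)) := by
    intro D
    by_cases hD : 1511 ≤ D
    · obtain ⟨m, N0, h⟩ := two_far D hD
      exact ⟨m, N0, fun _ => h⟩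
    · exact ⟨0, 0, fun h => absurd h hD⟩
  choose μ f hf using hfar
  refine ⟨(Finset.range (1000 * C + 2)).sup μ, (Finset.range (1000 * C + 2)).sup f + 1, ?_⟩
  intro N₁ N₂ hN0 h12 hC
  have hN1pos : 0 < N₁ := by omega
  obtain ⟨D, hD⟩ : ∃ D, 1000 * N₂ / N₁ + 1 = D := ⟨_, rfl⟩
  have hD1 : 1000 * N₂ < D * N₁ := by
    have h9 := Nat.lt_mul_div_succ (1000 * N₂) hN1pos
    calc 1000 * N₂ < N₁ * (1000 * N₂ / N₁ + 1) := h9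
      _ = D * N₁ := by rw [hD, mul_comm]
  have hD2 : D * N₁ ≤ 1000 * N₂ + N₁ := by
    have := Nat.div_mul_le_self (1000 * N₂) N₁
    rw [← hD, Nat.add_mul, one_mul]
    omega
  have hD3 : 1510 ≤ 1000 * N₂ / N₁ := by
    rw [Nat.le_div_iff_mul_le hN1pos]
    omega
  have hD4 : 1000 * N₂ / N₁ ≤ 1000 * C := by
    apply Nat.div_le_of_le_mul
    calc 1000 * N₂ ≤ 1000 * (C * N₁) := Nat.mul_le_mul_left _ hC
      _ = N₁ * (1000 * C) := by ring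
  have hmem : D ∈ Finset.range (1000 * C + 2) := Finset.mem_range.2 (by omega)
  have hsup : f D ≤ (Finset.range (1000 * C + 2)).sup f := Finset.le_sup (f := f) hmem
  have hsup2 : μ D ≤ (Finset.range (1000 * C + 2)).sup μ := Finset.le_sup (f := μ) hmem
  obtain ⟨c, p, q, h1, h2, h3, h4, h5, h6⟩ := hf D (by omega) N₁ N₂ (by omega) (by omega) hD1 hD2
  exact ⟨c, p, q, h1, lt_of_lt_of_le h2 hsup2, h3, h4, h5, h6⟩

end Pool.Agent.H47R4
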